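import Mathlib

/-!
# Blocking connecting lines (MP_ad382c_co): combinatorial definitions

`LinSp`: a finite linear space (points `ι`, lines = finsets with at least two points, any two
points on exactly one line, not all points on one line).

`Chart S`: real coordinates `(x, y)` realising the linear space in the plane.

`Ext c g ℓ`: in the chart `c` the line `ℓ` has the smallest slope among all (non vertical)
lines through the point `g`.

`Sys ι κ`: a linear space with one chart for every red point `ρ : κ` (the red point is at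
vertical infinity in its chart), a red point `r ℓ` for every line `ℓ` (which is vertical in the
chart of `r ℓ`) and the projective relation `nb` between the charts.
-/

set_option autoImplicit false

namespace H64.BL

open Finset

/-- A finite linear space. -/
structure LinSp (ι : Type) [Fintype ι] [DecidableEq ι] where
  L : Finset (Finset ι)
  two : ∀ ℓ ∈ L, 2 ≤ ℓ.card
  ex : ∀ i j : ι, i ≠ j → ∃ ℓ ∈ L, i ∈ ℓ ∧ j ∈ ℓ
  uniq : ∀ ℓ ∈ L, ∀ ℓ' ∈ L, ∀ i j : ι, i ≠ j → i ∈ ℓ → j ∈ ℓ → i ∈ ℓ' → j ∈ ℓ' → ℓ = ℓ'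
  noncol : ∀ ℓ ∈ L, ∃ i, i ∉ ℓ

/-- Real coordinates of a linear space: the lines are the collinear classes. -/
structure Chart {ι : Type} [Fintype ι] [DecidableEq ι] (S : LinSp ι) where
  x : ι → ℝ
  y : ι → ℝ
  inj : ∀ i j, x i = x j → y i = y j → i = j
  col : ∀ ℓ ∈ S.L, ∀ i ∈ ℓ, ∀ j ∈ ℓ, i ≠ j →
    ∀ k, k ∈ ℓ ↔ (x j - x i) * (y k - y i) = (x k - x i) * (y j - y i)

variable {ι : Type} [Fintype ι] [DecidableEq ι] {S : LinSp ι}

/-- The chart reflected in the `x` axis. -/
def Chart.neg (c : Chart S) : Chart S where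
  x := c.x
  y := fun i => - c.y i
  inj := fun i j hx hy => c.inj i j hx (neg_injective hy)
  col := by
    intro ℓ hℓ i hi j hj hij k
    rw [c.col ℓ hℓ i hi j hj hij k]
    constructor
    · intro h; linarith
    · intro h; linarith

/-- The chart or its reflection. -/
def Chart.sg (c : Chart S) (ε : Bool) : Chart S := cond ε c c.neg

/-- The slope of the line through the points `g` and `h`. -/
noncomputable def Chart.sl (c : Chart S) (g h : ι) : ℝ := (c.y h - c.y g) / (c.x h - c.x g)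

/-- `ℓ` has the smallest slope among the non vertical lines through `g`. -/
def Ext (c : Chart S) (g : ι) (ℓ : Finset ι) : Prop :=
  g ∈ ℓ ∧ (∃ k ∈ ℓ, c.x k ≠ c.x g) ∧
    ∀ k ∈ ℓ, c.x k ≠ c.x g → ∀ h, c.x h ≠ c.x g → c.sl g k ≤ c.sl g h

/-- `g` lies strictly between two points of its vertical line. -/
def Mid (c : Chart S) (g : ι) : Prop :=
  (∃ h, c.x h = c.x g ∧ c.y h < c.y g) ∧ (∃ h, c.x h = c.x g ∧ c.y g < c.y h)

/-- The combinatorial data of a blocking set: `κ` is the set of red points. -/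
structure Sys (ι κ : Type) [Fintype ι] [DecidableEq ι] [Fintype κ] [DecidableEq κ] where
  S : LinSp ι
  ch : κ → Chart S
  r : Finset ι → κ
  vert : ∀ ℓ ∈ S.L, ∀ i ∈ ℓ, ∀ j ∈ ℓ, (ch (r ℓ)).x i = (ch (r ℓ)).x j
  nb : ∀ ℓ ∈ S.L, ∀ g ∈ ℓ, ∃ w₁ ∈ S.L, ∃ w₂ ∈ S.L, ∃ ε₁ ε₂ : Bool, (w₁, ε₁) ≠ (w₂, ε₂) ∧
    g ∈ w₁ ∧ g ∈ w₂ ∧ Ext ((ch (r w₁)).sg ε₁) g ℓ ∧ Ext ((ch (r w₂)).sg ε₂) g ℓ

/-- Coefficient function of the inequality (J). -/
def jj (b : ℕ) : ℕ := if b = 3 then 2 else b * b - 4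

end H64.BL
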