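import Pool.Agent.H64.BL.PlLin

/-!
MODULE Four (80 lines): two crossing segments of a drawing have four different ends.

Let `e ≠ f`, `Crs e f` at the abscissa `X`. 
* `e.1 ≠ e.2` and `f.1 ≠ f.2` by `lt`.
* `e.1 = f.2` is impossible: `X < f.2.1 = e.1.1 < X`. Same for `e.2 = f.1`.
* `e.1 = f.1`: then `segH e` and `segH f` agree at `e.1.1` and at `X > e.1.1`, so the slopes
  are equal (`segH_sub`) and `segH e = segH f`. If `e.2.1 < f.2.1`, the vertex `e.2` is interior
  to `f` and `e.2.2 = segH e e.2.1 = segH f e.2.1`, contradiction to `free`; symmetric for `>`;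
  if `e.2.1 = f.2.1` then `e.2 = f.2` and `e = f`.
* `e.2 = f.2`: the same with the right ends.
-/

set_option autoImplicit false

namespace H64.BL

open Finset

/-- two segments which agree at two abscissae agree everywhere -/
theorem four_agree (e f : Seg) (a X : ℝ) (hne : a ≠ X) (ha : segH e a = segH f a)
    (hX : segH e X = segH f X) (Y : ℝ) : segH e Y = segH f Y := by
  have h1 := segH_sub e X a
  have h2 := segH_sub f X a
  have hs : segSl e = segSl f := by
    have h3 : segSl e * (X - a) = segSl f * (X - a) := by rw [← h1, ← h2, ha, hX]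
    exact mul_right_cancel₀ (sub_ne_zero.mpr hne.symm) h3
  have h4 := segH_sub e Y a
  have h5 := segH_sub f Y a
  rw [← hs] at h5
  linarith

theorem four_left (V : Finset (ℝ × ℝ)) (E : Finset Seg) (hD : Drawing V E) (e f : Seg)
    (he : e ∈ E) (hf : f ∈ E) (hc : Crs e f) (h : e.1 = f.1) : e = f := by
  obtain ⟨X, hX1, hX2, hX3, hX4, hX⟩ := hc
  have ha : segH e e.1.1 = segH f e.1.1 := by
    rw [segH_left e]
    have := segH_left f
    rw [← h] at this
    exact this.symm
  have hag := four_agree e f e.1.1 X hX1.ne ha hX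
  have he2 := segH_right e (hD.lt e he)
  have hf2 := segH_right f (hD.lt f hf)
  rcases lt_trichotomy e.2.1 f.2.1 with h1 | h1 | h1
  · exfalso
    refine hD.free f hf e.2 (hD.qm e he) ?_ h1 ?_
    · rw [← h]
      exact hD.lt e he
    · rw [← hag, he2]
  · refine Prod.ext h (Prod.ext h1 ?_)
    rw [← he2, ← hf2, hag, h1]
  · exfalso
    refine hD.free e he f.2 (hD.qm f hf) ?_ h1 ?_
    · rw [h]
      exact hD.lt f hf
    · rw [hag, hf2]

theorem four_right (V : Finset (ℝ × ℝ)) (E : Finset Seg) (hD : Drawing V E) (e f : Seg)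
    (he : e ∈ E) (hf : f ∈ E) (hc : Crs e f) (h : e.2 = f.2) : e = f := by
  obtain ⟨X, hX1, hX2, hX3, hX4, hX⟩ := hc
  have he2 := segH_right e (hD.lt e he)
  have hf2 := segH_right f (hD.lt f hf)
  have hb : segH e e.2.1 = segH f e.2.1 := by
    rw [he2]
    rw [← h] at hf2
    exact hf2.symm
  have hag := four_agree e f e.2.1 X hX3.ne' hb hX
  rcases lt_trichotomy e.1.1 f.1.1 with h1 | h1 | h1
  · exfalso
    refine hD.free e he f.1 (hD.pm f hf) h1 ?_ ?_
    · rw [h]
      exact hD.lt f hf
    · rw [hag, segH_left]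
  · refine Prod.ext (Prod.ext h1 ?_) h
    rw [← segH_left e, ← segH_left f, hag, h1]
  · exfalso
    refine hD.free f hf e.1 (hD.pm e he) h1 ?_ ?_
    · rw [← h]
      exact hD.lt e he
    · rw [← hag, segH_left]

open Classical in
theorem four_ends (V : Finset (ℝ × ℝ)) (E : Finset Seg) (hD : Drawing V E) (e f : Seg)
    (he : e ∈ E) (hf : f ∈ E) (hne : e ≠ f) (hc : Crs e f) :
    ({e.1, e.2, f.1, f.2} : Finset (ℝ × ℝ)).card = 4 := by
  have h12 : e.1 ≠ e.2 := by
    intro h
    have := hD.lt e he
    rw [h] at this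
    exact lt_irrefl _ this
  have h34 : f.1 ≠ f.2 := by
    intro h
    have := hD.lt f hf
    rw [h] at this
    exact lt_irrefl _ this
  have h13 : e.1 ≠ f.1 := fun h => hne (four_left V E hD e f he hf hc h)
  have h24 : e.2 ≠ f.2 := fun h => hne (four_right V E hD e f he hf hc h)
  obtain ⟨X, hX1, hX2, hX3, hX4, hX⟩ := hc
  have h14 : e.1 ≠ f.2 := by
    intro h
    rw [h] at hX1
    exact lt_asymm hX1 hX4
  have h23 : e.2 ≠ f.1 := by
    intro h
    rw [h] at hX3
    exact lt_asymm hX3 hX2
  rw [Finset.card_insert_of_notMem, Finset.card_insert_of_notMem, Finset.card_insert_of_notMem,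
    Finset.card_singleton]
  · rw [Finset.mem_singleton]
    exact h34
  · rw [Finset.mem_insert, Finset.mem_singleton]
    push Not
    exact ⟨h23, h24⟩
  · rw [Finset.mem_insert, Finset.mem_insert, Finset.mem_singleton]
    push Not
    exact ⟨h12, h13, h14⟩

end H64.BL
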