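import Mathlib

/-!
MODULE Wt (50 lines): product weights on the subsets of a finite set.

`wt V p A = p ^ |A| * (1 - p) ^ |V \ A|`. Claim: the total weight of the subsets `A` of `V` that
contain a given `T ⊆ V` is `p ^ |T|`.

Proof: `Finset.prod_add (fun _ => p) (fun i => if i ∈ T then 0 else 1 - p) V` says
`∏ i ∈ V, (p + g i) = ∑ A ∈ V.powerset, (∏ i ∈ A, p) * ∏ i ∈ V \ A, g i`. The second product is
`0` if `V \ A` meets `T` (i.e. not `T ⊆ A`) and `(1 - p) ^ |V \ A|` otherwise. The left side is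
`∏ i ∈ V, (if i ∈ T then p else 1) = p ^ |T|`.
-/

set_option autoImplicit false

namespace H64.BL

open Finset

noncomputable def wt {α : Type} [DecidableEq α] (V : Finset α) (p : ℝ) (A : Finset α) : ℝ :=
  p ^ A.card * (1 - p) ^ (V \ A).card

theorem wt_nonneg {α : Type} [DecidableEq α] (V : Finset α) (p : ℝ) (A : Finset α) (h0 : 0 ≤ p)
    (h1 : p ≤ 1) : 0 ≤ wt V p A := by
  unfold wt
  exact mul_nonneg (pow_nonneg h0 _) (pow_nonneg (by linarith) _)

theorem wt_sum {α : Type} [DecidableEq α] (V T : Finset α) (p : ℝ) (hT : T ⊆ V) :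
    ∑ A ∈ V.powerset, (if T ⊆ A then wt V p A else 0) = p ^ T.card := by
  classical
  have h := Finset.prod_add (fun _ : α => p) (fun i => if i ∈ T then (0 : ℝ) else 1 - p) V
  have hL : ∏ i ∈ V, (p + (if i ∈ T then (0 : ℝ) else 1 - p)) = p ^ T.card := by
    have h1 : ∀ i ∈ V, (p + (if i ∈ T then (0 : ℝ) else 1 - p)) = if i ∈ T then p else 1 := by
      intro i _
      by_cases hi : i ∈ T
      · simp [hi]
      · simp [hi]
    rw [Finset.prod_congr rfl h1, Finset.prod_ite, Finset.prod_const, Finset.prod_const_one,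
      mul_one]
    congr 2
    ext i
    simp only [Finset.mem_filter]
    exact ⟨fun hi => hi.2, fun hi => ⟨hT hi, hi⟩⟩
  rw [hL] at h
  rw [h]
  refine Finset.sum_congr rfl fun A hA => ?_
  rw [Finset.mem_powerset] at hA
  by_cases hTA : T ⊆ A
  · rw [if_pos hTA, wt, Finset.prod_const]
    congr 1
    have h2 : ∀ i ∈ V \ A, (if i ∈ T then (0 : ℝ) else 1 - p) = 1 - p := by
      intro i hi
      rw [Finset.mem_sdiff] at hi
      rw [if_neg fun hiT => hi.2 (hTA hiT)]
    rw [Finset.prod_congr rfl h2, Finset.prod_const]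
  · rw [if_neg hTA]
    obtain ⟨i, hiT, hiA⟩ := Finset.not_subset.mp hTA
    rw [Finset.prod_eq_zero (i := i) (Finset.mem_sdiff.mpr ⟨hT hiT, hiA⟩) (by rw [if_pos hiT]),
      mul_zero]

end H64.BL
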