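import Pool.Agent.H64.BL.PlDel
import Pool.Agent.H64.BL.Wt
import Pool.Agent.H64.BL.Four

/-!
MODULE Samp (130 lines): the crossing lemma `2 r² |E| ≤ 6 r³ |V| + crO E`.

Let `p = 1 / r`. For `A ⊆ V` let `E_A = {e ∈ E | e.1 ∈ A ∧ e.2 ∈ A}`; `Drawing A E_A` holds, so
`2 |E_A| ≤ 6 |A| + crO E_A` (`two_card_le`). Multiply by `wt V p A ≥ 0` and sum over
`A ∈ V.powerset`:
* `∑_A wt A |E_A| = ∑_{e ∈ E} ∑_A [ {e.1, e.2} ⊆ A ] wt A = p² |E|` (`wt_sum`, `e.1 ≠ e.2`),
* `∑_A wt A |A| = ∑_{v ∈ V} ∑_A [ {v} ⊆ A ] wt A = p |V|`,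
* `∑_A wt A crO E_A = ∑_{(e, f) crossing} ∑_A [ {e.1, e.2, f.1, f.2} ⊆ A ] wt A = p⁴ crO E`
  (`four_ends`).
So `2 p² |E| ≤ 6 p |V| + p⁴ crO E` in `ℝ`; multiply by `r⁴`.
-/

set_option autoImplicit false

namespace H64.BL

open Finset

private theorem samp_swap {α β : Type} [DecidableEq α] (V : Finset α) (p : ℝ) (S : Finset β)
    (T : β → Finset α) (k : ℕ) (hT : ∀ b ∈ S, T b ⊆ V) (hk : ∀ b ∈ S, (T b).card = k)
    (c : Finset α → ℕ) (hc : ∀ A ∈ V.powerset, c A = (S.filter (fun b => T b ⊆ A)).card) :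
    ∑ A ∈ V.powerset, wt V p A * (c A : ℝ) = p ^ k * (S.card : ℝ) := by
  have h1 : ∀ A ∈ V.powerset, wt V p A * (c A : ℝ) =
      ∑ b ∈ S, (if T b ⊆ A then wt V p A else 0) := by
    intro A hA
    rw [hc A hA, ← Finset.sum_filter, Finset.sum_const, nsmul_eq_mul, mul_comm]
  rw [Finset.sum_congr rfl h1, Finset.sum_comm]
  have h2 : ∀ b ∈ S, (∑ A ∈ V.powerset, (if T b ⊆ A then wt V p A else 0)) = p ^ k := by
    intro b hb
    rw [wt_sum V (T b) p (hT b hb), hk b hb]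
  rw [Finset.sum_congr rfl h2, Finset.sum_const, nsmul_eq_mul, mul_comm]

theorem crossing_lemma (V : Finset (ℝ × ℝ)) (E : Finset Seg) (hD : Drawing V E) (r : ℕ)
    (hr : 1 ≤ r) : 2 * r ^ 2 * E.card ≤ 6 * r ^ 3 * V.card + crO E := by
  classical
  have hr1 : (1 : ℝ) ≤ (r : ℝ) := by exact_mod_cast hr
  have hr0 : (0 : ℝ) < (r : ℝ) := by linarith
  obtain ⟨p, hp⟩ : ∃ p : ℝ, p = 1 / (r : ℝ) := ⟨_, rfl⟩
  have hp0 : 0 ≤ p := by rw [hp]; positivity
  have hp1 : p ≤ 1 := by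
    rw [hp, div_le_one hr0]; exact hr1
  have hpr : p * r = 1 := by rw [hp]; field_simp
  let EA : Finset (ℝ × ℝ) → Finset Seg := fun A => E.filter (fun e => e.1 ∈ A ∧ e.2 ∈ A)
  have hEA : ∀ A, EA A = E.filter (fun e => e.1 ∈ A ∧ e.2 ∈ A) := fun A => rfl
  have hDA : ∀ A ∈ V.powerset, Drawing A (EA A) := by
    intro A hA
    have hAV : A ⊆ V := Finset.mem_powerset.1 hA
    refine ⟨?_, ?_, ?_, ?_⟩
    · intro e he
      rw [hEA, Finset.mem_filter] at he
      exact hD.lt e he.1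
    · intro e he
      rw [hEA, Finset.mem_filter] at he
      exact he.2.1
    · intro e he
      rw [hEA, Finset.mem_filter] at he
      exact he.2.2
    · intro e he v hv
      rw [hEA, Finset.mem_filter] at he
      exact hD.free e he.1 v (hAV hv)
  have hineq : ∀ A ∈ V.powerset,
      2 * ((EA A).card : ℝ) ≤ 6 * (A.card : ℝ) + (crO (EA A) : ℝ) := by
    intro A hA
    exact_mod_cast two_card_le A (EA A) (hDA A hA)
  have h1 : ∑ A ∈ V.powerset, wt V p A * (((EA A).card : ℕ) : ℝ) = p ^ 2 * (E.card : ℝ) := by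
    refine samp_swap V p E (fun e => {e.1, e.2}) 2 ?_ ?_ (fun A => (EA A).card) ?_
    · intro e he x hx
      simp only [Finset.mem_insert, Finset.mem_singleton] at hx
      rcases hx with rfl | rfl
      · exact hD.pm e he
      · exact hD.qm e he
    · intro e he
      apply Finset.card_pair
      intro h
      have := hD.lt e he
      rw [h] at this
      exact lt_irrefl _ this
    · intro A hA
      show (EA A).card = _
      rw [hEA]
      congr 1
      apply Finset.filter_congr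
      intro e he
      simp only [Finset.insert_subset_iff, Finset.singleton_subset_iff]
  have h2 : ∑ A ∈ V.powerset, wt V p A * ((A.card : ℕ) : ℝ) = p ^ 1 * (V.card : ℝ) := by
    refine samp_swap V p V (fun v => {v}) 1 ?_ ?_ (fun A => A.card) ?_
    · intro v hv
      exact Finset.singleton_subset_iff.2 hv
    · intro v hv
      exact Finset.card_singleton v
    · intro A hA
      have hAV : A ⊆ V := Finset.mem_powerset.1 hA
      show A.card = _
      congr 1
      ext v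
      simp only [Finset.mem_filter, Finset.singleton_subset_iff]
      exact ⟨fun h => ⟨hAV h, h⟩, fun h => h.2⟩
  have h3 : ∑ A ∈ V.powerset, wt V p A * ((crO (EA A) : ℕ) : ℝ) = p ^ 4 * (crO E : ℝ) := by
    have := samp_swap V p ((E ×ˢ E).filter (fun q => q.1 ≠ q.2 ∧ Crs q.1 q.2))
      (fun q => {q.1.1, q.1.2, q.2.1, q.2.2}) 4 ?_ ?_ (fun A => crO (EA A)) ?_
    · rw [this]
      unfold crO
      congr!
    · intro q hq x hx
      rw [Finset.mem_filter, Finset.mem_product] at hq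
      simp only [Finset.mem_insert, Finset.mem_singleton] at hx
      rcases hx with rfl | rfl | rfl | rfl
      · exact hD.pm _ hq.1.1
      · exact hD.qm _ hq.1.1
      · exact hD.pm _ hq.1.2
      · exact hD.qm _ hq.1.2
    · intro q hq
      rw [Finset.mem_filter, Finset.mem_product] at hq
      have h4 := four_ends V E hD q.1 q.2 hq.1.1 hq.1.2 hq.2.1 hq.2.2
      rw [← h4]
    · intro A hA
      show crO (EA A) = _
      unfold crO
      congr 1
      ext q
      simp only [Finset.mem_filter, Finset.mem_product, hEA, Finset.insert_subset_iff,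
        Finset.singleton_subset_iff]
      tauto
  have hsum : ∑ A ∈ V.powerset, wt V p A * (2 * ((EA A).card : ℝ)) ≤
      ∑ A ∈ V.powerset, wt V p A * (6 * (A.card : ℝ) + (crO (EA A) : ℝ)) := by
    apply Finset.sum_le_sum
    intro A hA
    exact mul_le_mul_of_nonneg_left (hineq A hA) (wt_nonneg V p A hp0 hp1)
  have e1 : ∑ A ∈ V.powerset, wt V p A * (2 * ((EA A).card : ℝ)) = 2 * (p ^ 2 * (E.card : ℝ)) := by
    rw [← h1, Finset.mul_sum]
    apply Finset.sum_congr rfl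
    intro A hA
    ring
  have e2 : ∑ A ∈ V.powerset, wt V p A * (6 * (A.card : ℝ) + (crO (EA A) : ℝ)) =
      6 * (p ^ 1 * (V.card : ℝ)) + p ^ 4 * (crO E : ℝ) := by
    rw [← h2, ← h3, Finset.mul_sum, ← Finset.sum_add_distrib]
    apply Finset.sum_congr rfl
    intro A hA
    ring
  rw [e1, e2] at hsum
  have hr4 : (0 : ℝ) ≤ (r : ℝ) ^ 4 := by positivity
  have hfin := mul_le_mul_of_nonneg_left hsum hr4
  have l1 : (r : ℝ) ^ 4 * (2 * (p ^ 2 * (E.card : ℝ))) = 2 * (r : ℝ) ^ 2 * (E.card : ℝ) := by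
    calc (r : ℝ) ^ 4 * (2 * (p ^ 2 * (E.card : ℝ)))
        = 2 * (r : ℝ) ^ 2 * (E.card : ℝ) * (p * r) ^ 2 := by ring
      _ = _ := by rw [hpr]; ring
  have l2 : (r : ℝ) ^ 4 * (6 * (p ^ 1 * (V.card : ℝ)) + p ^ 4 * (crO E : ℝ)) =
      6 * (r : ℝ) ^ 3 * (V.card : ℝ) + (crO E : ℝ) := by
    calc (r : ℝ) ^ 4 * (6 * (p ^ 1 * (V.card : ℝ)) + p ^ 4 * (crO E : ℝ))
        = 6 * (r : ℝ) ^ 3 * (V.card : ℝ) * (p * r) + (crO E : ℝ) * (p * r) ^ 4 := by ring
      _ = _ := by rw [hpr]; ring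
  rw [l1, l2] at hfin
  exact_mod_cast hfin

end H64.BL
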