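import Pool.Agent.H64.BL.HgCross
import Pool.Agent.H64.BL.Samp

/-!
Assembly: the incidence inequality for every set `H` of lines and every `r ≥ 1`.
-/

set_option autoImplicit false

namespace H64.BL

open Finset

variable {ι : Type} [Fintype ι] [DecidableEq ι] {S : LinSp ι}

theorem cl (c : Chart S) (hx : Function.Injective c.x) (H : Finset (Finset ι)) (hH : H ⊆ S.L)
    (r : ℕ) (hr : 1 ≤ r) :
    2 * r ^ 2 * ∑ ℓ ∈ H, ℓ.card ≤ 2 * r ^ 2 * Fintype.card ι + 6 * r ^ 3 * H.card +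
      ∑ ℓ ∈ S.L \ H, ℓ.card * (ℓ.card - 1) := by
  classical
  have hex : ∀ q : ι × Finset ι, ∃ ℓ', q ∈ idx c H → IsNxt c H q ℓ' := by
    intro q
    by_cases hq : q ∈ idx c H
    · obtain ⟨ℓ', h⟩ := nxt_exists c H q hq
      exact ⟨ℓ', fun _ => h⟩
    · exact ⟨∅, fun h => absurd h hq⟩
  choose nx hn using hex
  have h1 := crossing_lemma _ _ (draw c hx H hH nx hn) r hr
  rw [verts_card c hx H hH, edges_card c hx H hH nx hn] at h1
  have h2 := crO_le c hx H hH nx hn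
  have h3 := idx_card c hx H hH
  have h4 : 2 * r ^ 2 * ∑ ℓ ∈ H, ℓ.card ≤ 2 * r ^ 2 * ((idx c H).card + Fintype.card ι) :=
    Nat.mul_le_mul_left _ h3
  calc 2 * r ^ 2 * ∑ ℓ ∈ H, ℓ.card ≤ 2 * r ^ 2 * ((idx c H).card + Fintype.card ι) := h4
    _ = 2 * r ^ 2 * (idx c H).card + 2 * r ^ 2 * Fintype.card ι := by ring
    _ ≤ 6 * r ^ 3 * H.card + crO (segs c H nx) + 2 * r ^ 2 * Fintype.card ι := by omega
    _ ≤ _ := by omega

end H64.BL
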