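import Pool.Agent.H64.BL.SmA

/-!
MODULE Cnt (140 lines): counting identities and the long line inequality. `n = card ι`,
`m = card κ`.

`sum_pairs`: `∑_{ℓ ∈ L} |ℓ| (|ℓ| - 1) = n (n - 1)`: `univ.offDiag` is the disjoint union of the
 `ℓ.offDiag` (`S.ex`, `S.uniq`; `offDiag_card`).
`deg`: for `g`: `∑_{w ∈ L, g ∈ w} (|w| - 1) = n - 1`: the sets `w.erase g` partition
 `univ.erase g`.
`deg_le`: the number of lines through `g` is at most `m`: `r` is injective on them (`rinj`).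
`sum_card`: `∑_{ℓ ∈ L} |ℓ| ≤ n m` (double counting, `deg_le`).
`card_le`: `|ℓ| ≤ m` for `ℓ ∈ L`: take `g ∉ ℓ` (`noncol`); the lines joining `g` with the points of
 `ℓ` are different (`uniq`), so `|ℓ| ≤ #(lines through g) ≤ m`.
`long`: for `ℓ₁ ∈ L`: `|ℓ₁| (n - |ℓ₁| - m + 1) ≤ ∑_{ℓ ∈ L} (|ℓ| - 2)` in `ℤ`. For `g ∈ ℓ₁`:
 `∑_{w ∋ g, w ≠ ℓ₁} (|w| - 2) = (n - 1) - (|ℓ₁| - 1) - (#{w ∋ g} - 1) ≥ n - |ℓ₁| - m + 1`.
 Sum over `g ∈ ℓ₁`: a line `w ≠ ℓ₁` contains at most one `g ∈ ℓ₁`, so the left side is at most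
 `∑_{w ∈ L} (|w| - 2)` (all terms are nonnegative).
-/

set_option autoImplicit false

namespace H64.BL

open Finset

variable {ι κ : Type} [Fintype ι] [DecidableEq ι] [Fintype κ] [DecidableEq κ]

theorem LinSp.sum_pairs (S : LinSp ι) :
    ∑ ℓ ∈ S.L, ℓ.card * (ℓ.card - 1) = Fintype.card ι * (Fintype.card ι - 1) := by
  have h1 : ∀ s : Finset ι, s.card * (s.card - 1) = s.offDiag.card := by
    intro s
    rw [offDiag_card, Nat.mul_sub_one]
  have h2 : S.L.biUnion (fun ℓ => ℓ.offDiag) = (univ : Finset ι).offDiag := by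
    ext ⟨i, j⟩
    simp only [mem_biUnion, mem_offDiag, mem_univ, true_and]
    constructor
    · rintro ⟨ℓ, _, _, _, hij⟩
      exact hij
    · intro hij
      obtain ⟨ℓ, hℓ, hi, hj⟩ := S.ex i j hij
      exact ⟨ℓ, hℓ, hi, hj, hij⟩
  have h3 : ∀ ℓ ∈ S.L, ∀ ℓ' ∈ S.L, ℓ ≠ ℓ' → Disjoint ℓ.offDiag ℓ'.offDiag := by
    intro ℓ hℓ ℓ' hℓ' hne
    rw [disjoint_left]
    rintro ⟨i, j⟩ hi hj
    rw [mem_offDiag] at hi hj
    exact hne (S.uniq ℓ hℓ ℓ' hℓ' i j hi.2.2 hi.1 hi.2.1 hj.1 hj.2.1)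
  calc ∑ ℓ ∈ S.L, ℓ.card * (ℓ.card - 1) = ∑ ℓ ∈ S.L, ℓ.offDiag.card :=
        sum_congr rfl fun ℓ _ => h1 ℓ
    _ = (S.L.biUnion (fun ℓ => ℓ.offDiag)).card := (card_biUnion h3).symm
    _ = Fintype.card ι * (Fintype.card ι - 1) := by
        rw [h2, ← h1, card_univ]

theorem LinSp.deg (S : LinSp ι) (g : ι) :
    ∑ w ∈ S.L.filter (fun w => g ∈ w), (w.card - 1) = Fintype.card ι - 1 := by
  have h2 : (S.L.filter (fun w => g ∈ w)).biUnion (fun w => w.erase g) =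
      (univ : Finset ι).erase g := by
    ext i
    simp only [mem_biUnion, mem_filter, mem_erase, mem_univ, and_true]
    constructor
    · rintro ⟨w, _, hi, _⟩
      exact hi
    · intro hi
      obtain ⟨w, hw, hiw, hgw⟩ := S.ex i g hi
      exact ⟨w, ⟨hw, hgw⟩, hi, hiw⟩
  have h3 : ∀ w ∈ S.L.filter (fun w => g ∈ w), ∀ w' ∈ S.L.filter (fun w => g ∈ w), w ≠ w' →
      Disjoint (w.erase g) (w'.erase g) := by
    intro w hw w' hw' hne
    rw [mem_filter] at hw hw'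
    rw [disjoint_left]
    intro i hi hi'
    rw [mem_erase] at hi hi'
    exact hne (S.uniq w hw.1 w' hw'.1 i g hi.1 hi.2 hw.2 hi'.2 hw'.2)
  calc ∑ w ∈ S.L.filter (fun w => g ∈ w), (w.card - 1)
      = ∑ w ∈ S.L.filter (fun w => g ∈ w), (w.erase g).card := by
        refine sum_congr rfl fun w hw => ?_
        rw [mem_filter] at hw
        rw [card_erase_of_mem hw.2]
    _ = ((S.L.filter (fun w => g ∈ w)).biUnion (fun w => w.erase g)).card :=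
        (card_biUnion h3).symm
    _ = Fintype.card ι - 1 := by
        rw [h2, card_erase_of_mem (mem_univ g), card_univ]

theorem Sys.deg_le (A : Sys ι κ) (g : ι) :
    (A.S.L.filter (fun w => g ∈ w)).card ≤ Fintype.card κ := by
  rw [← card_univ]
  refine card_le_card_of_injOn A.r (fun _ _ => mem_coe.mpr (mem_univ _)) ?_
  intro w hw w' hw' h
  rw [mem_coe, mem_filter] at hw hw'
  exact A.rinj w w' hw.1 hw'.1 g hw.2 hw'.2 h

theorem Sys.sum_card (A : Sys ι κ) :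
    ∑ ℓ ∈ A.S.L, ℓ.card ≤ Fintype.card ι * Fintype.card κ := by
  have h1 : ∀ ℓ : Finset ι, ℓ.card = ∑ g : ι, if g ∈ ℓ then 1 else 0 := by
    intro ℓ
    rw [sum_ite_mem, univ_inter, card_eq_sum_ones]
  calc ∑ ℓ ∈ A.S.L, ℓ.card = ∑ ℓ ∈ A.S.L, ∑ g : ι, (if g ∈ ℓ then 1 else 0) :=
        sum_congr rfl fun ℓ _ => h1 ℓ
    _ = ∑ g : ι, ∑ ℓ ∈ A.S.L, (if g ∈ ℓ then 1 else 0) := sum_comm
    _ = ∑ g : ι, (A.S.L.filter (fun w => g ∈ w)).card := by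
        refine sum_congr rfl fun g _ => ?_
        rw [card_filter]
    _ ≤ ∑ _g : ι, Fintype.card κ := sum_le_sum fun g _ => A.deg_le g
    _ = Fintype.card ι * Fintype.card κ := by
        rw [sum_const, card_univ, smul_eq_mul]

theorem Sys.card_le (A : Sys ι κ) (ℓ : Finset ι) (hℓ : ℓ ∈ A.S.L) : ℓ.card ≤ Fintype.card κ := by
  obtain ⟨g, hg⟩ := A.S.noncol ℓ hℓ
  have hex : ∀ i : ι, ∃ w : Finset ι, i ∈ ℓ → (w ∈ A.S.L ∧ g ∈ w ∧ i ∈ w) := by
    intro i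
    by_cases hi : i ∈ ℓ
    · have hne : g ≠ i := fun h => hg (h ▸ hi)
      obtain ⟨w, hw, hgw, hiw⟩ := A.S.ex g i hne
      exact ⟨w, fun _ => ⟨hw, hgw, hiw⟩⟩
    · exact ⟨∅, fun h => absurd h hi⟩
  choose f hf using hex
  refine le_trans ?_ (A.deg_le g)
  refine card_le_card_of_injOn f ?_ ?_
  · intro i hi
    rw [mem_coe] at hi
    rw [mem_coe, mem_filter]
    exact ⟨(hf i hi).1, (hf i hi).2.1⟩
  · intro i hi j hj hij
    rw [mem_coe] at hi hj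
    by_contra hne
    obtain ⟨hw, hgw, hiw⟩ := hf i hi
    obtain ⟨_, _, hjw⟩ := hf j hj
    rw [← hij] at hjw
    have := A.S.uniq (f i) hw ℓ hℓ i j hne hiw hjw hi hj
    exact hg (this ▸ hgw)

theorem Sys.long (A : Sys ι κ) (ℓ₁ : Finset ι) (hℓ : ℓ₁ ∈ A.S.L) :
    (ℓ₁.card : ℤ) * ((Fintype.card ι : ℤ) - ℓ₁.card - Fintype.card κ + 1) ≤
      ∑ ℓ ∈ A.S.L, ((ℓ.card : ℤ) - 2) := by
  have hpt : ∀ g ∈ ℓ₁, (Fintype.card ι : ℤ) - ℓ₁.card - Fintype.card κ + 1 ≤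
      ∑ w ∈ A.S.L, (if g ∈ w ∧ w ≠ ℓ₁ then ((w.card : ℤ) - 2) else 0) := by
    intro g hg
    have hdeg := A.S.deg g
    have hle := A.deg_le g
    have hn : 1 ≤ Fintype.card ι := Fintype.card_pos_iff.mpr ⟨g⟩
    have hz : ∑ w ∈ A.S.L.filter (fun w => g ∈ w), ((w.card : ℤ) - 1) =
        (Fintype.card ι : ℤ) - 1 := by
      have h1 : ((∑ w ∈ A.S.L.filter (fun w => g ∈ w), (w.card - 1) : ℕ) : ℤ) =
          ((Fintype.card ι - 1 : ℕ) : ℤ) := by rw [hdeg]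
      rw [Nat.cast_sum, Nat.cast_sub hn] at h1
      rw [Nat.cast_one] at h1
      rw [← h1]
      refine sum_congr rfl fun w hw => ?_
      rw [mem_filter] at hw
      have : 1 ≤ w.card := card_pos.mpr ⟨g, hw.2⟩
      rw [Nat.cast_sub this, Nat.cast_one]
    have hmem : ℓ₁ ∈ A.S.L.filter (fun w => g ∈ w) := mem_filter.mpr ⟨hℓ, hg⟩
    have hz2 : ∑ w ∈ A.S.L.filter (fun w => g ∈ w), ((w.card : ℤ) - 2) =
        (Fintype.card ι : ℤ) - 1 - (A.S.L.filter (fun w => g ∈ w)).card := by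
      rw [← hz, card_eq_sum_ones, Nat.cast_sum, ← sum_sub_distrib]
      refine sum_congr rfl fun w _ => ?_
      push_cast
      ring
    have hz3 : ∑ w ∈ A.S.L, (if g ∈ w ∧ w ≠ ℓ₁ then ((w.card : ℤ) - 2) else 0) =
        ∑ w ∈ (A.S.L.filter (fun w => g ∈ w)).erase ℓ₁, ((w.card : ℤ) - 2) := by
      rw [← sum_filter]
      refine sum_congr ?_ fun _ _ => rfl
      ext w
      simp only [mem_filter, mem_erase]
      tauto
    have hz4 := sum_erase_eq_sub (s := A.S.L.filter (fun w => g ∈ w))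
      (f := fun w : Finset ι => ((w.card : ℤ) - 2)) hmem
    rw [hz3, hz4, hz2]
    have : ((A.S.L.filter (fun w => g ∈ w)).card : ℤ) ≤ (Fintype.card κ : ℤ) := by
      exact_mod_cast hle
    linarith
  calc (ℓ₁.card : ℤ) * ((Fintype.card ι : ℤ) - ℓ₁.card - Fintype.card κ + 1)
      = ∑ _g ∈ ℓ₁, ((Fintype.card ι : ℤ) - ℓ₁.card - Fintype.card κ + 1) := by
        rw [sum_const, nsmul_eq_mul]
    _ ≤ ∑ g ∈ ℓ₁, ∑ w ∈ A.S.L, (if g ∈ w ∧ w ≠ ℓ₁ then ((w.card : ℤ) - 2) else 0) :=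
        sum_le_sum hpt
    _ = ∑ w ∈ A.S.L, ∑ g ∈ ℓ₁, (if g ∈ w ∧ w ≠ ℓ₁ then ((w.card : ℤ) - 2) else 0) := sum_comm
    _ ≤ ∑ w ∈ A.S.L, ((w.card : ℤ) - 2) := by
        refine sum_le_sum fun w hw => ?_
        have h2 : (0 : ℤ) ≤ (w.card : ℤ) - 2 := by
          have := A.S.two w hw
          have : (2 : ℤ) ≤ (w.card : ℤ) := by exact_mod_cast this
          linarith
        rw [← sum_filter, sum_const, nsmul_eq_mul]
        have hc : (ℓ₁.filter (fun g => g ∈ w ∧ w ≠ ℓ₁)).card ≤ 1 := by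
          rw [card_le_one]
          intro a ha b hb
          rw [mem_filter] at ha hb
          by_contra hab
          exact ha.2.2 (A.S.uniq w hw ℓ₁ hℓ a b hab ha.2.1 hb.2.1 ha.1 hb.1)
        have hc' : ((ℓ₁.filter (fun g => g ∈ w ∧ w ≠ ℓ₁)).card : ℤ) ≤ 1 := by
          exact_mod_cast hc
        nlinarith

end H64.BL
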