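import Pool.Agent.H64.BL.Defs

/-!
MODULE NumF (130 lines): the pointwise certificate.

`rr i = 8 * 2^i` (8, 16, ..., 1024), `kk i = 3 * rr i - 3`, weights `lam`.
`FF b = (87/250) b + (49/250) (b-2)(b+1) + (13/100) jj b`
  `+ ∑_{i < 8} lam i * (if kk i ≤ b then rr i ^ 2 * (b - 3 rr i) else - b (b-1) / 2)`.

`ptw1`: `(212/625) b (b-1) ≤ FF b` for `2 ≤ b < 4000`. The thresholds are
21, 45, 93, 189, 381, 765, 1533, 3069. On each of the nine intervals
[2,20] [21,44] [45,92] [93,188] [189,380] [381,764] [765,1532] [1533,3068] [3069,3999] the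
difference is a quadratic polynomial with negative leading coefficient, so nonnegativity at the two
ends suffices (`nlinarith [mul_nonneg (b - lo ≥ 0) (hi - b ≥ 0)]`); for `b ≤ 20` use
`interval_cases b` (`jj 3 = 2`).
`ptw2`: `(163/500) b (b-1) ≤ FF b` for `4000 ≤ b`: all conditions `kk i ≤ b` hold, `b ≥ 3 rr i`, and
`(87/250) b + (49/250)(b(b-1) - 2) + (13/100)(b(b-1) + b - 4) ≥ (163/500) b (b-1)`.
`lam_sum`: `∑_{i < 8} lam i * rr i ^ 2 ≤ 92` (it is 91.824).
-/

set_option autoImplicit false

namespace H64.BL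

open Finset

def rr (i : ℕ) : ℕ := 8 * 2 ^ i

def kk (i : ℕ) : ℕ := 3 * rr i - 3

noncomputable def lam (i : ℕ) : ℝ :=
  if i = 0 then 39 / 4000 else if i = 7 then 3 / 102400 else 3 / (400 * 2 ^ i)

noncomputable def FF (b : ℕ) : ℝ :=
  (87 / 250) * b + (49 / 250) * (((b : ℝ) - 2) * (b + 1)) + (13 / 100) * (jj b : ℝ) +
    ∑ i ∈ range 8, lam i *
      (if kk i ≤ b then (rr i : ℝ) ^ 2 * ((b : ℝ) - 3 * rr i) else -((b : ℝ) * (b - 1) / 2))

private theorem FF_eq (b : ℕ) (hb : 4 ≤ b) : FF b = (87 / 250) * b +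
    (49 / 250) * (((b : ℝ) - 2) * (b + 1)) + (13 / 100) * ((b : ℝ) * b - 4) +
    ((39 / 4000) * (if 21 ≤ b then 64 * ((b : ℝ) - 24) else -((b : ℝ) * (b - 1) / 2)) +
    (3 / 800) * (if 45 ≤ b then 256 * ((b : ℝ) - 48) else -((b : ℝ) * (b - 1) / 2)) +
    (3 / 1600) * (if 93 ≤ b then 1024 * ((b : ℝ) - 96) else -((b : ℝ) * (b - 1) / 2)) +
    (3 / 3200) * (if 189 ≤ b then 4096 * ((b : ℝ) - 192) else -((b : ℝ) * (b - 1) / 2)) +
    (3 / 6400) * (if 381 ≤ b then 16384 * ((b : ℝ) - 384) else -((b : ℝ) * (b - 1) / 2)) +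
    (3 / 12800) * (if 765 ≤ b then 65536 * ((b : ℝ) - 768) else -((b : ℝ) * (b - 1) / 2)) +
    (3 / 25600) * (if 1533 ≤ b then 262144 * ((b : ℝ) - 1536) else -((b : ℝ) * (b - 1) / 2)) +
    (3 / 102400) * (if 3069 ≤ b then 1048576 * ((b : ℝ) - 3072) else
      -((b : ℝ) * (b - 1) / 2))) := by
  have hjj : (jj b : ℝ) = (b : ℝ) * b - 4 := by
    unfold jj
    rw [if_neg (by omega)]
    have : 4 ≤ b * b := by nlinarith
    push_cast [Nat.cast_sub this]
    ring
  unfold FF
  rw [hjj]
  simp only [sum_range_succ, sum_range_zero, lam, kk, rr]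
  norm_num

theorem ptw1 (b : ℕ) (h2 : 2 ≤ b) (hb : b < 4000) :
    (212 / 625 : ℝ) * ((b : ℝ) * (b - 1)) ≤ FF b := by
  by_cases h4 : b < 4
  · unfold FF
    simp only [sum_range_succ, sum_range_zero, lam, kk, rr]
    interval_cases b <;> norm_num [jj]
  · rw [FF_eq b (by omega)]
    have key : ∀ lo hi : ℕ, lo ≤ b → b ≤ hi → 0 ≤ ((b : ℝ) - lo) * ((hi : ℝ) - b) ∧ (lo : ℝ) ≤ b ∧
        (b : ℝ) ≤ hi := by
      intro lo hi h1 h2
      have h1' : (lo : ℝ) ≤ b := by exact_mod_cast h1
      have h2' : (b : ℝ) ≤ hi := by exact_mod_cast h2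
      exact ⟨mul_nonneg (by linarith) (by linarith), h1', h2'⟩
    rcases lt_or_ge b 21 with h | h
    · obtain ⟨q, hq1, hq2⟩ := key 4 20 (by omega) (by omega)
      rw [if_neg (by omega), if_neg (by omega), if_neg (by omega), if_neg (by omega),
        if_neg (by omega), if_neg (by omega), if_neg (by omega), if_neg (by omega)]
      push_cast at q hq1 hq2
      nlinarith [q, hq1, hq2]
    rcases lt_or_ge b 45 with h' | h'
    · obtain ⟨q, hq1, hq2⟩ := key 21 44 (by omega) (by omega)
      rw [if_pos (by omega), if_neg (by omega), if_neg (by omega), if_neg (by omega),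
        if_neg (by omega), if_neg (by omega), if_neg (by omega), if_neg (by omega)]
      push_cast at q hq1 hq2
      nlinarith [q, hq1, hq2]
    rcases lt_or_ge b 93 with h'' | h''
    · obtain ⟨q, hq1, hq2⟩ := key 45 92 (by omega) (by omega)
      rw [if_pos (by omega), if_pos (by omega), if_neg (by omega), if_neg (by omega),
        if_neg (by omega), if_neg (by omega), if_neg (by omega), if_neg (by omega)]
      push_cast at q hq1 hq2
      nlinarith [q, hq1, hq2]
    rcases lt_or_ge b 189 with h3 | h3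
    · obtain ⟨q, hq1, hq2⟩ := key 93 188 (by omega) (by omega)
      rw [if_pos (by omega), if_pos (by omega), if_pos (by omega), if_neg (by omega),
        if_neg (by omega), if_neg (by omega), if_neg (by omega), if_neg (by omega)]
      push_cast at q hq1 hq2
      nlinarith [q, hq1, hq2]
    rcases lt_or_ge b 381 with h5 | h5
    · obtain ⟨q, hq1, hq2⟩ := key 189 380 (by omega) (by omega)
      rw [if_pos (by omega), if_pos (by omega), if_pos (by omega), if_pos (by omega),
        if_neg (by omega), if_neg (by omega), if_neg (by omega), if_neg (by omega)]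
      push_cast at q hq1 hq2
      nlinarith [q, hq1, hq2]
    rcases lt_or_ge b 765 with h6 | h6
    · obtain ⟨q, hq1, hq2⟩ := key 381 764 (by omega) (by omega)
      rw [if_pos (by omega), if_pos (by omega), if_pos (by omega), if_pos (by omega),
        if_pos (by omega), if_neg (by omega), if_neg (by omega), if_neg (by omega)]
      push_cast at q hq1 hq2
      nlinarith [q, hq1, hq2]
    rcases lt_or_ge b 1533 with h7 | h7
    · obtain ⟨q, hq1, hq2⟩ := key 765 1532 (by omega) (by omega)
      rw [if_pos (by omega), if_pos (by omega), if_pos (by omega), if_pos (by omega),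
        if_pos (by omega), if_pos (by omega), if_neg (by omega), if_neg (by omega)]
      push_cast at q hq1 hq2
      nlinarith [q, hq1, hq2]
    rcases lt_or_ge b 3069 with h8 | h8
    · obtain ⟨q, hq1, hq2⟩ := key 1533 3068 (by omega) (by omega)
      rw [if_pos (by omega), if_pos (by omega), if_pos (by omega), if_pos (by omega),
        if_pos (by omega), if_pos (by omega), if_pos (by omega), if_neg (by omega)]
      push_cast at q hq1 hq2
      nlinarith [q, hq1, hq2]
    · obtain ⟨q, hq1, hq2⟩ := key 3069 3999 (by omega) (by omega)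
      rw [if_pos (by omega), if_pos (by omega), if_pos (by omega), if_pos (by omega),
        if_pos (by omega), if_pos (by omega), if_pos (by omega), if_pos (by omega)]
      push_cast at q hq1 hq2
      nlinarith [q, hq1, hq2]

theorem ptw2 (b : ℕ) (hb : 4000 ≤ b) : (163 / 500 : ℝ) * ((b : ℝ) * (b - 1)) ≤ FF b := by
  rw [FF_eq b (by omega)]
  have hb' : (4000 : ℝ) ≤ b := by exact_mod_cast hb
  rw [if_pos (by omega), if_pos (by omega), if_pos (by omega), if_pos (by omega),
    if_pos (by omega), if_pos (by omega), if_pos (by omega), if_pos (by omega)]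
  nlinarith [hb']

theorem lam_nonneg (i : ℕ) : 0 ≤ lam i := by
  unfold lam
  split_ifs
  · norm_num
  · norm_num
  · positivity

theorem lam_sum : ∑ i ∈ range 8, lam i * (rr i : ℝ) ^ 2 ≤ 92 := by
  simp only [sum_range_succ, sum_range_zero, lam, rr]
  norm_num

end H64.BL
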