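import Pool.Agent.H64.BL.NumT
import Pool.Agent.H64.BL.NumF

/-!
MODULE NumM (150 lines): the final computation `0.338 n ≤ m` for `n ≥ 10^6`.

Write `b = |ℓ|`, sums over `L`. Everything in `ℝ` (`2 ≤ b`, `1 ≤ n`, so the natural subtractions
are harmless). Suppose `m < 0.338 n`.

(0) `n (n - 1) + ∑ (b - 2) = ∑ ((b - 2)(b + 1) + b) ≤ 3 n m` (hP, hI, hS); in particular
 `m ≥ (n - 1) / 3`.

(A) Some `ℓ₁` has `n ≤ 40 |ℓ₁|`. Put `β = |ℓ₁|`, `n / 40 ≤ β ≤ m` (hm). `hlong` and (0):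
 `n (n - 1) + β (n - β - m + 1) ≤ 3 n m`. As `β (n - β - m)` is concave in `β`, it is at least the
 minimum of its values at `β = n / 40`: `(n / 40)(39 n / 40 - m) ≥ 0.0159 n²`, and at `β = m`:
 `m (n - 2 m) ≥ 0.1 n²`. (In Lean: `(β - n/40)(m - β) ≥ 0` gives
 `β (n - β - m) ≥ β (n - 2 m - n / 40) + (n / 40) m`, and `n - 2 m - n/40 ≥ 0`, so it is at least
 `(n/40)(n - 2m - n/40) + (n/40) m = (n/40)(39n/40 - m)`.) So `3 n m ≥ 1.0159 n² - n` and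
 `m ≥ 0.33863 n - 1/3`, contradiction.

(B) All lines have `40 |ℓ| < n`, so `|ℓ| ≤ D := n / 40` (natural division). `tail` gives
 `T := ∑_{b ≥ 4000} b (b - 1) ≤ 0.01804 n² + 2 n (n / 40) = 0.06804 n²`.
 Lower bound: `∑ FF b ≥ 0.3392 ∑_{b < 4000} b (b-1) + 0.326 T = 0.3392 n (n - 1) - 0.0132 T`.
 Upper bound: for every `i < 8`, `hcl` with `H = {b ≥ kk i}`, `r = rr i`, divided by 2:
 `∑ (if kk i ≤ b then r² (b - 3 r) else - b (b - 1) / 2) ≤ r² n`, so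
 `∑ FF b ≤ (87/250) n m + (49/250) 2 n m + (13/100) 2 n m + 92 n = n m + 92 n`.
 So `n m ≥ 0.3392 n (n - 1) - 0.0132 * 0.06804 n² - 92 n ≥ 0.3383 n² - 93 n > 0.338 n²` for
 `n ≥ 10^6`.
-/

set_option autoImplicit false

namespace H64.BL

open Finset

variable {ι : Type} [Fintype ι] [DecidableEq ι]

theorem num_main (L : Finset (Finset ι)) (n m : ℕ) (h2 : ∀ ℓ ∈ L, 2 ≤ ℓ.card)
    (hP : ∑ ℓ ∈ L, ℓ.card * (ℓ.card - 1) = n * (n - 1))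
    (hS : ∑ ℓ ∈ L, ℓ.card ≤ n * m)
    (hI : ∑ ℓ ∈ L, (ℓ.card - 2) * (ℓ.card + 1) ≤ 2 * n * m)
    (hJ : ∑ ℓ ∈ L, jj ℓ.card ≤ 2 * n * m)
    (hcl : ∀ H ⊆ L, ∀ r : ℕ, 1 ≤ r → 2 * r ^ 2 * ∑ ℓ ∈ H, ℓ.card ≤ 2 * r ^ 2 * n +
      6 * r ^ 3 * H.card + ∑ ℓ ∈ L \ H, ℓ.card * (ℓ.card - 1))
    (hm : ∀ ℓ ∈ L, ℓ.card ≤ m)
    (hlong : ∀ ℓ₁ ∈ L, (ℓ₁.card : ℤ) * ((n : ℤ) - ℓ₁.card - m + 1) ≤
      ∑ ℓ ∈ L, ((ℓ.card : ℤ) - 2))
    (hn : 10 ^ 6 ≤ n) : (338 / 1000 : ℝ) * n ≤ m := by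
  classical
  have hn' : (10 ^ 6 : ℝ) ≤ (n : ℝ) := by exact_mod_cast hn
  have hn1 : 1 ≤ n := le_trans (by norm_num) hn
  have hn0 : (0 : ℝ) < (n : ℝ) := by linarith [show (0 : ℝ) < 10 ^ 6 by norm_num]
  -- real versions
  have hPr : ∑ ℓ ∈ L, ((ℓ.card : ℝ) * ((ℓ.card : ℝ) - 1)) = (n : ℝ) * ((n : ℝ) - 1) := by
    have h := congrArg (fun t : ℕ => (t : ℝ)) hP
    simp only [Nat.cast_sum, Nat.cast_mul] at h
    rw [Nat.cast_sub hn1, Nat.cast_one] at h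
    rw [← h]
    refine Finset.sum_congr rfl fun ℓ hℓ => ?_
    rw [Nat.cast_sub (le_trans (by norm_num) (h2 ℓ hℓ)), Nat.cast_one]
  have hSr : ∑ ℓ ∈ L, (ℓ.card : ℝ) ≤ (n : ℝ) * m := by
    have h : ((∑ ℓ ∈ L, ℓ.card : ℕ) : ℝ) ≤ ((n * m : ℕ) : ℝ) := Nat.cast_le.mpr hS
    simpa only [Nat.cast_sum, Nat.cast_mul] using h
  have hIr : ∑ ℓ ∈ L, (((ℓ.card : ℝ) - 2) * ((ℓ.card : ℝ) + 1)) ≤ 2 * (n : ℝ) * m := by
    have h : ((∑ ℓ ∈ L, (ℓ.card - 2) * (ℓ.card + 1) : ℕ) : ℝ) ≤ ((2 * n * m : ℕ) : ℝ) :=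
      Nat.cast_le.mpr hI
    simp only [Nat.cast_sum, Nat.cast_mul, Nat.cast_ofNat] at h
    refine le_trans (le_of_eq ?_) h
    refine Finset.sum_congr rfl fun ℓ hℓ => ?_
    rw [Nat.cast_sub (h2 ℓ hℓ)]
    push_cast
    ring
  have hJr : ∑ ℓ ∈ L, (jj ℓ.card : ℝ) ≤ 2 * (n : ℝ) * m := by
    have h : ((∑ ℓ ∈ L, jj ℓ.card : ℕ) : ℝ) ≤ ((2 * n * m : ℕ) : ℝ) := Nat.cast_le.mpr hJ
    simpa only [Nat.cast_sum, Nat.cast_mul, Nat.cast_ofNat] using h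
  -- (0)
  have h0 : (n : ℝ) * ((n : ℝ) - 1) + ∑ ℓ ∈ L, ((ℓ.card : ℝ) - 2) ≤ 3 * n * m := by
    have e : ∑ ℓ ∈ L, ((ℓ.card : ℝ) * ((ℓ.card : ℝ) - 1)) + ∑ ℓ ∈ L, ((ℓ.card : ℝ) - 2) =
        ∑ ℓ ∈ L, (((ℓ.card : ℝ) - 2) * ((ℓ.card : ℝ) + 1)) + ∑ ℓ ∈ L, (ℓ.card : ℝ) := by
      rw [← Finset.sum_add_distrib, ← Finset.sum_add_distrib]
      refine Finset.sum_congr rfl fun ℓ _ => ?_
      ring
    rw [← hPr, e]
    linarith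
  by_contra hcon
  rw [not_le] at hcon
  by_cases hA : ∃ ℓ₁ ∈ L, n ≤ 40 * ℓ₁.card
  · -- (A)
    obtain ⟨ℓ₁, hℓ₁, hb⟩ := hA
    have hl := hlong ℓ₁ hℓ₁
    have hlr : (ℓ₁.card : ℝ) * ((n : ℝ) - ℓ₁.card - m + 1) ≤ ∑ ℓ ∈ L, ((ℓ.card : ℝ) - 2) := by
      have h : (((ℓ₁.card : ℤ) * ((n : ℤ) - ℓ₁.card - m + 1) : ℤ) : ℝ) ≤
          ((∑ ℓ ∈ L, ((ℓ.card : ℤ) - 2) : ℤ) : ℝ) := Int.cast_le.mpr hl
      simpa using h
    have hβm : (ℓ₁.card : ℝ) ≤ m := Nat.cast_le.mpr (hm ℓ₁ hℓ₁)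
    have hβn : (n : ℝ) ≤ 40 * (ℓ₁.card : ℝ) := by exact_mod_cast hb
    generalize hβ : (ℓ₁.card : ℝ) = β at hlr hβm hβn
    have k1 : 0 ≤ (β - (n : ℝ) / 40) * ((m : ℝ) - β) :=
      mul_nonneg (by linarith) (by linarith)
    have k2 : 0 ≤ (β - (n : ℝ) / 40) * ((n : ℝ) - 2 * m - n / 40) :=
      mul_nonneg (by linarith) (by linarith)
    have k3 : (0 : ℝ) ≤ (n : ℝ) * ((338 / 1000 : ℝ) * n - m) :=
      mul_nonneg hn0.le (by linarith)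
    have k4 : (0 : ℝ) ≤ (n : ℝ) * ((n : ℝ) - 10 ^ 6) := mul_nonneg hn0.le (by linarith)
    nlinarith [k1, k2, k3, k4, h0, hlr, hβm, hβn, hn0]
  · -- (B)
    push Not at hA
    have hD : ∀ ℓ ∈ L, ℓ.card ≤ n / 40 := by
      intro ℓ hℓ
      have := hA ℓ hℓ
      omega
    have hT := tail L n (n / 40) hP hcl hD
    have hDr : ((n / 40 : ℕ) : ℝ) ≤ (n : ℝ) / 40 := by
      have := @Nat.cast_div_le ℝ _ _ _ n 40
      simpa using this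
    set T : ℝ := ∑ ℓ ∈ L.filter (fun ℓ => 4000 ≤ ℓ.card),
      ((ℓ.card : ℝ) * ((ℓ.card : ℝ) - 1)) with hTdef
    have hT2 : T ≤ (451 / 25000 : ℝ) * (n : ℝ) ^ 2 + 2 * n * ((n : ℝ) / 40) := by
      have e : T = ((∑ ℓ ∈ L.filter (fun ℓ => 4000 ≤ ℓ.card),
          ℓ.card * (ℓ.card - 1) : ℕ) : ℝ) := by
        simp only [Nat.cast_sum, Nat.cast_mul]
        rw [hTdef]
        refine Finset.sum_congr rfl fun ℓ hℓ => ?_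
        rw [Nat.cast_sub (le_trans (by norm_num) (h2 ℓ (Finset.mem_filter.mp hℓ).1)),
          Nat.cast_one]
      rw [e]
      refine le_trans hT ?_
      have : 2 * (n : ℝ) * ((n / 40 : ℕ) : ℝ) ≤ 2 * n * ((n : ℝ) / 40) :=
        mul_le_mul_of_nonneg_left hDr (by linarith)
      linarith
    have hsplit : T + ∑ ℓ ∈ L.filter (fun ℓ => ¬ 4000 ≤ ℓ.card),
        ((ℓ.card : ℝ) * ((ℓ.card : ℝ) - 1)) = (n : ℝ) * ((n : ℝ) - 1) := by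
      rw [hTdef, Finset.sum_filter_add_sum_filter_not, hPr]
    -- lower bound
    have hlow : (212 / 625 : ℝ) * ((n : ℝ) * ((n : ℝ) - 1)) - (132 / 10000 : ℝ) * T ≤
        ∑ ℓ ∈ L, FF ℓ.card := by
      have h1 : (163 / 500 : ℝ) * T ≤ ∑ ℓ ∈ L.filter (fun ℓ => 4000 ≤ ℓ.card), FF ℓ.card := by
        rw [hTdef, Finset.mul_sum]
        exact Finset.sum_le_sum fun ℓ hℓ => ptw2 _ (Finset.mem_filter.mp hℓ).2
      have h3 : (212 / 625 : ℝ) * ∑ ℓ ∈ L.filter (fun ℓ => ¬ 4000 ≤ ℓ.card),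
          ((ℓ.card : ℝ) * ((ℓ.card : ℝ) - 1)) ≤
          ∑ ℓ ∈ L.filter (fun ℓ => ¬ 4000 ≤ ℓ.card), FF ℓ.card := by
        rw [Finset.mul_sum]
        exact Finset.sum_le_sum fun ℓ hℓ =>
          ptw1 _ (h2 ℓ (Finset.mem_filter.mp hℓ).1) (not_le.mp (Finset.mem_filter.mp hℓ).2)
      rw [← Finset.sum_filter_add_sum_filter_not L (fun ℓ => 4000 ≤ ℓ.card)]
      linarith
    -- upper bound
    have hcl' : ∀ i : ℕ, ∑ ℓ ∈ L, (if kk i ≤ ℓ.card then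
        (rr i : ℝ) ^ 2 * ((ℓ.card : ℝ) - 3 * rr i) else
        -((ℓ.card : ℝ) * ((ℓ.card : ℝ) - 1) / 2)) ≤ (rr i : ℝ) ^ 2 * n := by
      intro i
      have hr : 1 ≤ rr i := by
        unfold rr
        have : 1 ≤ 2 ^ i := Nat.one_le_two_pow
        omega
      have h := hcl (L.filter (fun ℓ => kk i ≤ ℓ.card)) (Finset.filter_subset _ _) (rr i) hr
      rw [← Finset.filter_not] at h
      have hr' : ((2 * rr i ^ 2 * ∑ ℓ ∈ L.filter (fun ℓ => kk i ≤ ℓ.card), ℓ.card : ℕ) : ℝ) ≤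
          ((2 * rr i ^ 2 * n + 6 * rr i ^ 3 * (L.filter (fun ℓ => kk i ≤ ℓ.card)).card +
            ∑ ℓ ∈ L.filter (fun ℓ => ¬ kk i ≤ ℓ.card), ℓ.card * (ℓ.card - 1) : ℕ) : ℝ) :=
        Nat.cast_le.mpr h
      have e1 : ((∑ ℓ ∈ L.filter (fun ℓ => ¬ kk i ≤ ℓ.card), ℓ.card * (ℓ.card - 1) : ℕ) : ℝ) =
          ∑ ℓ ∈ L.filter (fun ℓ => ¬ kk i ≤ ℓ.card),
            ((ℓ.card : ℝ) * ((ℓ.card : ℝ) - 1)) := by
        simp only [Nat.cast_sum, Nat.cast_mul]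
        refine Finset.sum_congr rfl fun ℓ hℓ => ?_
        rw [Nat.cast_sub (le_trans (by norm_num) (h2 ℓ (Finset.mem_filter.mp hℓ).1)),
          Nat.cast_one]
      rw [Nat.cast_add, e1] at hr'
      simp only [Nat.cast_add, Nat.cast_mul, Nat.cast_pow, Nat.cast_ofNat, Nat.cast_sum] at hr'
      rw [← Finset.sum_filter_add_sum_filter_not L (fun ℓ => kk i ≤ ℓ.card)]
      have e2 : ∑ ℓ ∈ L.filter (fun ℓ => kk i ≤ ℓ.card), (if kk i ≤ ℓ.card then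
          (rr i : ℝ) ^ 2 * ((ℓ.card : ℝ) - 3 * rr i) else
          -((ℓ.card : ℝ) * ((ℓ.card : ℝ) - 1) / 2)) =
          (rr i : ℝ) ^ 2 * ∑ ℓ ∈ L.filter (fun ℓ => kk i ≤ ℓ.card), (ℓ.card : ℝ) -
            3 * (rr i : ℝ) ^ 3 * ((L.filter (fun ℓ => kk i ≤ ℓ.card)).card : ℝ) := by
        rw [Finset.mul_sum, Finset.card_eq_sum_ones, Nat.cast_sum, Finset.mul_sum,
          ← Finset.sum_sub_distrib]
        refine Finset.sum_congr rfl fun ℓ hℓ => ?_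
        rw [if_pos (Finset.mem_filter.mp hℓ).2]
        push_cast
        ring
      have e3 : ∑ ℓ ∈ L.filter (fun ℓ => ¬ kk i ≤ ℓ.card), (if kk i ≤ ℓ.card then
          (rr i : ℝ) ^ 2 * ((ℓ.card : ℝ) - 3 * rr i) else
          -((ℓ.card : ℝ) * ((ℓ.card : ℝ) - 1) / 2)) =
          -(1 / 2) * ∑ ℓ ∈ L.filter (fun ℓ => ¬ kk i ≤ ℓ.card),
            ((ℓ.card : ℝ) * ((ℓ.card : ℝ) - 1)) := by
        rw [Finset.mul_sum]
        refine Finset.sum_congr rfl fun ℓ hℓ => ?_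
        rw [if_neg (Finset.mem_filter.mp hℓ).2]
        ring
      rw [e2, e3]
      linarith
    have hup : ∑ ℓ ∈ L, FF ℓ.card ≤ (n : ℝ) * m + 92 * n := by
      have e : ∑ ℓ ∈ L, FF ℓ.card = (87 / 250) * ∑ ℓ ∈ L, (ℓ.card : ℝ) +
          (49 / 250) * ∑ ℓ ∈ L, (((ℓ.card : ℝ) - 2) * ((ℓ.card : ℝ) + 1)) +
          (13 / 100) * ∑ ℓ ∈ L, (jj ℓ.card : ℝ) +
          ∑ i ∈ range 8, lam i * ∑ ℓ ∈ L, (if kk i ≤ ℓ.card then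
            (rr i : ℝ) ^ 2 * ((ℓ.card : ℝ) - 3 * rr i) else
            -((ℓ.card : ℝ) * ((ℓ.card : ℝ) - 1) / 2)) := by
        simp only [FF, Finset.sum_add_distrib, Finset.mul_sum]
        congr 1
        exact Finset.sum_comm
      have h4 : ∑ i ∈ range 8, lam i * ∑ ℓ ∈ L, (if kk i ≤ ℓ.card then
            (rr i : ℝ) ^ 2 * ((ℓ.card : ℝ) - 3 * rr i) else
            -((ℓ.card : ℝ) * ((ℓ.card : ℝ) - 1) / 2)) ≤ 92 * n := by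
        calc _ ≤ ∑ i ∈ range 8, lam i * ((rr i : ℝ) ^ 2 * n) :=
              Finset.sum_le_sum fun i _ => mul_le_mul_of_nonneg_left (hcl' i) (lam_nonneg i)
          _ = (∑ i ∈ range 8, lam i * (rr i : ℝ) ^ 2) * n := by
              rw [Finset.sum_mul]
              exact Finset.sum_congr rfl fun i _ => by ring
          _ ≤ 92 * n := mul_le_mul_of_nonneg_right lam_sum hn0.le
      rw [e]
      linarith
    have k3 : (0 : ℝ) < (n : ℝ) * ((338 / 1000 : ℝ) * n - m) :=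
      mul_pos hn0 (by linarith)
    have k4 : (0 : ℝ) ≤ (n : ℝ) * ((n : ℝ) - 10 ^ 6) := mul_nonneg hn0.le (by linarith)
    nlinarith [k3, k4, hlow, hup, hT2, hn0]

end H64.BL
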