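import Pool.Agent.H64.BL.ZLine

/-!
MODULE ZW (100 lines): the weights of the points with the same extreme line.

`G` is a set of points `g` that have another point on their vertical line.
Claim `weight_le`: for every line `ℓ`: `∑_{g ∈ G, e g = ℓ} (if Mid c g then 2 else 1) ≤ 2`.

`single`: if `Mid c g`, `e g = ℓ = e g'` then `g' = g`. Proof: otherwise `x g' ≠ x g` (`xne`). If
`x g < x g'`: the point above `g` on its vertical is strictly left of the extreme point `g'` of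
`ℓ ∋ g` and strictly above `g`, contradiction to `left_pt`. If `x g' < x g`: the point below `g`
contradicts `right_pt`.
`pairs`: if `e g₁ = e g₂ = e g₃ = ℓ` and `x g₁ < x g₂ < x g₃` then every `h` with `x h = x g₂` is
`g₂`: `y h ≤ y g₂` (`left_pt` with `g₀ = g₃`) and `y g₂ ≤ y h` (`right_pt` with `g₀ = g₁`), `inj`.
`weight_le`: if some `g ∈ G` with `e g = ℓ` is `Mid`, it is the only one (`single`) and the sum is
`2`. Otherwise all weights are `1` and there are at most two such points: three of them would have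
different abscissas (`xne`), the middle one contradicts `pairs` and `hG`.
-/

set_option autoImplicit false

namespace H64.BL

open Finset

variable {ι : Type} [Fintype ι] [DecidableEq ι] {S : LinSp ι}

theorem single (c : Chart S) (e : ι → Finset ι) (he : ∀ g, e g ∈ S.L ∧ Ext c g (e g))
    (g g' : ι) (hm : Mid c g) (h : e g' = e g) : g' = g := by
  by_contra hne
  obtain ⟨hℓ, hE⟩ := he g
  obtain ⟨_, hE'⟩ := he g'
  rw [h] at hE'
  obtain ⟨hg, ⟨k, hk, hkx⟩, _⟩ := id hE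
  have hg' : g' ∈ e g := hE'.1
  obtain ⟨⟨h₁, hx₁, hy₁⟩, ⟨h₂, hx₂, hy₂⟩⟩ := hm
  have hx : c.x g' ≠ c.x g := xne c (e g) hℓ g k g' g hg hk hkx hg' hg hne
  rcases lt_or_gt_of_ne hx with hlt | hlt
  · have := right_pt c (e g) hℓ g' g h₁ hE' hg (by rw [hx₁]; exact hlt) hx₁
    exact absurd hy₁ (not_lt.mpr this)
  · have := left_pt c (e g) hℓ g' g h₂ hE' hg (by rw [hx₂]; exact hlt) hx₂
    exact absurd hy₂ (not_lt.mpr this)

theorem pairs (c : Chart S) (e : ι → Finset ι) (he : ∀ g, e g ∈ S.L ∧ Ext c g (e g))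
    (g₁ g₂ g₃ : ι) (h1 : e g₁ = e g₂) (h3 : e g₃ = e g₂) (h12 : c.x g₁ < c.x g₂)
    (h23 : c.x g₂ < c.x g₃) (h : ι) (hx : c.x h = c.x g₂) : h = g₂ := by
  obtain ⟨hℓ, hE⟩ := he g₂
  have hE1 := (he g₁).2
  have hE3 := (he g₃).2
  rw [h1] at hE1
  rw [h3] at hE3
  have ha := left_pt c (e g₂) hℓ g₃ g₂ h hE3 hE.1 (by rw [hx]; exact h23) hx
  have hb := right_pt c (e g₂) hℓ g₁ g₂ h hE1 hE.1 (by rw [hx]; exact h12) hx
  exact c.inj h g₂ hx (le_antisymm ha hb)

open Classical in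
theorem weight_le (c : Chart S) (e : ι → Finset ι) (he : ∀ g, e g ∈ S.L ∧ Ext c g (e g))
    (G : Finset ι) (hG : ∀ g ∈ G, ∃ h, h ≠ g ∧ c.x h = c.x g) (ℓ : Finset ι) :
    ∑ g ∈ G.filter (fun g => e g = ℓ), (if Mid c g then 2 else 1) ≤ 2 := by
  by_cases hM : ∃ g ∈ G, e g = ℓ ∧ Mid c g
  · obtain ⟨g, _, hgl, hm⟩ := hM
    have hsub : G.filter (fun g => e g = ℓ) ⊆ {g} := by
      intro g' hg'
      rw [mem_filter] at hg'
      rw [mem_singleton]
      exact single c e he g g' hm (hg'.2.trans hgl.symm)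
    refine (sum_le_sum_of_subset hsub).trans ?_
    rw [sum_singleton, if_pos hm]
  · have hc : ∑ g ∈ G.filter (fun g => e g = ℓ), (if Mid c g then 2 else 1) =
        (G.filter (fun g => e g = ℓ)).card := by
      rw [card_eq_sum_ones]
      refine sum_congr rfl fun g hg => ?_
      rw [mem_filter] at hg
      rw [if_neg fun hm => hM ⟨g, hg.1, hg.2, hm⟩]
    rw [hc]
    by_contra hcon
    push Not at hcon
    obtain ⟨p, q, r, hp, hq, hr, hpq, hpr, hqr⟩ := two_lt_card_iff.mp hcon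
    rw [mem_filter] at hp hq hr
    have key : ∀ g₁ g₂ g₃ : ι, (g₁ ∈ G ∧ e g₁ = ℓ) → (g₂ ∈ G ∧ e g₂ = ℓ) →
        (g₃ ∈ G ∧ e g₃ = ℓ) → c.x g₁ < c.x g₂ → c.x g₂ < c.x g₃ → False := by
      intro g₁ g₂ g₃ h1 h2 h3 h12 h23
      obtain ⟨h, hne, hx⟩ := hG g₂ h2.1
      exact hne (pairs c e he g₁ g₂ g₃ (h1.2.trans h2.2.symm) (h3.2.trans h2.2.symm) h12 h23 h hx)
    have hx : ∀ a b : ι, (a ∈ G ∧ e a = ℓ) → (b ∈ G ∧ e b = ℓ) → a ≠ b → c.x a ≠ c.x b := by
      intro a b ha hb hab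
      obtain ⟨hℓ, hE⟩ := he a
      obtain ⟨hg, ⟨k, hk, hkx⟩, _⟩ := id hE
      have hb' : b ∈ e a := by
        have := (he b).2.1
        rw [hb.2, ← ha.2] at this
        exact this
      exact xne c (e a) hℓ a k a b hg hk hkx hg hb' hab
    rcases lt_or_gt_of_ne (hx p q hp hq hpq) with h1 | h1 <;>
    rcases lt_or_gt_of_ne (hx p r hp hr hpr) with h2 | h2 <;>
    rcases lt_or_gt_of_ne (hx q r hq hr hqr) with h3 | h3
    · exact key p q r hp hq hr h1 h3
    · exact key p r q hp hr hq h2 h3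
    · exact lt_irrefl _ ((h1.trans h3).trans h2)
    · exact key r p q hr hp hq h2 h1
    · exact key q p r hq hp hr h1 h2
    · exact lt_irrefl _ ((h2.trans h3).trans h1)
    · exact key q r p hq hr hp h3 h2
    · exact key r q p hr hq hp h3 h1

end H64.BL
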