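import Pool.Agent.H64.BL.ZCh
import Pool.Agent.H64.BL.ZW

/-!
MODULE Zone (110 lines): the zone inequality for one red point and one side.

Let `C = univ.image e` be the set of the critical lines.
(1) Sum `ch_count` over `ℓ ∈ C`: `∑_{ℓ ∈ C} |ℓ| + n ≤ ∑_{ℓ ∈ C} (#A ℓ + #B ℓ) + 2 |C|`, where
 `∑_{ℓ ∈ C} |{g | e g = ℓ}| = n` (`card_eq_sum_card_image`), `#A ℓ = |{g | ChA g ℓ}|`.
(2) `∑_{ℓ ∈ C} #A ℓ ≤ |{g | ∃ ℓ, ChA g ℓ}|` (`chA_unique`: the sets are disjoint), same for `B`.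
 The two sets together have at most `2 n - |{g | Mid g, |e g| = 2}|` elements (`mid_card`:
 such a `g` is missing in one of them).
 So `∑_{ℓ ∈ C} (|ℓ| - 2) + |M| ≤ n`, `M = {g | Mid c g ∧ |e g| = 2}` (natural subtraction is
 harmless: `2 ≤ |ℓ|`).
(3) `∑_{g ∈ G} w g (|e g| - 2) = ∑_{ℓ ∈ C} (|ℓ| - 2) ∑_{g ∈ G, e g = ℓ} w g ≤ ∑_{ℓ ∈ C} 2 (|ℓ| - 2)`
 (`weight_le`), `w g = if Mid c g then 2 else 1`.
(4) Add: `∑_{g ∈ G} w g (|e g| - 2) + 2 |{g ∈ G | Mid, |e g| = 2}| ≤ 2 n`.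
-/

set_option autoImplicit false

namespace H64.BL

open Finset

variable {ι : Type} [Fintype ι] [DecidableEq ι] {S : LinSp ι}

open Classical in
theorem zone (c : Chart S) (e : ι → Finset ι) (he : ∀ g, e g ∈ S.L ∧ Ext c g (e g))
    (G : Finset ι) (hG : ∀ g ∈ G, ∃ h, h ≠ g ∧ c.x h = c.x g) :
    ∑ g ∈ G, ((if Mid c g then 2 else 1) * ((e g).card - 2) +
      (if Mid c g ∧ (e g).card = 2 then 2 else 0)) ≤ 2 * Fintype.card ι := by
  set C : Finset (Finset ι) := univ.image e with hC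
  set M : Finset ι := univ.filter (fun g => Mid c g ∧ (e g).card = 2) with hM
  set SA : Finset ι := univ.filter (fun g => ∃ ℓ, ChA c e g ℓ) with hSA
  set SB : Finset ι := univ.filter (fun g => ∃ ℓ, ChB c e g ℓ) with hSB
  have hC2 : ∀ ℓ ∈ C, 2 ≤ ℓ.card := by
    intro ℓ hℓ
    obtain ⟨g, _, rfl⟩ := Finset.mem_image.mp hℓ
    exact S.two _ (he g).1
  -- (1)
  have h1 : ∑ ℓ ∈ C, ℓ.card + Fintype.card ι ≤
      ∑ ℓ ∈ C, (univ.filter (fun g => ChA c e g ℓ)).card +
        ∑ ℓ ∈ C, (univ.filter (fun g => ChB c e g ℓ)).card + 2 * C.card := by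
    have hn : Fintype.card ι = ∑ ℓ ∈ C, (univ.filter (fun g => e g = ℓ)).card := by
      rw [← Finset.card_univ]
      exact Finset.card_eq_sum_card_fiberwise (fun g _ => Finset.mem_image_of_mem e (mem_univ g))
    have h2 : 2 * C.card = ∑ ℓ ∈ C, 2 := by
      rw [Finset.sum_const, smul_eq_mul, mul_comm]
    rw [hn, h2, ← Finset.sum_add_distrib, ← Finset.sum_add_distrib, ← Finset.sum_add_distrib]
    refine Finset.sum_le_sum fun ℓ hℓ => ?_
    obtain ⟨g, _, hg⟩ := Finset.mem_image.mp hℓ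
    exact ch_count c e he ℓ ⟨g, hg⟩
  -- (2)
  have hA : ∑ ℓ ∈ C, (univ.filter (fun g => ChA c e g ℓ)).card ≤ SA.card := by
    rw [← Finset.card_biUnion]
    · refine Finset.card_le_card ?_
      intro g hg
      obtain ⟨ℓ, _, hgl⟩ := Finset.mem_biUnion.mp hg
      exact Finset.mem_filter.mpr ⟨mem_univ g, ℓ, (Finset.mem_filter.mp hgl).2⟩
    · intro ℓ _ ℓ' _ hne
      rw [Function.onFun, Finset.disjoint_left]
      intro g hg hg'
      exact hne (chA_unique c e he g ℓ ℓ' (Finset.mem_filter.mp hg).2 (Finset.mem_filter.mp hg').2)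
  have hB : ∑ ℓ ∈ C, (univ.filter (fun g => ChB c e g ℓ)).card ≤ SB.card := by
    rw [← Finset.card_biUnion]
    · refine Finset.card_le_card ?_
      intro g hg
      obtain ⟨ℓ, _, hgl⟩ := Finset.mem_biUnion.mp hg
      exact Finset.mem_filter.mpr ⟨mem_univ g, ℓ, (Finset.mem_filter.mp hgl).2⟩
    · intro ℓ _ ℓ' _ hne
      rw [Function.onFun, Finset.disjoint_left]
      intro g hg hg'
      exact hne (chB_unique c e he g ℓ ℓ' (Finset.mem_filter.mp hg).2 (Finset.mem_filter.mp hg').2)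
  have hAB : SA.card + SB.card + M.card ≤ 2 * Fintype.card ι := by
    have h3 : (SA ∪ SB).card + (SA ∩ SB).card = SA.card + SB.card :=
      Finset.card_union_add_card_inter SA SB
    have h4 : (SA ∪ SB).card ≤ Fintype.card ι := Finset.card_le_univ _
    have h5 : (SA ∩ SB).card + M.card ≤ Fintype.card ι := by
      rw [← Finset.card_union_of_disjoint]
      · exact Finset.card_le_univ _
      · rw [Finset.disjoint_left]
        intro g hg hgM
        have hgA := (Finset.mem_filter.mp (Finset.mem_inter.mp hg).1).2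
        have hgB := (Finset.mem_filter.mp (Finset.mem_inter.mp hg).2).2
        have hgM' := (Finset.mem_filter.mp hgM).2
        exact mid_card c e he g hgM'.1 hgM'.2 ⟨hgA, hgB⟩
    omega
  have h6 : ∑ ℓ ∈ C, (ℓ.card - 2) + M.card ≤ Fintype.card ι := by
    have h7 : ∑ ℓ ∈ C, (ℓ.card - 2) + 2 * C.card = ∑ ℓ ∈ C, ℓ.card := by
      have h2 : 2 * C.card = ∑ ℓ ∈ C, 2 := by
        rw [Finset.sum_const, smul_eq_mul, mul_comm]
      rw [h2, ← Finset.sum_add_distrib]
      refine Finset.sum_congr rfl fun ℓ hℓ => ?_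
      have := hC2 ℓ hℓ
      omega
    omega
  -- (3)
  have h8 : ∑ g ∈ G, (if Mid c g then 2 else 1) * ((e g).card - 2) ≤
      2 * ∑ ℓ ∈ C, (ℓ.card - 2) := by
    rw [← Finset.sum_fiberwise_of_maps_to (g := e) (t := C)
      (fun g _ => Finset.mem_image_of_mem e (mem_univ g)), Finset.mul_sum]
    refine Finset.sum_le_sum fun ℓ _ => ?_
    have h9 : ∑ g ∈ G.filter (fun g => e g = ℓ), (if Mid c g then 2 else 1) * ((e g).card - 2) =
        (∑ g ∈ G.filter (fun g => e g = ℓ), (if Mid c g then 2 else 1)) * (ℓ.card - 2) := by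
      rw [Finset.sum_mul]
      refine Finset.sum_congr rfl fun g hg => ?_
      rw [(Finset.mem_filter.mp hg).2]
    rw [h9]
    exact Nat.mul_le_mul_right _ (weight_le c e he G hG ℓ)
  have h10 : ∑ g ∈ G, (if Mid c g ∧ (e g).card = 2 then 2 else 0) ≤ 2 * M.card := by
    rw [← Finset.sum_filter, Finset.sum_const, smul_eq_mul, mul_comm]
    refine Nat.mul_le_mul_left _ (Finset.card_le_card ?_)
    intro g hg
    exact Finset.mem_filter.mpr ⟨mem_univ g, (Finset.mem_filter.mp hg).2⟩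
  rw [Finset.sum_add_distrib]
  omega

end H64.BL
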