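import Pool.Agent.H64.BL.SmA
import Pool.Agent.H64.BL.Zone

/-!
MODULE SmC (90 lines): the zone inequality summed over the red points and the two sides.

For `ρ : κ`, `ε : Bool` apply `zone` to the chart `(ch ρ).sg ε` and
`G ρ = {g | ∃ w ∈ L, g ∈ w ∧ r w = ρ}` (`hG`: `w` has another point `h`, and `x h = x g` in the chart
of `ρ = r w`). The terms: `t ρ ε g`. Then
`∑_{w ∈ L} ∑_{g ∈ w} t (r w) ε g = ∑_ρ ∑_{g ∈ G ρ} t ρ ε g`:
`∑_{w ∈ L} = ∑_ρ ∑_{w ∈ L, r w = ρ}` (`sum_fiberwise`), and for fixed `ρ` the sets `w` with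
`r w = ρ` are pairwise disjoint (`rinj`) with union `G ρ` (`sum_biUnion`).
So the sum is at most `∑_ρ ∑_ε 2 n = 4 n m`, `m = Fintype.card κ`.
-/

set_option autoImplicit false

namespace H64.BL

open Finset

variable {ι κ : Type} [Fintype ι] [DecidableEq ι] [Fintype κ] [DecidableEq κ]

open Classical in
theorem Sys.total (A : Sys ι κ) (e : κ → Bool → ι → Finset ι)
    (he : ∀ ρ ε g, e ρ ε g ∈ A.S.L ∧ Ext ((A.ch ρ).sg ε) g (e ρ ε g)) :
    ∑ w ∈ A.S.L, ∑ g ∈ w, ∑ ε : Bool,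
      ((if Mid ((A.ch (A.r w)).sg ε) g then 2 else 1) * ((e (A.r w) ε g).card - 2) +
        (if Mid ((A.ch (A.r w)).sg ε) g ∧ (e (A.r w) ε g).card = 2 then 2 else 0)) ≤
      4 * Fintype.card ι * Fintype.card κ := by
  obtain ⟨t, ht⟩ : ∃ t : κ → Bool → ι → ℕ, ∀ ρ ε g, t ρ ε g =
      ((if Mid ((A.ch ρ).sg ε) g then 2 else 1) * ((e ρ ε g).card - 2) +
        (if Mid ((A.ch ρ).sg ε) g ∧ (e ρ ε g).card = 2 then 2 else 0)) :=
    ⟨_, fun _ _ _ => rfl⟩
  have h0 : ∑ w ∈ A.S.L, ∑ g ∈ w, ∑ ε : Bool,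
      ((if Mid ((A.ch (A.r w)).sg ε) g then 2 else 1) * ((e (A.r w) ε g).card - 2) +
        (if Mid ((A.ch (A.r w)).sg ε) g ∧ (e (A.r w) ε g).card = 2 then 2 else 0)) =
      ∑ ρ : κ, ∑ ε : Bool,
        ∑ g ∈ (A.S.L.filter (fun w => A.r w = ρ)).biUnion id, t ρ ε g := by
    rw [← Finset.sum_fiberwise A.S.L A.r]
    refine Finset.sum_congr rfl fun ρ _ => ?_
    have h1 : ∀ ε : Bool, ∑ g ∈ (A.S.L.filter (fun w => A.r w = ρ)).biUnion id, t ρ ε g =
        ∑ w ∈ A.S.L.filter (fun w => A.r w = ρ), ∑ g ∈ w, t ρ ε g := by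
      intro ε
      rw [Finset.sum_biUnion]
      · rfl
      · intro w hw w' hw' hne
        have hw1 := Finset.mem_filter.mp (Finset.mem_coe.mp hw)
        have hw2 := Finset.mem_filter.mp (Finset.mem_coe.mp hw')
        rw [Function.onFun, Finset.disjoint_left]
        intro g hg hg'
        exact hne (A.rinj w w' hw1.1 hw2.1 g hg hg' (hw1.2.trans hw2.2.symm))
    simp only [h1]
    rw [Finset.sum_comm]
    refine Finset.sum_congr rfl fun w hw => ?_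
    rw [Finset.sum_comm]
    refine Finset.sum_congr rfl fun ε _ => ?_
    refine Finset.sum_congr rfl fun g _ => ?_
    rw [ht, (Finset.mem_filter.mp hw).2]
  have h2 : ∀ ρ ε, ∑ g ∈ (A.S.L.filter (fun w => A.r w = ρ)).biUnion id, t ρ ε g ≤
      2 * Fintype.card ι := by
    intro ρ ε
    simp only [ht]
    refine zone ((A.ch ρ).sg ε) (e ρ ε) (he ρ ε) _ ?_
    intro g hg
    obtain ⟨w, hw, hgw⟩ := Finset.mem_biUnion.mp hg
    have hw1 := Finset.mem_filter.mp hw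
    obtain ⟨h, hh, hne⟩ := Finset.exists_mem_ne (A.S.two w hw1.1) g
    refine ⟨h, hne, ?_⟩
    rw [sg_x, ← hw1.2]
    exact (A.vx w hw1.1 g hgw h).mp hh
  rw [h0]
  calc ∑ ρ : κ, ∑ ε : Bool, ∑ g ∈ (A.S.L.filter (fun w => A.r w = ρ)).biUnion id, t ρ ε g
      ≤ ∑ _ρ : κ, ∑ _ε : Bool, 2 * Fintype.card ι :=
        Finset.sum_le_sum fun ρ _ => Finset.sum_le_sum fun ε _ => h2 ρ ε
    _ = 4 * Fintype.card ι * Fintype.card κ := by
        simp only [Finset.sum_const, Finset.card_univ, Fintype.card_bool, smul_eq_mul]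
        ring

end H64.BL
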