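import Pool.Agent.H64.BL.SmB
import Pool.Agent.H64.BL.SmC

/-!
MODULE SmD (130 lines): the two main inequalities
(I+) `∑_{ℓ ∈ L} (|ℓ| - 2)(|ℓ| + 1) ≤ 2 n m`,
(J)  `∑_{ℓ ∈ L} jj |ℓ| ≤ 2 n m` (`jj 3 = 2`, `jj b = b² - 4` otherwise).

Choose `e ρ ε g` by `ext_exists` (needs `2 ≤ card ι`). Write `b = |e (r w) ε g| ≥ 2`. Each term of
`Sys.total` is `(b - 2) + [Mid] ((b - 2) + 2 [b = 2])`, so it is at least
 (i) `(b - 2) + [Mid]`, and
 (ii) `(b - 2) + 2 [Mid] - [b = 3]`, that is `term + [b = 3] ≥ (b - 2) + 2 [Mid]`.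
By `twice`: `∑ (b - 2) = ∑_ℓ 2 |ℓ| (|ℓ| - 2)` and `∑ [b = 3] = ∑_ℓ 2 |ℓ| [|ℓ| = 3]`.
By `mid_count`: `∑ [Mid] ≥ ∑_w 2 (|w| - 2)`.
(I+): `∑_ℓ (2 |ℓ| (|ℓ| - 2) + 2 (|ℓ| - 2)) ≤ 4 n m`; divide by 2.
(J): `∑_ℓ (2 |ℓ| (|ℓ| - 2) + 4 (|ℓ| - 2)) ≤ 4 n m + ∑_ℓ 6 [|ℓ| = 3]`; divide by 2; for `|ℓ| = 3`:
 `3 + 2 - 3 = 2`, otherwise `b (b - 2) + 2 (b - 2) = b² - 4`.
(`obtain ⟨d, rfl⟩ : ∃ d, b = d + 2` removes the natural subtractions.)
-/

set_option autoImplicit false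

namespace H64.BL

open Finset

variable {ι κ : Type} [Fintype ι] [DecidableEq ι] [Fintype κ] [DecidableEq κ]

open Classical in
private theorem mid_sum (A : Sys ι κ) :
    ∑ w ∈ A.S.L, 2 * (w.card - 2) ≤ ∑ w ∈ A.S.L, ∑ g ∈ w, ∑ ε : Bool,
      (if Mid ((A.ch (A.r w)).sg ε) g then 1 else 0) := by
  refine sum_le_sum fun w hw => ?_
  rw [sum_comm]
  have h : ∀ ε : Bool, w.card - 2 ≤
      ∑ g ∈ w, (if Mid ((A.ch (A.r w)).sg ε) g then 1 else 0) := by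
    intro ε
    have := A.mid_count w hw ε
    rw [card_filter] at this
    omega
  have h2 := sum_le_sum (s := (univ : Finset Bool)) (fun ε _ => h ε)
  simpa using h2

theorem Sys.ineqI (A : Sys ι κ) (hn : 2 ≤ Fintype.card ι) :
    ∑ ℓ ∈ A.S.L, (ℓ.card - 2) * (ℓ.card + 1) ≤ 2 * Fintype.card ι * Fintype.card κ := by
  classical
  choose e he using fun (ρ : κ) (ε : Bool) (g : ι) => ext_exists ((A.ch ρ).sg ε) hn g
  have T := A.total e he
  have W := A.twice e he (fun b => b - 2)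
  have M := mid_sum A
  have P : ∑ w ∈ A.S.L, ∑ g ∈ w, ∑ ε : Bool, ((e (A.r w) ε g).card - 2) +
      ∑ w ∈ A.S.L, ∑ g ∈ w, ∑ ε : Bool, (if Mid ((A.ch (A.r w)).sg ε) g then 1 else 0) ≤
      ∑ w ∈ A.S.L, ∑ g ∈ w, ∑ ε : Bool,
      ((if Mid ((A.ch (A.r w)).sg ε) g then 2 else 1) * ((e (A.r w) ε g).card - 2) +
        (if Mid ((A.ch (A.r w)).sg ε) g ∧ (e (A.r w) ε g).card = 2 then 2 else 0)) := by
    simp only [← sum_add_distrib]
    refine sum_le_sum fun w _ => sum_le_sum fun g _ => sum_le_sum fun ε _ => ?_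
    have h2 := A.S.two _ (he (A.r w) ε g).1
    obtain ⟨d, hd⟩ : ∃ d, (e (A.r w) ε g).card = d + 2 := ⟨_, (Nat.sub_add_cancel h2).symm⟩
    rw [hd]
    by_cases hm : Mid ((A.ch (A.r w)).sg ε) g
    · by_cases h0 : d = 0
      · subst h0; simp [hm]
      · have : ¬ (d + 2 = 2) := by omega
        simp only [hm, this, and_false, if_true, if_false, Nat.add_sub_cancel]
        omega
    · simp [hm]
  have E : 2 * ∑ ℓ ∈ A.S.L, (ℓ.card - 2) * (ℓ.card + 1) =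
      ∑ ℓ ∈ A.S.L, 2 * ℓ.card * (ℓ.card - 2) + ∑ ℓ ∈ A.S.L, 2 * (ℓ.card - 2) := by
    rw [mul_sum, ← sum_add_distrib]
    refine sum_congr rfl fun ℓ _ => by ring
  have F : 4 * Fintype.card ι * Fintype.card κ = 2 * (2 * Fintype.card ι * Fintype.card κ) := by
    ring
  omega

theorem Sys.ineqJ (A : Sys ι κ) (hn : 2 ≤ Fintype.card ι) :
    ∑ ℓ ∈ A.S.L, jj ℓ.card ≤ 2 * Fintype.card ι * Fintype.card κ := by
  classical
  choose e he using fun (ρ : κ) (ε : Bool) (g : ι) => ext_exists ((A.ch ρ).sg ε) hn g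
  have T := A.total e he
  have W := A.twice e he (fun b => b - 2)
  have W3 := A.twice e he (fun b => if b = 3 then 1 else 0)
  have M := mid_sum A
  have P : ∑ w ∈ A.S.L, ∑ g ∈ w, ∑ ε : Bool, ((e (A.r w) ε g).card - 2) +
      2 * ∑ w ∈ A.S.L, ∑ g ∈ w, ∑ ε : Bool, (if Mid ((A.ch (A.r w)).sg ε) g then 1 else 0) ≤
      ∑ w ∈ A.S.L, ∑ g ∈ w, ∑ ε : Bool,
      ((if Mid ((A.ch (A.r w)).sg ε) g then 2 else 1) * ((e (A.r w) ε g).card - 2) +
        (if Mid ((A.ch (A.r w)).sg ε) g ∧ (e (A.r w) ε g).card = 2 then 2 else 0)) +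
      ∑ w ∈ A.S.L, ∑ g ∈ w, ∑ ε : Bool, (if (e (A.r w) ε g).card = 3 then 1 else 0) := by
    simp only [mul_sum, ← sum_add_distrib]
    refine sum_le_sum fun w _ => sum_le_sum fun g _ => sum_le_sum fun ε _ => ?_
    have h2 := A.S.two _ (he (A.r w) ε g).1
    obtain ⟨d, hd⟩ : ∃ d, (e (A.r w) ε g).card = d + 2 := ⟨_, (Nat.sub_add_cancel h2).symm⟩
    rw [hd]
    by_cases hm : Mid ((A.ch (A.r w)).sg ε) g
    · by_cases h0 : d = 0
      · subst h0; simp [hm]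
      · by_cases h1 : d = 1
        · subst h1; simp [hm]
        · have e1 : ¬ (d + 2 = 2) := by omega
          have e2 : ¬ (d + 2 = 3) := by omega
          simp only [hm, e1, e2, and_false, if_true, if_false, Nat.add_sub_cancel]
          omega
    · simp [hm]
  have E : 2 * ∑ ℓ ∈ A.S.L, jj ℓ.card +
      ∑ ℓ ∈ A.S.L, 2 * ℓ.card * (if ℓ.card = 3 then 1 else 0) =
      ∑ ℓ ∈ A.S.L, 2 * ℓ.card * (ℓ.card - 2) + 2 * ∑ ℓ ∈ A.S.L, 2 * (ℓ.card - 2) := by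
    rw [mul_sum, mul_sum, ← sum_add_distrib, ← sum_add_distrib]
    refine sum_congr rfl fun ℓ hℓ => ?_
    have h2 := A.S.two _ hℓ
    obtain ⟨d, hd⟩ : ∃ d, ℓ.card = d + 2 := ⟨_, (Nat.sub_add_cancel h2).symm⟩
    rw [hd]
    unfold jj
    by_cases h1 : d = 1
    · subst h1; simp
    · have e2 : ¬ (d + 2 = 3) := by omega
      have e3 : (d + 2) * (d + 2) - 4 = d * d + 4 * d := by
        have : (d + 2) * (d + 2) = d * d + 4 * d + 4 := by ring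
        omega
      simp only [e2, if_false, Nat.add_sub_cancel, e3]
      ring
  have F : 4 * Fintype.card ι * Fintype.card κ = 2 * (2 * Fintype.card ι * Fintype.card κ) := by
    ring
  omega

end H64.BL
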