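import Pool.Agent.H64.BL.CL
import Pool.Agent.H64.BL.SmD
import Pool.Agent.H64.BL.Cnt
import Pool.Agent.H64.BL.NumM

/-!
Assembly of the combinatorial part.
-/

set_option autoImplicit false

namespace H64.BL

open Finset

variable {ι κ : Type} [Fintype ι] [DecidableEq ι] [Fintype κ] [DecidableEq κ]

/-- (I+) in the form `n (n - 1) ≤ 2 n m + 2 t`. -/
theorem Sys.lines_bound (A : Sys ι κ) (hn : 2 ≤ Fintype.card ι) :
    Fintype.card ι * (Fintype.card ι - 1) ≤
      2 * Fintype.card ι * Fintype.card κ + 2 * A.S.L.card := by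
  have h1 := A.ineqI hn
  have h2 := A.S.sum_pairs
  rw [← h2]
  have h3 : ∑ ℓ ∈ A.S.L, ℓ.card * (ℓ.card - 1) =
      ∑ ℓ ∈ A.S.L, (ℓ.card - 2) * (ℓ.card + 1) + 2 * A.S.L.card := by
    have : 2 * A.S.L.card = ∑ ℓ ∈ A.S.L, 2 := by simp [mul_comm]
    rw [this, ← sum_add_distrib]
    refine sum_congr rfl fun ℓ hℓ => ?_
    obtain ⟨d, hd⟩ : ∃ d, ℓ.card = d + 2 := ⟨ℓ.card - 2, by have := A.S.two ℓ hℓ; omega⟩
    rw [hd]
    simp only [Nat.add_sub_cancel]
    have : d + 2 - 1 = d + 1 := by omega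
    rw [this]; ring
  omega

theorem Sys.main (A : Sys ι κ) (c : Chart A.S) (hx : Function.Injective c.x)
    (hn : 10 ^ 6 ≤ Fintype.card ι) : (338 / 1000 : ℝ) * Fintype.card ι ≤ Fintype.card κ := by
  have h2 : 2 ≤ Fintype.card ι := le_trans (by norm_num) hn
  exact num_main A.S.L (Fintype.card ι) (Fintype.card κ) A.S.two A.S.sum_pairs A.sum_card
    (A.ineqI h2) (A.ineqJ h2) (fun H hH r hr => cl c hx H hH r hr) A.card_le A.long hn

end H64.BL
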