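import Pool.Agent.H64.BL.GmDefs

/-!
# Blocking sets: definitions of the hand-in
-/

set_option autoImplicit false

namespace H64.BL

open Finset

/-- the real projective plane -/
abbrev PPlane := Projectivization ℝ (Fin 3 → ℝ)

theorem hom_ne_zero (P : ℝ × ℝ) : hom P ≠ 0 := by
  intro h
  have := congrFun h 2
  simp [hom] at this

/-- The affine point `P` as a point `(P.1 : P.2 : 1)` of the projective plane. -/
noncomputable def toPP (P : ℝ × ℝ) : PPlane := Projectivization.mk ℝ (hom P) (hom_ne_zero P)

/-- The point `b` of the projective plane lies on the projective line through the affine points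
`P` and `Q`. -/
def OnLine (P Q : ℝ × ℝ) (b : PPlane) : Prop := det3 (hom P) (hom Q) b.rep = 0

/-- The points of `R` are not all on one line. -/
def NotCol (R : Finset (ℝ × ℝ)) : Prop :=
  ∃ P ∈ R, ∃ Q ∈ R, ∃ T ∈ R, det3 (hom P) (hom Q) (hom T) ≠ 0

/-- `B` is a blocking set for `R`: disjoint from `R`, and every line through two points of `R`
contains a point of `B`. -/
def Blocks (R : Finset (ℝ × ℝ)) (B : Finset PPlane) : Prop :=
  (∀ P ∈ R, toPP P ∉ B) ∧ ∀ P ∈ R, ∀ Q ∈ R, P ≠ Q → ∃ b ∈ B, OnLine P Q b

/-- The connecting lines of `R`, each given by its set of points of `R`. -/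
noncomputable def conLines (R : Finset (ℝ × ℝ)) : Finset (Finset (ℝ × ℝ)) :=
  R.offDiag.image (fun q => R.filter (fun T => det3 (hom q.1) (hom q.2) (hom T) = 0))

/-- `f n`: the least size of a blocking set of a set of `n` points, not all on one line. -/
noncomputable def fBlock (n : ℕ) : ℕ :=
  sInf {m | ∃ R : Finset (ℝ × ℝ), ∃ B : Finset PPlane,
    R.card = n ∧ NotCol R ∧ Blocks R B ∧ B.card = m}

end H64.BL
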