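import Pool.Agent.H64.BL.FDefs

/-!
MODULE FEx (100 lines): blocking sets exist (so that `fBlock n` is a minimum over a nonempty set).

For `n ≥ 3` let `R = {(i, 0) | i < n - 1} ∪ {(0, 1)}`: `n` points, `(0,0), (1,0), (0,1)` are not
collinear. `B` = the points at infinity `(Q.1 - P.1 : Q.2 - P.2 : 0)` of the connecting lines:
`B = R.offDiag.attach.image ...` or, to avoid dependent types, the image under
`q ↦ if h : ![q.2.1 - q.1.1, q.2.2 - q.1.2, 0] ≠ 0 then Projectivization.mk ℝ _ h else toPP (0,0)`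
(for `q ∈ R.offDiag` the condition holds). `toPP P ∉ B`: the representative vectors are
proportional (`Projectivization.mk_eq_mk_iff'`), the third coordinate of a point of `B` is `0`.
`OnLine P Q b`: `b.rep` is a nonzero multiple of `(Q - P, 0)` and
`det3 (hom P) (hom Q) (Q.1 - P.1, Q.2 - P.2, 0) = 0`.
-/

set_option autoImplicit false

namespace H64.BL

open Finset

open Classical in
/-- the point at infinity of the line through `P` and `Q` -/
noncomputable def infPt (P Q : ℝ × ℝ) : PPlane :=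
  if h : (![Q.1 - P.1, Q.2 - P.2, 0] : Fin 3 → ℝ) ≠ 0 then Projectivization.mk ℝ _ h
  else toPP (0, 0)

theorem dir_ne_zero {P Q : ℝ × ℝ} (h : P ≠ Q) :
    (![Q.1 - P.1, Q.2 - P.2, 0] : Fin 3 → ℝ) ≠ 0 := by
  intro h0
  apply h
  have h1 := congrFun h0 0
  have h2 := congrFun h0 1
  simp at h1 h2
  refine Prod.ext ?_ ?_
  · linarith
  · linarith

theorem toPP_ne_infPt (T P Q : ℝ × ℝ) (h : P ≠ Q) : toPP T ≠ infPt P Q := by
  intro he
  rw [infPt, dif_pos (dir_ne_zero h), toPP, Projectivization.mk_eq_mk_iff'] at he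
  obtain ⟨a, ha⟩ := he
  have := congrFun ha 2
  simp [hom] at this

theorem onLine_infPt (P Q : ℝ × ℝ) (h : P ≠ Q) : OnLine P Q (infPt P Q) := by
  rw [OnLine, infPt, dif_pos (dir_ne_zero h)]
  obtain ⟨a, ha⟩ := Projectivization.exists_smul_eq_mk_rep ℝ _ (dir_ne_zero h)
  rw [← ha]
  have e0 : (a • (![Q.1 - P.1, Q.2 - P.2, 0] : Fin 3 → ℝ)) 0 = (a : ℝ) * (Q.1 - P.1) := rfl
  have e1 : (a • (![Q.1 - P.1, Q.2 - P.2, 0] : Fin 3 → ℝ)) 1 = (a : ℝ) * (Q.2 - P.2) := rfl
  have e2 : (a • (![Q.1 - P.1, Q.2 - P.2, 0] : Fin 3 → ℝ)) 2 = (a : ℝ) * 0 := rfl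
  rw [det3, e0, e1, e2]
  simp only [hom, Matrix.cons_val_zero, Matrix.cons_val_one, Matrix.cons_val]
  ring

theorem block_exists (n : ℕ) (hn : 3 ≤ n) :
    {m | ∃ R : Finset (ℝ × ℝ), ∃ B : Finset PPlane,
      R.card = n ∧ NotCol R ∧ Blocks R B ∧ B.card = m}.Nonempty := by
  classical
  let R : Finset (ℝ × ℝ) :=
    insert ((0 : ℝ), (1 : ℝ)) ((Finset.range (n - 1)).image fun i : ℕ => ((i : ℝ), (0 : ℝ)))
  have hR : ∀ i : ℕ, i < n - 1 → ((i : ℝ), (0 : ℝ)) ∈ R := fun i hi =>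
    Finset.mem_insert_of_mem (Finset.mem_image_of_mem _ (Finset.mem_range.mpr hi))
  refine ⟨(R.offDiag.image fun q => infPt q.1 q.2).card, R,
    R.offDiag.image fun q => infPt q.1 q.2, ?_, ?_, ⟨?_, ?_⟩, rfl⟩
  · have hinj : Function.Injective fun i : ℕ => ((i : ℝ), (0 : ℝ)) := by
      intro i j hij
      have : (i : ℝ) = (j : ℝ) := congrArg Prod.fst hij
      exact_mod_cast this
    rw [Finset.card_insert_of_notMem, Finset.card_image_of_injective _ hinj, Finset.card_range]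
    · omega
    · intro hmem
      obtain ⟨i, _, hi⟩ := Finset.mem_image.mp hmem
      have := congrArg Prod.snd hi
      simp at this
  · refine ⟨(((0 : ℕ) : ℝ), 0), hR 0 (by omega), (((1 : ℕ) : ℝ), 0), hR 1 (by omega), (0, 1),
      Finset.mem_insert_self _ _, ?_⟩
    rw [det3_hom]
    norm_num
  · intro P _ hmem
    obtain ⟨q, hq, he⟩ := Finset.mem_image.mp hmem
    rw [Finset.mem_offDiag] at hq
    exact toPP_ne_infPt P q.1 q.2 hq.2.2 he.symm
  · intro P hP Q hQ hne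
    exact ⟨infPt P Q, Finset.mem_image.mpr ⟨(P, Q), Finset.mem_offDiag.mpr ⟨hP, hQ, hne⟩, rfl⟩,
      onLine_infPt P Q hne⟩

end H64.BL
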