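import Pool.Agent.H64.BL.GmLin

/-!
MODULE GmInj (60 lines): a chart with injective `x`.

Choose `t` outside the finite set of the numbers `-(x i - x j) / (y i - y j)` (`p i = (x i, y i)`,
`y i ≠ y j`) and put `c.x i = (p i).1 + t * (p i).2`, `c.y i = (p i).2`. `c.x` is injective:
`x i + t y i = x j + t y j` with `y i ≠ y j` is excluded by the choice of `t`, and `y i = y j` gives
`x i = x j`. `col`: `det3_hom` and `lnp_eq`; the shear does not change
`(x j - x i)(y k - y i) - (x k - x i)(y j - y i)`.
-/

set_option autoImplicit false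

namespace H64.BL

open Finset

variable {ι : Type} [Fintype ι] [DecidableEq ι]

theorem inj_chart (p : ι → ℝ × ℝ) (hp : Function.Injective p)
    (hnc : ∃ i j k, det3 (hom (p i)) (hom (p j)) (hom (p k)) ≠ 0) :
    ∃ c : Chart (linSp p hp hnc), Function.Injective c.x := by
  obtain ⟨t, ht⟩ := Infinite.exists_notMem_finset
    ((univ : Finset (ι × ι)).image
      (fun q : ι × ι => -((p q.1).1 - (p q.2).1) / ((p q.1).2 - (p q.2).2)))
  have ht' : ∀ i j : ι, t ≠ -((p i).1 - (p j).1) / ((p i).2 - (p j).2) := by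
    intro i j h
    exact ht (Finset.mem_image.2 ⟨(i, j), Finset.mem_univ _, h.symm⟩)
  have hinj : ∀ i j : ι, (p i).1 + t * (p i).2 = (p j).1 + t * (p j).2 → i = j := by
    intro i j h
    by_cases hy : (p i).2 = (p j).2
    · apply hp
      refine Prod.ext ?_ hy
      rw [hy] at h
      linarith
    · exfalso
      have hd : (p i).2 - (p j).2 ≠ 0 := sub_ne_zero.2 hy
      apply ht' i j
      rw [eq_div_iff hd]
      linarith
  refine ⟨{ x := fun i => (p i).1 + t * (p i).2
            y := fun i => (p i).2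
            inj := fun i j hx _ => hinj i j hx
            col := ?_ }, fun i j h => hinj i j h⟩
  intro ℓ hℓ i hi j hj hij k
  have hℓ' : ℓ ∈ pls p := hℓ
  obtain ⟨a, b, hab, rfl⟩ := (mem_pls p ℓ).1 hℓ'
  have heq := lnp_eq p hp a b i j hab hij hi hj
  rw [← heq, mem_lnp, det3_hom]
  constructor
  · intro h
    show ((p j).1 + t * (p j).2 - ((p i).1 + t * (p i).2)) * ((p k).2 - (p i).2) =
      ((p k).1 + t * (p k).2 - ((p i).1 + t * (p i).2)) * ((p j).2 - (p i).2)
    linear_combination h
  · intro h
    have h' : ((p j).1 + t * (p j).2 - ((p i).1 + t * (p i).2)) * ((p k).2 - (p i).2) =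
      ((p k).1 + t * (p k).2 - ((p i).1 + t * (p i).2)) * ((p j).2 - (p i).2) := h
    linear_combination h'

end H64.BL
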