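import Pool.Agent.H64.BL.GmLin

/-!
MODULE GmSign (120 lines): the two lines next to `ℓ` in the pencil at `g`.

Fix `g ≠ j` and `ℓ = lnp p g j`. For vectors write `[x y] = det3 (v g) x y`, `v i = hom (p i)`.
Grassmann-Pluecker: `[x y][z w] - [x z][y w] + [x w][y z] = 0` (`simp [det3]; ring`).
Let `ν h = [v j, v h]`. Some `h₀` has `ν h₀ ≠ 0` (`pls_noncol` for `ℓ`). Let `κ h = [v h₀, v h]`,
`τ h = κ h / ν h` for `ν h ≠ 0`. Let `h₁` (`h₂`) have minimal (maximal) `τ` among the `h` with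
`ν h ≠ 0`. By the Pluecker relation
`[v h, v h₁] * [v j, v h₀] = ν h * κ h₁ - κ h * ν h₁ = ν h * ν h₁ * (τ h₁ - τ h)` if `ν h ≠ 0`.
So `C₁ * ([v h, v h₁] * ν h) ≥ 0` for all `h` with `C₁ = - [v j, v h₀] * ν h₁ ≠ 0`
(`[v j, v h₀] = ν h₀`; for `ν h = 0` both sides are `0`): indeed
`C₁ [v h, v h₁] ν h = (ν h)² (ν h₁)² (τ h - τ h₁) ≥ 0`. Same for `h₂` with the other sign.
If `h₂ ∈ lnp p g h₁`, i.e. `[v h₁, v h₂] = 0`, then `τ h₁ = τ h₂`, so all `τ` are equal and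
`[v h, v h₁] * ν h = 0` for all `h`.
-/

set_option autoImplicit false

namespace H64.BL

open Finset

variable {ι : Type} [Fintype ι] [DecidableEq ι]

private theorem plk (G x y z w : V3) :
    det3 G x y * det3 G z w - det3 G x z * det3 G y w + det3 G x w * det3 G y z = 0 := by
  simp only [det3]
  ring

private theorem asym (G x y : V3) : det3 G x y = - det3 G y x := by
  simp only [det3]
  ring

theorem sign_lemma (p : ι → ℝ × ℝ) (hp : Function.Injective p)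
    (hnc : ∃ i j k, det3 (hom (p i)) (hom (p j)) (hom (p k)) ≠ 0) (g j : ι) (hgj : g ≠ j) :
    ∃ h₁ h₂ : ι, h₁ ∉ lnp p g j ∧ h₂ ∉ lnp p g j ∧
      (∃ C : ℝ, C ≠ 0 ∧ ∀ h, 0 ≤ C * (det3 (hom (p g)) (hom (p h)) (hom (p h₁)) *
        det3 (hom (p g)) (hom (p j)) (hom (p h)))) ∧
      (∃ C : ℝ, C ≠ 0 ∧ ∀ h, 0 ≤ C * (det3 (hom (p g)) (hom (p h)) (hom (p h₂)) *
        det3 (hom (p g)) (hom (p j)) (hom (p h)))) ∧
      (h₂ ∈ lnp p g h₁ → ∀ h, det3 (hom (p g)) (hom (p h)) (hom (p h₁)) *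
        det3 (hom (p g)) (hom (p j)) (hom (p h)) = 0) := by
  classical
  obtain ⟨h₀, hh₀⟩ := pls_noncol p hp hnc (lnp p g j) ((mem_pls p _).mpr ⟨g, j, hgj, rfl⟩)
  rw [mem_lnp] at hh₀
  obtain ⟨ν, hν⟩ : ∃ ν : ι → ℝ, ∀ h, det3 (hom (p g)) (hom (p j)) (hom (p h)) = ν h :=
    ⟨_, fun _ => rfl⟩
  obtain ⟨κ, hκ⟩ : ∃ κ : ι → ℝ, ∀ h, det3 (hom (p g)) (hom (p h₀)) (hom (p h)) = κ h :=
    ⟨_, fun _ => rfl⟩
  rw [hν] at hh₀
  -- the Pluecker relation
  have key : ∀ h k, det3 (hom (p g)) (hom (p h)) (hom (p k)) * ν h₀ = ν h * κ k - κ h * ν k := by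
    intro h k
    have h1 := plk (hom (p g)) (hom (p h)) (hom (p k)) (hom (p j)) (hom (p h₀))
    rw [asym (hom (p g)) (hom (p h)) (hom (p j)), asym (hom (p g)) (hom (p k)) (hom (p h₀)),
      asym (hom (p g)) (hom (p h)) (hom (p h₀)), asym (hom (p g)) (hom (p k)) (hom (p j)),
      hν, hν, hν, hκ, hκ] at h1
    linarith
  have hne : (univ.filter fun h => ν h ≠ 0).Nonempty := ⟨h₀, by simp [hh₀]⟩
  obtain ⟨h₁, hh₁, hmin⟩ := Finset.exists_min_image _ (fun h => κ h / ν h) hne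
  obtain ⟨h₂, hh₂, hmax⟩ := Finset.exists_max_image _ (fun h => κ h / ν h) hne
  simp only [mem_filter, mem_univ, true_and] at hh₁ hh₂ hmin hmax
  have hval : ∀ h k, ν h ≠ 0 → ν k ≠ 0 →
      det3 (hom (p g)) (hom (p h)) (hom (p k)) * ν h₀
        = ν h * ν k * (κ k / ν k - κ h / ν h) := by
    intro h k hh hk
    rw [key]
    field_simp
  refine ⟨h₁, h₂, ?_, ?_, ⟨-(ν h₀ * ν h₁), ?_, ?_⟩, ⟨ν h₀ * ν h₂, ?_, ?_⟩, ?_⟩
  · rw [mem_lnp, hν]
    exact hh₁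
  · rw [mem_lnp, hν]
    exact hh₂
  · exact neg_ne_zero.mpr (mul_ne_zero hh₀ hh₁)
  · intro h
    rw [hν]
    by_cases hh : ν h = 0
    · rw [hh]
      simp
    · have h1 := hval h h₁ hh hh₁
      have h2 := hmin h hh
      have h3 : -(ν h₀ * ν h₁) * (det3 (hom (p g)) (hom (p h)) (hom (p h₁)) * ν h)
          = (ν h * ν h₁) ^ 2 * (κ h / ν h - κ h₁ / ν h₁) := by
        calc -(ν h₀ * ν h₁) * (det3 (hom (p g)) (hom (p h)) (hom (p h₁)) * ν h)
            = -(ν h * ν h₁) * (det3 (hom (p g)) (hom (p h)) (hom (p h₁)) * ν h₀) := by ring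
          _ = (ν h * ν h₁) ^ 2 * (κ h / ν h - κ h₁ / ν h₁) := by rw [h1]; ring
      rw [h3]
      exact mul_nonneg (sq_nonneg _) (sub_nonneg.mpr h2)
  · exact mul_ne_zero hh₀ hh₂
  · intro h
    rw [hν]
    by_cases hh : ν h = 0
    · rw [hh]
      simp
    · have h1 := hval h h₂ hh hh₂
      have h2 := hmax h hh
      have h3 : ν h₀ * ν h₂ * (det3 (hom (p g)) (hom (p h)) (hom (p h₂)) * ν h)
          = (ν h * ν h₂) ^ 2 * (κ h₂ / ν h₂ - κ h / ν h) := by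
        calc ν h₀ * ν h₂ * (det3 (hom (p g)) (hom (p h)) (hom (p h₂)) * ν h)
            = (ν h * ν h₂) * (det3 (hom (p g)) (hom (p h)) (hom (p h₂)) * ν h₀) := by ring
          _ = (ν h * ν h₂) ^ 2 * (κ h₂ / ν h₂ - κ h / ν h) := by rw [h1]; ring
      rw [h3]
      exact mul_nonneg (sq_nonneg _) (sub_nonneg.mpr h2)
  · intro h12 h
    rw [mem_lnp] at h12
    rw [hν]
    by_cases hh : ν h = 0
    · rw [hh, mul_zero]
    · have h1 := hval h₁ h₂ hh₁ hh₂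
      rw [h12, zero_mul] at h1
      have h2 : κ h₂ / ν h₂ - κ h₁ / ν h₁ = 0 := by
        rcases mul_eq_zero.mp h1.symm with h3 | h3
        · exact absurd h3 (mul_ne_zero hh₁ hh₂)
        · exact h3
      have h4 : κ h₁ / ν h₁ - κ h / ν h = 0 := by
        have h5 := hmin h hh
        have h6 := hmax h hh
        linarith
      have h7 := hval h h₁ hh hh₁
      rw [h4, mul_zero] at h7
      rcases mul_eq_zero.mp h7 with h8 | h8
      · rw [h8, zero_mul]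
      · exact absurd h8 hh₀

end H64.BL
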