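import Pool.Agent.H64.BL.GmChart
import Pool.Agent.H64.BL.GmSign

/-!
MODULE GmNb (130 lines): the neighbour property `nb` of the charts.

`ext_of`: in the chart `c` of `u`, let `g ≠ j` in `ℓ ∈ L`, `x j ≠ x g` and let
`0 ≤ C * (det3 (v g) (v h) u * det3 (v g) (v j) (v h))` for all `h`, `C ≠ 0`. Then
`∃ ε, Ext (c.sg ε) g ℓ`. Proof: by the property (3) of the chart the numbers
`q h = (x h - x g) (y h - y g - s (x h - x g))`, `s = sl g j`, all have the same sign (weakly): all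
`≥ 0` or all `≤ 0`. For `x h ≠ x g`, `q h ≥ 0` iff `s ≤ sl g h` (divide by `(x h - x g)²`). If all
are `≥ 0`: `Ext c g ℓ` (`ε = true`); the points `k ∈ ℓ` with `x k ≠ x g` have `sl g k = s`
(`sl_eq`). If all are `≤ 0`: `Ext c.neg g ℓ` (`ε = false`).
`ext_both`: if `det3 (v g) (v h) u * det3 (v g) (v j) (v h) = 0` for all `h`, then `Ext (c.sg ε) g ℓ`
for both `ε`.

`nb_of`: the statement needed for `Sys.nb`: `r w` is the index of a red vector `u (r w)` on the line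
`w` (`det3 (v i) (v k) (u (r w)) = 0` for `i, k ∈ w`). Let `g ∈ ℓ = lnp p g j` (choose `j ∈ ℓ`,
`j ≠ g`, `lnp_eq`). Take `h₁, h₂` from `sign_lemma`, `wᵢ = lnp p g hᵢ`, `uᵢ = u (r wᵢ)`. By `comb`
`uᵢ = α hom (p g) + β hom (p hᵢ)` and `β ≠ 0` (otherwise `uᵢ` is a multiple of `hom (p g)`,
`uᵢ ≠ 0`, so `hom (p g)` is a multiple of `uᵢ`). So
`det3 (v g) (v h) uᵢ = β * det3 (v g) (v h) (v hᵢ)` and the sign condition holds with `C / β`.
`x j ≠ x g` in the chart of `uᵢ`: otherwise `uᵢ` lies on `ℓ` and on `wᵢ`: `det3 (v g) (v j) uᵢ = 0`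
gives `β * det3 (v g) (v j) (v hᵢ) = 0`, but `hᵢ ∉ ℓ`. So `ext_of` gives `εᵢ`. If `w₁ ≠ w₂`: done.
If `w₁ = w₂` then `h₂ ∈ lnp p g h₁`, all products vanish, and `ext_both` gives `ε = true, false`.
-/

set_option autoImplicit false

namespace H64.BL

open Finset

variable {ι κ : Type} [Fintype ι] [DecidableEq ι]

private theorem ext_pos {S : LinSp ι} (c : Chart S) {ℓ : Finset ι} (hℓ : ℓ ∈ S.L) {g j : ι}
    (hg : g ∈ ℓ) (hj : j ∈ ℓ) (hx : c.x j ≠ c.x g)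
    (H : ∀ h, 0 ≤ (c.x h - c.x g) * (c.y h - c.y g - c.sl g j * (c.x h - c.x g))) :
    Ext c g ℓ := by
  refine ⟨hg, ⟨j, hj, hx⟩, ?_⟩
  intro k hk hxk h hxh
  have hgj : g ≠ j := fun e => hx (by rw [e])
  have h1 := (c.col ℓ hℓ g hg j hj hgj k).mp hk
  have hj0 : c.x j - c.x g ≠ 0 := sub_ne_zero.mpr hx
  have hk0 : c.x k - c.x g ≠ 0 := sub_ne_zero.mpr hxk
  have hh0 : c.x h - c.x g ≠ 0 := sub_ne_zero.mpr hxh
  have h2 : c.sl g k = c.sl g j := by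
    rw [Chart.sl, Chart.sl, div_eq_div_iff hk0 hj0]
    linarith
  rw [h2]
  have h3 : c.sl g h - c.sl g j = ((c.x h - c.x g) *
      (c.y h - c.y g - c.sl g j * (c.x h - c.x g))) / (c.x h - c.x g) ^ 2 := by
    have h4 : c.sl g h * (c.x h - c.x g) = c.y h - c.y g := by
      rw [Chart.sl, div_mul_cancel₀ _ hh0]
    rw [← h4]
    field_simp
  have h5 : 0 ≤ c.sl g h - c.sl g j := by
    rw [h3]
    exact div_nonneg (H h) (sq_nonneg _)
  linarith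

private theorem ext_neg {S : LinSp ι} (c : Chart S) {ℓ : Finset ι} (hℓ : ℓ ∈ S.L) {g j : ι}
    (hg : g ∈ ℓ) (hj : j ∈ ℓ) (hx : c.x j ≠ c.x g)
    (H : ∀ h, (c.x h - c.x g) * (c.y h - c.y g - c.sl g j * (c.x h - c.x g)) ≤ 0) :
    Ext c.neg g ℓ := by
  refine ext_pos c.neg hℓ hg hj hx ?_
  intro h
  have h1 : c.neg.sl g j = - c.sl g j := by
    show (-c.y j - -c.y g) / (c.x j - c.x g) = -((c.y j - c.y g) / (c.x j - c.x g))
    rw [← neg_div]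
    congr 1
    ring
  rw [h1]
  show 0 ≤ (c.x h - c.x g) * (-c.y h - -c.y g - -c.sl g j * (c.x h - c.x g))
  have h2 := H h
  nlinarith [h2]

private theorem ext_of {S : LinSp ι} (c : Chart S) (p : ι → ℝ × ℝ) (uu : V3) {ℓ : Finset ι}
    (hℓ : ℓ ∈ S.L) {g j : ι} (hg : g ∈ ℓ) (hj : j ∈ ℓ) (hx : c.x j ≠ c.x g)
    (h3 : ∃ C : ℝ, C ≠ 0 ∧ ∀ h, ∃ P : ℝ, 0 < P ∧
        (c.x h - c.x g) * (c.y h - c.y g - c.sl g j * (c.x h - c.x g)) =
          C * P * (det3 (hom (p g)) (hom (p h)) uu *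
            det3 (hom (p g)) (hom (p j)) (hom (p h))))
    (C : ℝ) (hC : C ≠ 0)
    (hs : ∀ h, 0 ≤ C * (det3 (hom (p g)) (hom (p h)) uu *
      det3 (hom (p g)) (hom (p j)) (hom (p h)))) : ∃ ε : Bool, Ext (c.sg ε) g ℓ := by
  obtain ⟨C', hC', h3⟩ := h3
  rcases lt_or_gt_of_ne (mul_ne_zero hC hC') with h | h
  · refine ⟨false, ext_neg c hℓ hg hj hx ?_⟩
    intro k
    obtain ⟨P, hP, hk⟩ := h3 k
    rw [hk]
    have h1 := hs k
    have h2 : C' * P * (det3 (hom (p g)) (hom (p k)) uu *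
        det3 (hom (p g)) (hom (p j)) (hom (p k))) =
        (C * C') * P * (C * (det3 (hom (p g)) (hom (p k)) uu *
          det3 (hom (p g)) (hom (p j)) (hom (p k)))) / C ^ 2 := by
      field_simp
    rw [h2]
    refine div_nonpos_of_nonpos_of_nonneg ?_ (sq_nonneg _)
    exact mul_nonpos_of_nonpos_of_nonneg (mul_nonpos_of_nonpos_of_nonneg h.le hP.le) h1
  · refine ⟨true, ext_pos c hℓ hg hj hx ?_⟩
    intro k
    obtain ⟨P, hP, hk⟩ := h3 k
    rw [hk]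
    have h1 := hs k
    have h2 : C' * P * (det3 (hom (p g)) (hom (p k)) uu *
        det3 (hom (p g)) (hom (p j)) (hom (p k))) =
        (C * C') * P * (C * (det3 (hom (p g)) (hom (p k)) uu *
          det3 (hom (p g)) (hom (p j)) (hom (p k)))) / C ^ 2 := by
      field_simp
    rw [h2]
    exact div_nonneg (mul_nonneg (mul_nonneg h.le hP.le) h1) (sq_nonneg _)

private theorem ext_both {S : LinSp ι} (c : Chart S) (p : ι → ℝ × ℝ) (uu : V3) {ℓ : Finset ι}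
    (hℓ : ℓ ∈ S.L) {g j : ι} (hg : g ∈ ℓ) (hj : j ∈ ℓ) (hx : c.x j ≠ c.x g)
    (h3 : ∃ C : ℝ, C ≠ 0 ∧ ∀ h, ∃ P : ℝ, 0 < P ∧
        (c.x h - c.x g) * (c.y h - c.y g - c.sl g j * (c.x h - c.x g)) =
          C * P * (det3 (hom (p g)) (hom (p h)) uu *
            det3 (hom (p g)) (hom (p j)) (hom (p h))))
    (hs : ∀ h, det3 (hom (p g)) (hom (p h)) uu *
      det3 (hom (p g)) (hom (p j)) (hom (p h)) = 0) (ε : Bool) : Ext (c.sg ε) g ℓ := by
  obtain ⟨C', hC', h3⟩ := h3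
  cases ε
  · refine ext_neg c hℓ hg hj hx ?_
    intro k
    obtain ⟨P, hP, hk⟩ := h3 k
    rw [hk, hs k, mul_zero]
  · refine ext_pos c hℓ hg hj hx ?_
    intro k
    obtain ⟨P, hP, hk⟩ := h3 k
    rw [hk, hs k, mul_zero]

private theorem det3_comb (x y z w : V3) (α β : ℝ) :
    det3 x y (α • z + β • w) = α * det3 x y z + β * det3 x y w := by
  simp only [det3, Pi.add_apply, Pi.smul_apply, smul_eq_mul]
  ring

private theorem det3_self (x y : V3) : det3 x y x = 0 := by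
  simp only [det3]
  ring

private theorem det3_self' (x y : V3) : det3 y x x = 0 := by
  simp only [det3]
  ring

private theorem det3_swap (x y z : V3) : det3 x y z = - det3 y x z := by
  simp only [det3]
  ring

theorem nb_of (p : ι → ℝ × ℝ) (hp : Function.Injective p)
    (hnc : ∃ i j k, det3 (hom (p i)) (hom (p j)) (hom (p k)) ≠ 0)
    (u : κ → V3) (hu : ∀ ρ, u ρ ≠ 0) (hv : ∀ ρ i, ¬ ∃ t : ℝ, hom (p i) = t • u ρ)
    (ch : κ → Chart (linSp p hp hnc))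
    (h1 : ∀ ρ i j, (ch ρ).x i = (ch ρ).x j ↔ det3 (hom (p i)) (hom (p j)) (u ρ) = 0)
    (h3 : ∀ ρ g j, (ch ρ).x j ≠ (ch ρ).x g → ∃ C : ℝ, C ≠ 0 ∧ ∀ h, ∃ P : ℝ, 0 < P ∧
        ((ch ρ).x h - (ch ρ).x g) *
          ((ch ρ).y h - (ch ρ).y g - (ch ρ).sl g j * ((ch ρ).x h - (ch ρ).x g)) =
          C * P * (det3 (hom (p g)) (hom (p h)) (u ρ) *
            det3 (hom (p g)) (hom (p j)) (hom (p h))))
    (r : Finset ι → κ)
    (hr : ∀ w ∈ pls p, ∀ i ∈ w, ∀ k ∈ w, det3 (hom (p i)) (hom (p k)) (u (r w)) = 0)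
    (ℓ : Finset ι) (hℓ : ℓ ∈ pls p) (g : ι) (hg : g ∈ ℓ) :
    ∃ w₁ ∈ pls p, ∃ w₂ ∈ pls p, ∃ ε₁ ε₂ : Bool, (w₁, ε₁) ≠ (w₂, ε₂) ∧
      g ∈ w₁ ∧ g ∈ w₂ ∧ Ext ((ch (r w₁)).sg ε₁) g ℓ ∧ Ext ((ch (r w₂)).sg ε₂) g ℓ := by
  classical
  -- a second point of the line
  obtain ⟨j, hj, hjg⟩ : ∃ j ∈ ℓ, j ≠ g :=
    Finset.exists_mem_ne (lt_of_lt_of_le one_lt_two (pls_two p ℓ hℓ)) g
  have hℓg : lnp p g j = ℓ := by
    obtain ⟨a, b, hab, e⟩ := (mem_pls p ℓ).mp hℓ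
    rw [← e]
    exact lnp_eq p hp a b g j hab hjg.symm (by rw [e]; exact hg) (by rw [e]; exact hj)
  obtain ⟨h₁, h₂, hn₁, hn₂, ⟨C₁, hC₁, hs₁⟩, ⟨C₂, hC₂, hs₂⟩, h12⟩ :=
    sign_lemma p hp hnc g j hjg.symm
  have hgmem : ∀ h, g ∈ lnp p g h := fun h => (mem_lnp p g h g).mpr (det3_self _ _)
  have hhmem : ∀ h, h ∈ lnp p g h := fun h => (mem_lnp p g h h).mpr (det3_self' _ _)
  -- data of a point off the line
  have data : ∀ h, h ∉ lnp p g j → lnp p g h ∈ pls p ∧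
      (ch (r (lnp p g h))).x j ≠ (ch (r (lnp p g h))).x g ∧
      ∃ β : ℝ, β ≠ 0 ∧ ∀ k, det3 (hom (p g)) (hom (p k)) (u (r (lnp p g h))) =
        β * det3 (hom (p g)) (hom (p k)) (hom (p h)) := by
    intro h hh
    have hgh : g ≠ h := by
      intro e
      exact hh (e ▸ hgmem j)
    have hw : lnp p g h ∈ pls p := (mem_pls p _).mpr ⟨g, h, hgh, rfl⟩
    have h0 := hr _ hw g (hgmem h) h (hhmem h)
    obtain ⟨α, β, hαβ⟩ := comb (p g) (p h) (fun e => hgh (hp e)) _ h0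
    have hβ : β ≠ 0 := by
      intro hβ
      rw [hβ, zero_smul, add_zero] at hαβ
      have hα : α ≠ 0 := by
        intro hα
        rw [hα, zero_smul] at hαβ
        exact hu _ hαβ
      refine hv (r (lnp p g h)) g ⟨α⁻¹, ?_⟩
      rw [hαβ, smul_smul, inv_mul_cancel₀ hα, one_smul]
    have hk : ∀ k, det3 (hom (p g)) (hom (p k)) (u (r (lnp p g h))) =
        β * det3 (hom (p g)) (hom (p k)) (hom (p h)) := by
      intro k
      rw [hαβ, det3_comb, det3_self, mul_zero, zero_add]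
    refine ⟨hw, ?_, β, hβ, hk⟩
    intro e
    have h5 := (h1 _ _ _).mp e
    rw [det3_swap, hk j, neg_eq_zero] at h5
    rcases mul_eq_zero.mp h5 with h6 | h6
    · exact hβ h6
    · exact hh ((mem_lnp p g j h).mpr h6)
  obtain ⟨hw₁, hx₁, β₁, hβ₁, hk₁⟩ := data h₁ hn₁
  obtain ⟨hw₂, hx₂, β₂, hβ₂, hk₂⟩ := data h₂ hn₂
  by_cases hww : lnp p g h₁ = lnp p g h₂
  · have hz := h12 (by rw [hww]; exact hhmem h₂)
    have hb := ext_both (ch (r (lnp p g h₁))) p (u (r (lnp p g h₁))) (ℓ := ℓ) hℓ hg hj hx₁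
      (h3 _ g j hx₁) (fun h => by rw [hk₁ h, mul_assoc, hz h, mul_zero])
    exact ⟨lnp p g h₁, hw₁, lnp p g h₁, hw₁, true, false, by simp, hgmem h₁, hgmem h₁,
      hb true, hb false⟩
  · obtain ⟨ε₁, hε₁⟩ := ext_of (ch (r (lnp p g h₁))) p (u (r (lnp p g h₁))) (ℓ := ℓ) hℓ hg hj hx₁
      (h3 _ g j hx₁) (C₁ / β₁) (div_ne_zero hC₁ hβ₁) (fun h => by
        rw [hk₁ h]
        have h5 := hs₁ h
        have h6 : C₁ / β₁ * (β₁ * det3 (hom (p g)) (hom (p h)) (hom (p h₁)) *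
            det3 (hom (p g)) (hom (p j)) (hom (p h))) =
            C₁ * (det3 (hom (p g)) (hom (p h)) (hom (p h₁)) *
              det3 (hom (p g)) (hom (p j)) (hom (p h))) := by
          field_simp
        rw [h6]
        exact h5)
    obtain ⟨ε₂, hε₂⟩ := ext_of (ch (r (lnp p g h₂))) p (u (r (lnp p g h₂))) (ℓ := ℓ) hℓ hg hj hx₂
      (h3 _ g j hx₂) (C₂ / β₂) (div_ne_zero hC₂ hβ₂) (fun h => by
        rw [hk₂ h]
        have h5 := hs₂ h
        have h6 : C₂ / β₂ * (β₂ * det3 (hom (p g)) (hom (p h)) (hom (p h₂)) *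
            det3 (hom (p g)) (hom (p j)) (hom (p h))) =
            C₂ * (det3 (hom (p g)) (hom (p h)) (hom (p h₂)) *
              det3 (hom (p g)) (hom (p j)) (hom (p h))) := by
          field_simp
        rw [h6]
        exact h5)
    refine ⟨lnp p g h₁, hw₁, lnp p g h₂, hw₂, ε₁, ε₂, ?_, hgmem h₁, hgmem h₂, hε₁, hε₂⟩
    intro e
    exact hww (Prod.mk.inj e).1

end H64.BL
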