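import Pool.Agent.H64.BL.Abs
import Pool.Agent.H64.BL.GmNb
import Pool.Agent.H64.BL.GmInj
import Pool.Agent.H64.BL.FDefs
import Pool.Agent.H64.BL.FEx

/-!
# Assembly
-/

set_option autoImplicit false

namespace H64.BL

open Finset

/-- The system of a blocked point set. -/
theorem sys_exists (R : Finset (ℝ × ℝ)) (hR : NotCol R) {κ : Type} [Fintype κ] [DecidableEq κ]
    (u : κ → V3) (hu : ∀ ρ, u ρ ≠ 0) (hv : ∀ ρ, ∀ P ∈ R, ¬ ∃ t : ℝ, hom P = t • u ρ)
    (hb : ∀ P ∈ R, ∀ Q ∈ R, P ≠ Q → ∃ ρ, det3 (hom P) (hom Q) (u ρ) = 0) :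
    ∃ A : Sys R κ, A.S.L.card = (conLines R).card ∧ ∃ c : Chart A.S, Function.Injective c.x := by
  classical
  obtain ⟨P₀, hP₀, Q₀, hQ₀, T₀, hT₀, hd⟩ := hR
  let p : R → ℝ × ℝ := fun i => i.1
  have hp : Function.Injective p := Subtype.val_injective
  have hnc : ∃ i j k, det3 (hom (p i)) (hom (p j)) (hom (p k)) ≠ 0 :=
    ⟨⟨P₀, hP₀⟩, ⟨Q₀, hQ₀⟩, ⟨T₀, hT₀⟩, hd⟩
  have hv' : ∀ ρ i, ¬ ∃ t : ℝ, hom (p i) = t • u ρ := fun ρ i => hv ρ i.1 i.2
  choose ch h1 h3 using fun ρ => chart_exists p hp hnc (u ρ) (hu ρ) (hv' ρ)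
  have hPQ : P₀ ≠ Q₀ := by
    rintro rfl
    apply hd
    simp [det3]; ring
  obtain ⟨ρ₀, -⟩ := hb P₀ hP₀ Q₀ hQ₀ hPQ
  have hr : ∀ w : Finset R, ∃ ρ : κ, w ∈ pls p →
      ∀ i ∈ w, ∀ k ∈ w, det3 (hom (p i)) (hom (p k)) (u ρ) = 0 := by
    intro w
    by_cases hw : w ∈ pls p
    · obtain ⟨i, j, hij, rfl⟩ := (mem_pls p w).1 hw
      have hij' : p i ≠ p j := fun h => hij (hp h)
      obtain ⟨ρ, hρ⟩ := hb (p i) i.2 (p j) j.2 hij'
      exact ⟨ρ, fun _ a ha b hb' => span3 (p i) (p j) hij' _ _ _ ((mem_lnp p i j a).1 ha)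
        ((mem_lnp p i j b).1 hb') hρ⟩
    · exact ⟨ρ₀, fun h => absurd h hw⟩
  choose r hr using hr
  refine ⟨{ S := linSp p hp hnc, ch := ch, r := r, vert := ?_, nb := ?_ }, ?_, ?_⟩
  · intro ℓ hℓ i hi j hj
    exact (h1 (r ℓ) i j).2 (hr ℓ hℓ i hi j hj)
  · intro ℓ hℓ g hg
    exact nb_of p hp hnc u hu hv' ch h1 h3 r (fun w hw => hr w hw) ℓ hℓ g hg
  · show (pls p).card = (conLines R).card
    have himg : conLines R = (pls p).image (fun s => s.map ⟨Subtype.val, Subtype.val_injective⟩) := by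
      ext s
      simp only [conLines, mem_image, mem_offDiag, mem_pls]
      constructor
      · rintro ⟨⟨P, Q⟩, ⟨hP, hQ, hne⟩, rfl⟩
        refine ⟨lnp p ⟨P, hP⟩ ⟨Q, hQ⟩, ⟨⟨P, hP⟩, ⟨Q, hQ⟩, fun h => hne (congrArg Subtype.val h),
          rfl⟩, ?_⟩
        ext T
        simp only [mem_map, mem_lnp, Function.Embedding.coeFn_mk, mem_filter]
        constructor
        · rintro ⟨a, ha, rfl⟩
          exact ⟨a.2, ha⟩
        · rintro ⟨hT, h⟩
          exact ⟨⟨T, hT⟩, h, rfl⟩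
      · rintro ⟨ℓ, ⟨i, j, hij, rfl⟩, rfl⟩
        refine ⟨(i.1, j.1), ⟨i.2, j.2, fun h => hij (Subtype.ext h)⟩, ?_⟩
        ext T
        simp only [mem_map, mem_lnp, Function.Embedding.coeFn_mk, mem_filter]
        constructor
        · rintro ⟨hT, h⟩
          exact ⟨⟨T, hT⟩, h, rfl⟩
        · rintro ⟨a, ha, rfl⟩
          exact ⟨a.2, ha⟩
    rw [himg, card_image_of_injective]
    exact Finset.map_injective _
  · exact inj_chart p hp hnc

theorem sys_of_blocks (R : Finset (ℝ × ℝ)) (B : Finset PPlane) (hR : NotCol R)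
    (hB : Blocks R B) : ∃ (_ : DecidableEq B) (A : Sys R B),
      A.S.L.card = (conLines R).card ∧ ∃ c : Chart A.S, Function.Injective c.x := by
  classical
  refine ⟨inferInstance, sys_exists R hR (fun b : B => b.1.rep) (fun b => b.1.rep_nonzero) ?_ ?_⟩
  · rintro b P hP ⟨t, ht⟩
    apply hB.1 P hP
    have ht0 : t ≠ 0 := by
      rintro rfl
      exact hom_ne_zero P (by simpa using ht)
    have : toPP P = b.1 := by
      rw [← b.1.mk_rep]
      unfold toPP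
      rw [Projectivization.mk_eq_mk_iff']
      exact ⟨t, ht.symm⟩
    rw [this]; exact b.2
  · intro P hP Q hQ hPQ
    obtain ⟨b, hb, h⟩ := hB.2 P hP Q hQ hPQ
    exact ⟨⟨b, hb⟩, h⟩

/-- Theorem 1: `n (n - 1) ≤ 2 n m + 2 t`. -/
theorem lines_bound (R : Finset (ℝ × ℝ)) (B : Finset PPlane) (hR : NotCol R) (hB : Blocks R B) :
    R.card * (R.card - 1) ≤ 2 * R.card * B.card + 2 * (conLines R).card := by
  obtain ⟨inst, A, hA, -⟩ := sys_of_blocks R B hR hB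
  have h2 : 2 ≤ Fintype.card R := by
    obtain ⟨P, hP, Q, hQ, T, hT, hd⟩ := hR
    have hPQ : P ≠ Q := by
      rintro rfl
      apply hd
      simp [det3]; ring
    rw [Fintype.card_coe]
    exact Finset.one_lt_card.2 ⟨P, hP, Q, hQ, hPQ⟩
  have h := A.lines_bound h2
  simpa [hA] using h

/-- Theorem 2: `|B| ≥ 0.338 n` for `n ≥ 10^6`. -/
theorem blocks_bound (R : Finset (ℝ × ℝ)) (B : Finset PPlane) (hR : NotCol R) (hB : Blocks R B)
    (hn : 10 ^ 6 ≤ R.card) : (338 / 1000 : ℝ) * R.card ≤ B.card := by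
  obtain ⟨inst, A, -, c, hx⟩ := sys_of_blocks R B hR hB
  have h := A.main c hx (by simpa using hn)
  simpa using h

/-- Theorem 2 for the function `f`. -/
theorem fBlock_bound (n : ℕ) (hn : 10 ^ 6 ≤ n) : (338 / 1000 : ℝ) * n ≤ fBlock n := by
  have hne := block_exists n (le_trans (by norm_num) hn)
  obtain ⟨R, B, hc, hR, hB, hm⟩ := Nat.sInf_mem hne
  have h := blocks_bound R B hR hB (by rw [hc]; exact hn)
  rw [hc, hm] at h
  exact h

end H64.BL
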