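import Mathlib

/-!
# Straight line drawings (for the crossing lemma)

A segment is a pair `e = (e.1, e.2)` of points of the plane, `e.1` the left end, `e.2` the right
end (`e.1.1 < e.2.1`, so no segment is vertical). `segH e X` is the height of (the line of) `e`
above the abscissa `X`. `Crs e f`: the two segments have a common interior point.
`Drawing V E`: the ends of the segments of `E` are in `V` and no point of `V` is interior to a
segment of `E`. `crO E`: the number of ORDERED crossing pairs.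
-/

set_option autoImplicit false

namespace H64.BL

open Finset

abbrev Seg := (ℝ × ℝ) × (ℝ × ℝ)

noncomputable def segSl (e : Seg) : ℝ := (e.2.2 - e.1.2) / (e.2.1 - e.1.1)

noncomputable def segH (e : Seg) (X : ℝ) : ℝ := e.1.2 + segSl e * (X - e.1.1)

def Crs (e f : Seg) : Prop :=
  ∃ X, e.1.1 < X ∧ f.1.1 < X ∧ X < e.2.1 ∧ X < f.2.1 ∧ segH e X = segH f X

structure Drawing (V : Finset (ℝ × ℝ)) (E : Finset Seg) : Prop where
  lt : ∀ e ∈ E, e.1.1 < e.2.1
  pm : ∀ e ∈ E, e.1 ∈ V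
  qm : ∀ e ∈ E, e.2 ∈ V
  free : ∀ e ∈ E, ∀ v ∈ V, e.1.1 < v.1 → v.1 < e.2.1 → v.2 ≠ segH e v.1

open Classical in
noncomputable def crO (E : Finset Seg) : ℕ :=
  ((E ×ˢ E).filter (fun q => q.1 ≠ q.2 ∧ Crs q.1 q.2)).card

/-- no two different segments of `E` cross -/
def Plane (E : Finset Seg) : Prop := ∀ e ∈ E, ∀ f ∈ E, e ≠ f → ¬ Crs e f

/-- `e'` is the next segment above `e` with the same left end -/
def IsSucc (E : Finset Seg) (e e' : Seg) : Prop :=
  e' ∈ E ∧ e'.1 = e.1 ∧ segSl e < segSl e' ∧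
    ∀ f ∈ E, f.1 = e.1 → segSl e < segSl f → segSl e' ≤ segSl f

/-- the point `v` is in the closed region between `e` and `e'` (same left end) -/
def InReg (e e' : Seg) (v : ℝ × ℝ) : Prop :=
  e.1.1 < v.1 ∧ v.1 ≤ e.2.1 ∧ v.1 ≤ e'.2.1 ∧ segH e v.1 ≤ v.2 ∧ v.2 ≤ segH e' v.1

/-- `u` is a leftmost point of `V` in the region between `e` and `e'` -/
def First (V : Finset (ℝ × ℝ)) (e e' : Seg) (u : ℝ × ℝ) : Prop :=
  u ∈ V ∧ InReg e e' u ∧ ∀ v ∈ V, InReg e e' v → u.1 ≤ v.1

end H64.BL
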