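import Pool.Agent.H64.BL.GmDefs

/-!
MODULE GmFun (100 lines): linear functionals adapted to a red point `u`.

Given `u ≠ 0` and finitely many vectors `v i` that are not multiples of `u`, there are functionals
`a, b, d` with `a u = b u = 0`, `d u = 1`, `det3 a b d ≠ 0` and `a (v i) ≠ 0` for all `i`.

Proof. Some coordinate of `u` is not `0`, say `u 0 ≠ 0` (the other two cases are analogous, or use
a cyclic permutation of the coordinates). `l₁ = (u 1, -u 0, 0)`, `l₂ = (u 2, 0, -u 0)` vanish on `u`,
and `l₁ v = l₂ v = 0` implies `v = (v 0 / u 0) • u`. `d = (1 / u 0, 0, 0)`. Put `b = l₂`,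
`a = l₁ + t • l₂`: `det3 a b d = u 0` (up to sign) for every `t`. For every `i` there is at most one
`t` with `a (v i) = 0` (if `l₂ (v i) ≠ 0`: `t = - l₁ (v i) / l₂ (v i)`; if `l₂ (v i) = 0` then
`l₁ (v i) ≠ 0` and there is none). So choose `t` outside the finite set
`{- l₁ (v i) / l₂ (v i)}` (`Set.Finite.exists_notMem` / `Infinite.exists_notMem_finset`).
-/

set_option autoImplicit false

namespace H64.BL

open Finset

theorem functionals_aux {ι : Type} [Fintype ι] (u : V3) (v : ι → V3)
    (hv : ∀ i, ¬ ∃ t : ℝ, v i = t • u) (l m d : V3) (hl : dt l u = 0) (hm : dt m u = 0)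
    (hd : dt d u = 1) (hdet : det3 l m d ≠ 0)
    (hlm : ∀ w : V3, dt l w = 0 → dt m w = 0 → ∃ t : ℝ, w = t • u) :
    ∃ a b d : V3, dt a u = 0 ∧ dt b u = 0 ∧ dt d u = 1 ∧ det3 a b d ≠ 0 ∧
      ∀ i, dt a (v i) ≠ 0 := by
  classical
  obtain ⟨t, ht⟩ := Infinite.exists_notMem_finset
    (Finset.univ.image fun i : ι => - dt l (v i) / dt m (v i))
  have key : ∀ w : V3, dt (fun c => l c + t * m c) w = dt l w + t * dt m w := by
    intro w; simp only [dt]; ring
  refine ⟨fun c => l c + t * m c, m, d, ?_, hm, hd, ?_, ?_⟩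
  · rw [key, hl, hm]; ring
  · have : det3 (fun c => l c + t * m c) m d = det3 l m d := by simp only [det3]; ring
    rw [this]; exact hdet
  · intro i h0
    rw [key] at h0
    by_cases hmi : dt m (v i) = 0
    · rw [hmi, mul_zero, add_zero] at h0
      exact hv i (hlm _ h0 hmi)
    · apply ht
      rw [Finset.mem_image]
      refine ⟨i, Finset.mem_univ _, ?_⟩
      rw [div_eq_iff hmi]
      linarith

theorem functionals {ι : Type} [Fintype ι] (u : V3) (hu : u ≠ 0) (v : ι → V3)
    (hv : ∀ i, ¬ ∃ t : ℝ, v i = t • u) :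
    ∃ a b d : V3, dt a u = 0 ∧ dt b u = 0 ∧ dt d u = 1 ∧ det3 a b d ≠ 0 ∧
      ∀ i, dt a (v i) ≠ 0 := by
  by_cases h0 : u 0 = 0
  · by_cases h1 : u 1 = 0
    · have h2 : u 2 ≠ 0 := by
        intro h2
        apply hu
        funext c
        fin_cases c
        · exact h0
        · exact h1
        · exact h2
      refine functionals_aux u v hv ![u 2, 0, - u 0] ![0, u 2, - u 1] ![0, 0, 1 / u 2]
        (by simp [dt]; ring) (by simp [dt]; ring) (by simp [dt, h2])
        (by simp [det3, h2]) ?_
      intro w ha hb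
      refine ⟨w 2 / u 2, ?_⟩
      simp [dt] at ha hb
      funext c
      fin_cases c
      · simp only [Fin.zero_eta, Pi.smul_apply, smul_eq_mul]
        field_simp
        linarith
      · simp only [Fin.mk_one, Pi.smul_apply, smul_eq_mul]
        field_simp
        linarith
      · simp [h2]
    · refine functionals_aux u v hv ![u 1, - u 0, 0] ![0, u 2, - u 1] ![0, 1 / u 1, 0]
        (by simp [dt]; ring) (by simp [dt]; ring) (by simp [dt, h1])
        (by simp [det3, h1]) ?_
      intro w ha hb
      refine ⟨w 1 / u 1, ?_⟩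
      simp [dt] at ha hb
      funext c
      fin_cases c
      · simp only [Fin.zero_eta, Pi.smul_apply, smul_eq_mul]
        field_simp
        linarith
      · simp [h1]
      · simp only [Fin.reduceFinMk, Pi.smul_apply, smul_eq_mul]
        field_simp
        linarith
  · refine functionals_aux u v hv ![u 1, - u 0, 0] ![u 2, 0, - u 0] ![1 / u 0, 0, 0]
      (by simp [dt]; ring) (by simp [dt]; ring) (by simp [dt, h0])
      (by simp [det3, h0]) ?_
    intro w ha hb
    refine ⟨w 0 / u 0, ?_⟩
    simp [dt] at ha hb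
    funext c
    fin_cases c
    · simp [h0]
    · simp only [Fin.mk_one, Pi.smul_apply, smul_eq_mul]
      field_simp
      linarith
    · simp only [Fin.reduceFinMk, Pi.smul_apply, smul_eq_mul]
      field_simp
      linarith

end H64.BL
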