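import Pool.Agent.H64.BL.GmLin
import Pool.Agent.H64.BL.GmFun

/-!
MODULE GmChart (150 lines): the chart of a red point.

Let `v i = hom (p i)`, `u` not a multiple of any `v i` (given in the form: no `v i` is a multiple of
`u`), `u ≠ 0`, and `a, b, d` from `functionals`. `A i = dt a (v i) ≠ 0`,
`x i = dt b (v i) / A i`, `y i = dt d (v i) / A i`. With `D = det3 a b d ≠ 0` (`det3_mul`):
(1) `D * det3 (v i) (v j) (v k) = A i * A j * A k * ((x j - x i)(y k - y i) - (x k - x i)(y j - y i))`,
(2) `D * det3 (v i) (v j) u = A i * A j * (x j - x i)` (third row `(0, 0, 1)`).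
`col`: `ℓ = lnp p a b` and `i ≠ j` in `ℓ`: `ℓ = lnp p i j` (`lnp_eq`), so `k ∈ ℓ` iff (1) vanishes.
`inj`: `x i = x j`, `y i = y j`: then `dt f (v i) / A i = dt f (v j) / A j` for `f = a, b, d`, and
`D ≠ 0` gives `v i = (A i / A j) • v j` (Cramer: if `dt a z = dt b z = dt d z = 0` then `z = 0`);
the last coordinates are `1`, so `v i = v j`, `p i = p j`, `i = j`.
(3) for `x j ≠ x g`, with `s = sl g j`:
`(x h - x g) * (y h - y g - s * (x h - x g)) = C * P h * (det3 (v g) (v h) u * det3 (v g) (v j) (v h))`
with `P h = 1 / (A h)^2 > 0` and `C = D² / ((x j - x g) * A j * (A g)^2) ≠ 0`: multiply (2) for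
`(g, h)` with (1) for `(g, j, h)`.
-/

set_option autoImplicit false

namespace H64.BL

open Finset

variable {ι : Type} [Fintype ι] [DecidableEq ι]

private lemma gc_key1 (a b d v w z : V3) (hv : dt a v ≠ 0) (hw : dt a w ≠ 0) (hz : dt a z ≠ 0) :
    det3 a b d * det3 v w z = dt a v * dt a w * dt a z *
      ((dt b w / dt a w - dt b v / dt a v) * (dt d z / dt a z - dt d v / dt a v) -
        (dt b z / dt a z - dt b v / dt a v) * (dt d w / dt a w - dt d v / dt a v)) := by
  rw [det3_mul]
  generalize dt a v = A1 at *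
  generalize dt a w = A2 at *
  generalize dt a z = A3 at *
  generalize dt b v = B1 at *
  generalize dt b w = B2 at *
  generalize dt b z = B3 at *
  generalize dt d v = E1 at *
  generalize dt d w = E2 at *
  generalize dt d z = E3 at *
  simp only [det3, Matrix.cons_val_zero, Matrix.cons_val_one, Matrix.cons_val]
  field_simp
  ring

private lemma gc_key2 (a b d v w u : V3) (hv : dt a v ≠ 0) (hw : dt a w ≠ 0)
    (ha : dt a u = 0) (hb : dt b u = 0) (hd : dt d u = 1) :
    det3 a b d * det3 v w u = dt a v * dt a w * (dt b w / dt a w - dt b v / dt a v) := by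
  rw [det3_mul, ha, hb, hd]
  generalize dt a v = A1 at *
  generalize dt a w = A2 at *
  generalize dt b v = B1 at *
  generalize dt b w = B2 at *
  simp only [det3, Matrix.cons_val_zero, Matrix.cons_val_one, Matrix.cons_val]
  field_simp
  ring

private lemma gc_inj (a b d v w z : V3) (hD : det3 a b d ≠ 0) (hv : dt a v ≠ 0) (hw : dt a w ≠ 0)
    (h1 : dt b v / dt a v = dt b w / dt a w) (h2 : dt d v / dt a v = dt d w / dt a w) :
    det3 v w z = 0 := by
  have h : det3 a b d * det3 v w z = 0 := by
    rw [det3_mul]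
    have e1 : dt b v = dt a v * (dt b w / dt a w) := by rw [← h1]; field_simp
    have e2 : dt d v = dt a v * (dt d w / dt a w) := by rw [← h2]; field_simp
    have e3 : dt b w = dt a w * (dt b w / dt a w) := by field_simp
    have e4 : dt d w = dt a w * (dt d w / dt a w) := by field_simp
    generalize dt b w / dt a w = X at *
    generalize dt d w / dt a w = Y at *
    rw [e1, e2, e3, e4]
    simp only [det3, Matrix.cons_val_zero, Matrix.cons_val_one, Matrix.cons_val]
    ring
  rcases mul_eq_zero.1 h with h | h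
  · exact absurd h hD
  · exact h

theorem chart_exists (p : ι → ℝ × ℝ) (hp : Function.Injective p)
    (hnc : ∃ i j k, det3 (hom (p i)) (hom (p j)) (hom (p k)) ≠ 0) (u : V3) (hu : u ≠ 0)
    (hv : ∀ i, ¬ ∃ t : ℝ, hom (p i) = t • u) :
    ∃ c : Chart (linSp p hp hnc),
      (∀ i j, c.x i = c.x j ↔ det3 (hom (p i)) (hom (p j)) u = 0) ∧
      (∀ g j, c.x j ≠ c.x g → ∃ C : ℝ, C ≠ 0 ∧ ∀ h, ∃ P : ℝ, 0 < P ∧
        (c.x h - c.x g) * (c.y h - c.y g - c.sl g j * (c.x h - c.x g)) =
          C * P * (det3 (hom (p g)) (hom (p h)) u *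
            det3 (hom (p g)) (hom (p j)) (hom (p h)))) := by
  obtain ⟨a, b, d, ha, hb, hd, hD, hA⟩ := functionals u hu (fun i => hom (p i)) hv
  have key1 : ∀ i j k, det3 a b d * det3 (hom (p i)) (hom (p j)) (hom (p k)) =
      dt a (hom (p i)) * dt a (hom (p j)) * dt a (hom (p k)) *
      ((dt b (hom (p j)) / dt a (hom (p j)) - dt b (hom (p i)) / dt a (hom (p i))) *
        (dt d (hom (p k)) / dt a (hom (p k)) - dt d (hom (p i)) / dt a (hom (p i))) -
        (dt b (hom (p k)) / dt a (hom (p k)) - dt b (hom (p i)) / dt a (hom (p i))) *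
        (dt d (hom (p j)) / dt a (hom (p j)) - dt d (hom (p i)) / dt a (hom (p i)))) :=
    fun i j k => gc_key1 a b d _ _ _ (hA i) (hA j) (hA k)
  have key2 : ∀ i j, det3 a b d * det3 (hom (p i)) (hom (p j)) u =
      dt a (hom (p i)) * dt a (hom (p j)) *
      (dt b (hom (p j)) / dt a (hom (p j)) - dt b (hom (p i)) / dt a (hom (p i))) :=
    fun i j => gc_key2 a b d _ _ u (hA i) (hA j) ha hb hd
  have hzero : ∀ i j k, det3 (hom (p i)) (hom (p j)) (hom (p k)) = 0 ↔
      (dt b (hom (p j)) / dt a (hom (p j)) - dt b (hom (p i)) / dt a (hom (p i))) *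
        (dt d (hom (p k)) / dt a (hom (p k)) - dt d (hom (p i)) / dt a (hom (p i))) =
        (dt b (hom (p k)) / dt a (hom (p k)) - dt b (hom (p i)) / dt a (hom (p i))) *
        (dt d (hom (p j)) / dt a (hom (p j)) - dt d (hom (p i)) / dt a (hom (p i))) := by
    intro i j k
    have h1 := key1 i j k
    have hne : dt a (hom (p i)) * dt a (hom (p j)) * dt a (hom (p k)) ≠ 0 :=
      mul_ne_zero (mul_ne_zero (hA i) (hA j)) (hA k)
    constructor
    · intro h
      rw [h, mul_zero] at h1
      rcases mul_eq_zero.1 h1.symm with h2 | h2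
      · exact absurd h2 hne
      · exact sub_eq_zero.1 h2
    · intro h
      rw [sub_eq_zero.2 h, mul_zero] at h1
      rcases mul_eq_zero.1 h1 with h2 | h2
      · exact absurd h2 hD
      · exact h2
  let c : Chart (linSp p hp hnc) :=
    { x := fun i => dt b (hom (p i)) / dt a (hom (p i))
      y := fun i => dt d (hom (p i)) / dt a (hom (p i))
      inj := by
        intro i j h1 h2
        have e0 := gc_inj a b d (hom (p i)) (hom (p j)) ![1, 0, 0] hD (hA i) (hA j) h1 h2
        have e1 := gc_inj a b d (hom (p i)) (hom (p j)) ![0, 1, 0] hD (hA i) (hA j) h1 h2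
        simp [det3, hom] at e0 e1
        apply hp
        apply Prod.ext
        · linarith
        · linarith
      col := by
        intro ℓ hℓ i hi j hj hij k
        obtain ⟨a', b', hab, rfl⟩ := (mem_pls p ℓ).1 hℓ
        rw [← lnp_eq p hp a' b' i j hab hij hi hj, mem_lnp]
        exact hzero i j k }
  refine ⟨c, ?_, ?_⟩
  · intro i j
    change dt b (hom (p i)) / dt a (hom (p i)) = dt b (hom (p j)) / dt a (hom (p j)) ↔ _
    have h1 := key2 i j
    have hne : dt a (hom (p i)) * dt a (hom (p j)) ≠ 0 := mul_ne_zero (hA i) (hA j)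
    constructor
    · intro h
      rw [h, sub_self, mul_zero] at h1
      rcases mul_eq_zero.1 h1 with h2 | h2
      · exact absurd h2 hD
      · exact h2
    · intro h
      rw [h, mul_zero] at h1
      rcases mul_eq_zero.1 h1.symm with h2 | h2
      · exact absurd h2 hne
      · exact (sub_eq_zero.1 h2).symm
  · intro g j hgj
    change dt b (hom (p j)) / dt a (hom (p j)) ≠ dt b (hom (p g)) / dt a (hom (p g)) at hgj
    have hne : dt b (hom (p j)) / dt a (hom (p j)) - dt b (hom (p g)) / dt a (hom (p g)) ≠ 0 :=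
      sub_ne_zero.2 hgj
    refine ⟨det3 a b d ^ 2 / ((dt b (hom (p j)) / dt a (hom (p j)) -
      dt b (hom (p g)) / dt a (hom (p g))) * dt a (hom (p j)) * dt a (hom (p g)) ^ 2), ?_, ?_⟩
    · exact div_ne_zero (pow_ne_zero _ hD)
        (mul_ne_zero (mul_ne_zero hne (hA j)) (pow_ne_zero _ (hA g)))
    · intro h
      refine ⟨1 / dt a (hom (p h)) ^ 2, by have := hA h; positivity, ?_⟩
      change (dt b (hom (p h)) / dt a (hom (p h)) - dt b (hom (p g)) / dt a (hom (p g))) *
        (dt d (hom (p h)) / dt a (hom (p h)) - dt d (hom (p g)) / dt a (hom (p g)) -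
          (dt d (hom (p j)) / dt a (hom (p j)) - dt d (hom (p g)) / dt a (hom (p g))) /
          (dt b (hom (p j)) / dt a (hom (p j)) - dt b (hom (p g)) / dt a (hom (p g))) *
          (dt b (hom (p h)) / dt a (hom (p h)) - dt b (hom (p g)) / dt a (hom (p g)))) = _
      have k1 := key1 g j h
      have k2 := key2 g h
      have hAg := hA g
      have hAj := hA j
      have hAh := hA h
      generalize det3 (hom (p g)) (hom (p h)) u = T2 at *
      generalize det3 (hom (p g)) (hom (p j)) (hom (p h)) = T1 at *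
      generalize dt b (hom (p j)) / dt a (hom (p j)) = xj at *
      generalize dt b (hom (p g)) / dt a (hom (p g)) = xg at *
      generalize dt b (hom (p h)) / dt a (hom (p h)) = xh at *
      generalize dt d (hom (p j)) / dt a (hom (p j)) = yj at *
      generalize dt d (hom (p g)) / dt a (hom (p g)) = yg at *
      generalize dt d (hom (p h)) / dt a (hom (p h)) = yh at *
      generalize dt a (hom (p g)) = Ag at *
      generalize dt a (hom (p j)) = Aj at *
      generalize dt a (hom (p h)) = Ah at *
      clear_value c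
      clear key1 key2 hzero
      generalize det3 a b d = D at *
      have e : D ^ 2 * (T2 * T1) = (Ag * Ah * (xh - xg)) *
          (Ag * Aj * Ah * ((xj - xg) * (yh - yg) - (xh - xg) * (yj - yg))) := by
        rw [← k1, ← k2]; ring
      have e2 : D ^ 2 / ((xj - xg) * Aj * Ag ^ 2) * (1 / Ah ^ 2) * (T2 * T1) =
          (D ^ 2 * (T2 * T1)) / ((xj - xg) * Aj * Ag ^ 2 * Ah ^ 2) := by
        field_simp
      rw [e2, e]
      field_simp

end H64.BL
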