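import Pool.Agent.H64.BL.Defs

/-!
# Geometry: the linear space of a finite planar point set

`hom P = (P.1, P.2, 1)`, `det3` the determinant of three vectors, `dt` the dot product.
`lnp p i j`: the points on the line through `p i`, `p j`. `pls p`: all connecting lines.
-/

set_option autoImplicit false

namespace H64.BL

open Finset

abbrev V3 := Fin 3 → ℝ

/-- homogeneous coordinates of a point of the affine plane -/
def hom (P : ℝ × ℝ) : V3 := ![P.1, P.2, 1]

/-- determinant of three vectors -/
def det3 (a b c : V3) : ℝ :=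
  a 0 * (b 1 * c 2 - b 2 * c 1) - a 1 * (b 0 * c 2 - b 2 * c 0) + a 2 * (b 0 * c 1 - b 1 * c 0)

def dt (a v : V3) : ℝ := a 0 * v 0 + a 1 * v 1 + a 2 * v 2

variable {ι : Type} [Fintype ι] [DecidableEq ι]

/-- the points on the line through `p i` and `p j` -/
noncomputable def lnp (p : ι → ℝ × ℝ) (i j : ι) : Finset ι :=
  univ.filter (fun k => det3 (hom (p i)) (hom (p j)) (hom (p k)) = 0)

/-- the connecting lines of `p` -/
noncomputable def pls (p : ι → ℝ × ℝ) : Finset (Finset ι) :=
  (univ : Finset ι).offDiag.image (fun q => lnp p q.1 q.2)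

theorem det3_hom (P Q T : ℝ × ℝ) :
    det3 (hom P) (hom Q) (hom T) = (Q.1 - P.1) * (T.2 - P.2) - (T.1 - P.1) * (Q.2 - P.2) := by
  simp [det3, hom]; ring

/-- product of determinants -/
theorem det3_mul (a b d v w z : V3) :
    det3 a b d * det3 v w z =
      det3 ![dt a v, dt b v, dt d v] ![dt a w, dt b w, dt d w] ![dt a z, dt b z, dt d z] := by
  simp [det3, dt]; ring

end H64.BL
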