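import Pool.Agent.H64.BL.GmDefs

/-!
MODULE GmLin (130 lines): the connecting lines form a linear space.

`comb`: for `P ≠ Q` and `det3 (hom P) (hom Q) x = 0` the vector `x` is a combination of `hom P` and
`hom Q`. Proof: let `P.1 ≠ Q.1` (the case `P.2 ≠ Q.2` is similar). Solve `α + β = x 2`,
`α P.1 + β Q.1 = x 0`; the vanishing determinant gives the third equation (`field_simp`,
`linear_combination`).
`span3`: if `x, y, z` all satisfy `det3 (hom P) (hom Q) · = 0`, `P ≠ Q`, then `det3 x y z = 0`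
(write them as combinations; `det3` of three combinations of two vectors is `0`: `simp [det3]; ring`).
`lnp_eq`: for `i ≠ j` and `k ≠ l` in `lnp p i j`: `lnp p k l = lnp p i j` (`span3` in both
directions; `i, j ∈ lnp p k l` by `span3`).
The four fields of the linear space follow: `two`: `i, j ∈ lnp p i j`; `ex`; `uniq`:
`ℓ = lnp p a b`, `ℓ' = lnp p a' b'`, both equal `lnp p i j` by `lnp_eq`; `noncol`: if all points are
in `lnp p a b` then all `det3` vanish by `span3`.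
-/

set_option autoImplicit false

namespace H64.BL

open Finset

variable {ι : Type} [Fintype ι] [DecidableEq ι]

theorem comb (P Q : ℝ × ℝ) (h : P ≠ Q) (x : V3) (hx : det3 (hom P) (hom Q) x = 0) :
    ∃ α β : ℝ, x = α • hom P + β • hom Q := by
  have hdet : P.1 * (Q.2 * x 2 - x 1) - P.2 * (Q.1 * x 2 - x 0) + (Q.1 * x 1 - Q.2 * x 0) = 0 := by
    have h1 := hx
    simp only [det3, hom, Matrix.cons_val_zero, Matrix.cons_val_one, Matrix.cons_val] at h1
    linarith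
  by_cases h1 : P.1 = Q.1
  · have h2 : P.2 ≠ Q.2 := fun h2 => h (Prod.ext h1 h2)
    have h3 : Q.2 - P.2 ≠ 0 := sub_ne_zero.2 (Ne.symm h2)
    refine ⟨(Q.2 * x 2 - x 1) / (Q.2 - P.2), (x 1 - P.2 * x 2) / (Q.2 - P.2), ?_⟩
    funext i
    fin_cases i
    · simp only [hom, Fin.zero_eta, Pi.add_apply, Pi.smul_apply, smul_eq_mul,
        Matrix.cons_val_zero]
      field_simp
      rw [h1] at hdet ⊢
      linarith
    · simp only [hom, Fin.mk_one, Pi.add_apply, Pi.smul_apply, smul_eq_mul,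
        Matrix.cons_val_one, Matrix.cons_val_zero]
      field_simp
      ring
    · simp only [hom, Fin.reduceFinMk, Pi.add_apply, Pi.smul_apply, smul_eq_mul,
        Matrix.cons_val]
      field_simp
      ring
  · have h3 : Q.1 - P.1 ≠ 0 := sub_ne_zero.2 (Ne.symm h1)
    refine ⟨(Q.1 * x 2 - x 0) / (Q.1 - P.1), (x 0 - P.1 * x 2) / (Q.1 - P.1), ?_⟩
    funext i
    fin_cases i
    · simp only [hom, Fin.zero_eta, Pi.add_apply, Pi.smul_apply, smul_eq_mul,
        Matrix.cons_val_zero]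
      field_simp
      ring
    · simp only [hom, Fin.mk_one, Pi.add_apply, Pi.smul_apply, smul_eq_mul,
        Matrix.cons_val_one, Matrix.cons_val_zero]
      field_simp
      linarith
    · simp only [hom, Fin.reduceFinMk, Pi.add_apply, Pi.smul_apply, smul_eq_mul,
        Matrix.cons_val]
      field_simp
      ring

theorem span3 (P Q : ℝ × ℝ) (h : P ≠ Q) (x y z : V3) (hx : det3 (hom P) (hom Q) x = 0)
    (hy : det3 (hom P) (hom Q) y = 0) (hz : det3 (hom P) (hom Q) z = 0) : det3 x y z = 0 := by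
  obtain ⟨a, b, rfl⟩ := comb P Q h x hx
  obtain ⟨a', b', rfl⟩ := comb P Q h y hy
  obtain ⟨a'', b'', rfl⟩ := comb P Q h z hz
  simp only [det3, Pi.add_apply, Pi.smul_apply, smul_eq_mul]
  ring

theorem mem_lnp (p : ι → ℝ × ℝ) (i j k : ι) :
    k ∈ lnp p i j ↔ det3 (hom (p i)) (hom (p j)) (hom (p k)) = 0 := by
  simp [lnp]

theorem mem_pls (p : ι → ℝ × ℝ) (ℓ : Finset ι) :
    ℓ ∈ pls p ↔ ∃ i j, i ≠ j ∧ lnp p i j = ℓ := by
  simp [pls]

theorem lnp_eq (p : ι → ℝ × ℝ) (hp : Function.Injective p) (i j k l : ι) (hij : i ≠ j)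
    (hkl : k ≠ l) (hk : k ∈ lnp p i j) (hl : l ∈ lnp p i j) : lnp p k l = lnp p i j := by
  have hne : p i ≠ p j := fun h => hij (hp h)
  have hne2 : p k ≠ p l := fun h => hkl (hp h)
  rw [mem_lnp] at hk hl
  have hi0 : det3 (hom (p i)) (hom (p j)) (hom (p i)) = 0 := by simp only [det3]; ring
  have hj0 : det3 (hom (p i)) (hom (p j)) (hom (p j)) = 0 := by simp only [det3]; ring
  ext m
  rw [mem_lnp, mem_lnp]
  constructor
  · intro hm
    have h1 := span3 (p i) (p j) hne _ _ _ hk hl hi0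
    have h2 := span3 (p i) (p j) hne _ _ _ hk hl hj0
    exact span3 (p k) (p l) hne2 _ _ _ h1 h2 hm
  · intro hm
    exact span3 (p i) (p j) hne _ _ _ hk hl hm

private theorem left_mem (p : ι → ℝ × ℝ) (i j : ι) : i ∈ lnp p i j := by
  rw [mem_lnp]; simp only [det3]; ring

private theorem right_mem (p : ι → ℝ × ℝ) (i j : ι) : j ∈ lnp p i j := by
  rw [mem_lnp]; simp only [det3]; ring

theorem pls_two (p : ι → ℝ × ℝ) : ∀ ℓ ∈ pls p, 2 ≤ ℓ.card := by
  intro ℓ hℓ
  obtain ⟨i, j, hij, rfl⟩ := (mem_pls p ℓ).1 hℓ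
  have : ({i, j} : Finset ι) ⊆ lnp p i j := by
    intro k hk
    rw [Finset.mem_insert, Finset.mem_singleton] at hk
    rcases hk with rfl | rfl
    · exact left_mem p _ _
    · exact right_mem p _ _
  have h2 := Finset.card_le_card this
  rwa [Finset.card_pair hij] at h2

theorem pls_ex (p : ι → ℝ × ℝ) : ∀ i j : ι, i ≠ j → ∃ ℓ ∈ pls p, i ∈ ℓ ∧ j ∈ ℓ := by
  intro i j hij
  exact ⟨lnp p i j, (mem_pls p _).2 ⟨i, j, hij, rfl⟩, left_mem p i j, right_mem p i j⟩

theorem pls_uniq (p : ι → ℝ × ℝ) (hp : Function.Injective p) :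
    ∀ ℓ ∈ pls p, ∀ ℓ' ∈ pls p, ∀ i j : ι, i ≠ j → i ∈ ℓ → j ∈ ℓ → i ∈ ℓ' → j ∈ ℓ' → ℓ = ℓ' := by
  intro ℓ hℓ ℓ' hℓ' i j hij hi hj hi' hj'
  obtain ⟨a, b, hab, rfl⟩ := (mem_pls p ℓ).1 hℓ
  obtain ⟨a', b', hab', rfl⟩ := (mem_pls p ℓ').1 hℓ'
  rw [← lnp_eq p hp a b i j hab hij hi hj, ← lnp_eq p hp a' b' i j hab' hij hi' hj']

theorem pls_noncol (p : ι → ℝ × ℝ) (hp : Function.Injective p)
    (hnc : ∃ i j k, det3 (hom (p i)) (hom (p j)) (hom (p k)) ≠ 0) :
    ∀ ℓ ∈ pls p, ∃ i, i ∉ ℓ := by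
  intro ℓ hℓ
  obtain ⟨a, b, hab, rfl⟩ := (mem_pls p ℓ).1 hℓ
  by_contra hcon
  push Not at hcon
  obtain ⟨i, j, k, hne⟩ := hnc
  exact hne (span3 (p a) (p b) (fun h => hab (hp h)) _ _ _ ((mem_lnp p a b i).1 (hcon i))
    ((mem_lnp p a b j).1 (hcon j)) ((mem_lnp p a b k).1 (hcon k)))

/-- the linear space of the points `p i` -/
noncomputable def linSp (p : ι → ℝ × ℝ) (hp : Function.Injective p)
    (hnc : ∃ i j k, det3 (hom (p i)) (hom (p j)) (hom (p k)) ≠ 0) : LinSp ι where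
  L := pls p
  two := pls_two p
  ex := pls_ex p
  uniq := pls_uniq p hp
  noncol := pls_noncol p hp hnc

end H64.BL
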