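import Pool.Agent.H64.BL.HgDraw

/-!
MODULE HgCross (130 lines): the number of ordered crossings of the dual graph is at most the
number of ordered pairs of points whose line is not in `H`:
`crO (segs c H nx) ≤ ∑_{ℓ ∈ S.L \ H} |ℓ| (|ℓ| - 1)`.

Let `(e, f)` be a crossing pair, `e = seg q`, `f = seg q'`, `q, q' ∈ idx c H`, `e ≠ f`, crossing at
the abscissa `X`. Put `i = q.1`, `j = q'.1`.
* `i ≠ j`: if `i = j` then `q.2 ≠ q'.2`, their slopes are different (`sl_unique`), say
  `slope q.2 < slope q'.2`; by minimality of `nx q`, `slope (nx q) ≤ slope q'.2`, but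
  `slope q'.2 < X < slope (nx q)`, contradiction.
* `x i * X - y i = x j * X - y j` (`segH_seg`), so `X = c.sl i j`. Let `m ∈ S.L` be the line through
  `i, j`; `(dv c m).1 = c.sl i j = X` (`slope_eq`). `m ∉ H`: otherwise `dv c m` is a vertex interior
  to `e` (`mem_iff`, `free` of `draw`).
* the map `(e, f) ↦ (i, j)` is injective on the crossing pairs: `X = c.sl i j` is determined, and
  `q.2` is determined by `i` and `X`: if `q = (i, ℓ)`, `q₂ = (i, ℓ₂)` both have
  `slope ℓ < X < slope (nx ..)`, then `slope ℓ < slope ℓ₂` would give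
  `slope (nx q) ≤ slope ℓ₂ < X`, contradiction; so `ℓ = ℓ₂` by `sl_unique`.
* the pairs `(i, j)`, `i ≠ j`, whose line is not in `H`, are the disjoint union over
  `m ∈ S.L \ H` of `m.offDiag`, of cardinality `|m| (|m| - 1)` (`S.ex`, `S.uniq`,
  `Finset.offDiag_card`; it suffices to bound by the sum: `card_biUnion_le`).
-/

set_option autoImplicit false

namespace H64.BL

open Finset

variable {ι : Type} [Fintype ι] [DecidableEq ι] {S : LinSp ι}

private theorem idx_info (c : Chart S) (H : Finset (Finset ι)) (q : ι × Finset ι)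
    (hq : q ∈ idx c H) : q.2 ∈ H ∧ q.1 ∈ q.2 := by
  unfold idx at hq
  obtain ⟨h1, h2, _⟩ := Finset.mem_filter.1 hq
  exact ⟨(Finset.mem_product.1 h1).2, h2⟩

private theorem same_of (c : Chart S) (hx : Function.Injective c.x) (H : Finset (Finset ι))
    (hH : H ⊆ S.L) (nx : ι × Finset ι → Finset ι) (hn : ∀ q ∈ idx c H, IsNxt c H q (nx q))
    (q q' : ι × Finset ι) (hq : q ∈ idx c H) (hq' : q' ∈ idx c H) (hi : q.1 = q'.1) (X : ℝ)
    (h1 : (dv c q.2).1 < X) (h2 : X < (dv c (nx q)).1)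
    (h3 : (dv c q'.2).1 < X) (h4 : X < (dv c (nx q')).1) : q = q' := by
  obtain ⟨a1, a2⟩ := idx_info c H q hq
  obtain ⟨b1, b2⟩ := idx_info c H q' hq'
  have hs : q.2 = q'.2 := by
    apply sl_unique c hx q.2 q'.2 (hH a1) (hH b1) q.1 a2 (by rw [hi]; exact b2)
    rcases lt_trichotomy (dv c q.2).1 (dv c q'.2).1 with h | h | h
    · exfalso
      have := (hn q hq).2.2.2 q'.2 b1 (by rw [hi]; exact b2) h
      linarith
    · exact h
    · exfalso
      have := (hn q' hq').2.2.2 q.2 a1 (by rw [← hi]; exact a2) h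
      linarith
  exact Prod.ext hi hs

private theorem cross_info (c : Chart S) (hx : Function.Injective c.x) (H : Finset (Finset ι))
    (hH : H ⊆ S.L) (nx : ι × Finset ι → Finset ι) (hn : ∀ q ∈ idx c H, IsNxt c H q (nx q))
    (q q' : ι × Finset ι) (hq : q ∈ idx c H) (hq' : q' ∈ idx c H)
    (hne : seg c nx q ≠ seg c nx q') (hc : Crs (seg c nx q) (seg c nx q')) :
    q.1 ≠ q'.1 ∧ ∃ m ∈ S.L \ H, q.1 ∈ m ∧ q'.1 ∈ m ∧
      (dv c q.2).1 < (dv c m).1 ∧ (dv c m).1 < (dv c (nx q)).1 ∧
      (dv c q'.2).1 < (dv c m).1 ∧ (dv c m).1 < (dv c (nx q')).1 := by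
  obtain ⟨X, h1, h3, h2, h4, h5⟩ := hc
  have h1' : (dv c q.2).1 < X := h1
  have h2' : X < (dv c (nx q)).1 := h2
  have h3' : (dv c q'.2).1 < X := h3
  have h4' : X < (dv c (nx q')).1 := h4
  have hij : q.1 ≠ q'.1 := by
    intro hi
    have := same_of c hx H hH nx hn q q' hq hq' hi X h1' h2' h3' h4'
    exact hne (by rw [this])
  rw [(segH_seg c hx H hH nx hn q hq).2 X, (segH_seg c hx H hH nx hn q' hq').2 X] at h5
  have hxx : c.x q'.1 - c.x q.1 ≠ 0 := by
    intro h
    exact hij (hx (by linarith))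
  obtain ⟨m, hm, hi, hj⟩ := S.ex q.1 q'.1 hij
  have hX : (dv c m).1 = X := by
    rw [slope_eq c hx m hm q.1 q'.1 hij hi hj]
    unfold Chart.sl
    rw [div_eq_iff hxx]
    linarith
  refine ⟨hij, m, ?_, hi, hj, ?_, ?_, ?_, ?_⟩
  · rw [Finset.mem_sdiff]
    refine ⟨hm, ?_⟩
    intro hmH
    have hseg : seg c nx q ∈ segs c H nx := by
      unfold segs
      exact Finset.mem_image_of_mem _ hq
    have hdv : dv c m ∈ dvs c H := by
      unfold dvs
      exact Finset.mem_image_of_mem _ hmH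
    refine (draw c hx H hH nx hn).free _ hseg _ hdv (by rw [hX]; exact h1') (by rw [hX]; exact h2') ?_
    rw [(segH_seg c hx H hH nx hn q hq).2]
    exact ((mem_iff c hx m hm q.1).1 hi).symm
  · rw [hX]; exact h1'
  · rw [hX]; exact h2'
  · rw [hX]; exact h3'
  · rw [hX]; exact h4'

theorem crO_le (c : Chart S) (hx : Function.Injective c.x) (H : Finset (Finset ι))
    (hH : H ⊆ S.L) (nx : ι × Finset ι → Finset ι) (hn : ∀ q ∈ idx c H, IsNxt c H q (nx q)) :
    crO (segs c H nx) ≤ ∑ ℓ ∈ S.L \ H, ℓ.card * (ℓ.card - 1) := by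
  classical
  have hex : ∀ e : Seg, e ∈ segs c H nx → ∃ q : ι × Finset ι, q ∈ idx c H ∧ seg c nx q = e := by
    intro e he
    unfold segs at he
    obtain ⟨q, hq, hqe⟩ := Finset.mem_image.1 he
    exact ⟨q, hq, hqe⟩
  by_cases hne : Nonempty (ι × Finset ι)
  · choose! g hg hge using hex
    have hbi : crO (segs c H nx) ≤ ((S.L \ H).biUnion (fun m => m.offDiag)).card := by
      unfold crO
      apply Finset.card_le_card_of_injOn (fun p : Seg × Seg => ((g p.1).1, (g p.2).1))
      · intro p hp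
        obtain ⟨hp1, hp2, hp3⟩ := Finset.mem_filter.1 hp
        obtain ⟨he, hf⟩ := Finset.mem_product.1 hp1
        rw [← hge _ he, ← hge _ hf] at hp2 hp3
        obtain ⟨hij, m, hm, hi, hj, _⟩ := cross_info c hx H hH nx hn _ _ (hg _ he) (hg _ hf)
          hp2 hp3
        simp only [Finset.mem_coe, Finset.mem_biUnion, Finset.mem_offDiag]
        exact ⟨m, hm, hi, hj, hij⟩
      · intro p hp p' hp' hpp
        obtain ⟨hp1, hp2, hp3⟩ := Finset.mem_filter.1 hp
        obtain ⟨he, hf⟩ := Finset.mem_product.1 hp1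
        obtain ⟨hp1', hp2', hp3'⟩ := Finset.mem_filter.1 hp'
        obtain ⟨he', hf'⟩ := Finset.mem_product.1 hp1'
        rw [← hge _ he, ← hge _ hf] at hp2 hp3
        rw [← hge _ he', ← hge _ hf'] at hp2' hp3'
        obtain ⟨hij, m, hm, hi, hj, a1, a2, a3, a4⟩ :=
          cross_info c hx H hH nx hn _ _ (hg _ he) (hg _ hf) hp2 hp3
        obtain ⟨hij', m', hm', hi', hj', b1, b2, b3, b4⟩ :=
          cross_info c hx H hH nx hn _ _ (hg _ he') (hg _ hf') hp2' hp3'
        have e1 : (g p.1).1 = (g p'.1).1 := (Prod.mk.inj hpp).1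
        have e2 : (g p.2).1 = (g p'.2).1 := (Prod.mk.inj hpp).2
        have hmm : m = m' := S.uniq m (Finset.mem_sdiff.1 hm).1 m' (Finset.mem_sdiff.1 hm').1
          (g p.1).1 (g p.2).1 hij hi hj (by rw [e1]; exact hi') (by rw [e2]; exact hj')
        subst hmm
        have f1 := same_of c hx H hH nx hn _ _ (hg _ he) (hg _ he') e1 _ a1 a2 b1 b2
        have f2 := same_of c hx H hH nx hn _ _ (hg _ hf) (hg _ hf') e2 _ a3 a4 b3 b4
        apply Prod.ext
        · rw [← hge _ he, ← hge _ he', f1]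
        · rw [← hge _ hf, ← hge _ hf', f2]
    refine le_trans hbi (le_trans Finset.card_biUnion_le ?_)
    apply Finset.sum_le_sum
    intro m _
    rw [Finset.offDiag_card, Nat.mul_sub, mul_one]
  · have : segs c H nx = ∅ := by
      rw [Finset.eq_empty_iff_forall_notMem]
      intro e he
      obtain ⟨q, _⟩ := hex e he
      exact hne ⟨q⟩
    rw [this]
    simp [crO]

end H64.BL
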