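import Pool.Agent.H64.BL.HgNxt

/-!
MODULE HgDraw (120 lines): the dual graph is a drawing.

`nx` is a choice function with `IsNxt c H q (nx q)` for `q ∈ idx c H`. Vertices: `dv c ℓ`, `ℓ ∈ H`.
Edges: `seg c nx q = (dv c q.2, dv c (nx q))`, `q ∈ idx c H`: a piece of the dual line of `q.1`.

`segH_seg`: for `q ∈ idx c H`: `segH (seg c nx q) X = c.x q.1 * X - c.y q.1`, because both ends are
on the dual line of `q.1` (`mem_iff`) and have different abscissas; in particular
`segSl (seg c nx q) = c.x q.1`.
`seg_inj`: `seg` is injective on `idx c H`: the slope of the segment gives `q.1` (`hx`), the left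
end gives `q.2` (`dv_inj`).
`draw`: `Drawing (H.image (dv c)) ((idx c H).image (seg c nx))`. `free`: if `dv c m`, `m ∈ H`, is
interior to `seg c nx q` then it lies on the dual line of `q.1`, so `q.1 ∈ m` by `mem_iff`, and its
abscissa is strictly between the slopes of `q.2` and `nx q`, contradiction to the minimality.
`verts_card`, `edges_card`: `card_image_of_injOn`.
-/

set_option autoImplicit false

namespace H64.BL

open Finset

variable {ι : Type} [Fintype ι] [DecidableEq ι] {S : LinSp ι}

noncomputable def seg (c : Chart S) (nx : ι × Finset ι → Finset ι) (q : ι × Finset ι) : Seg :=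
  (dv c q.2, dv c (nx q))

open Classical in
noncomputable def dvs (c : Chart S) (H : Finset (Finset ι)) : Finset (ℝ × ℝ) := H.image (dv c)

open Classical in
noncomputable def segs (c : Chart S) (H : Finset (Finset ι)) (nx : ι × Finset ι → Finset ι) :
    Finset Seg := (idx c H).image (seg c nx)

private theorem hgd_mem (c : Chart S) (H : Finset (Finset ι)) (q : ι × Finset ι)
    (hq : q ∈ idx c H) : q.2 ∈ H ∧ q.1 ∈ q.2 := by
  unfold idx at hq
  rw [mem_filter, mem_product] at hq
  exact ⟨hq.1.2, hq.2.1⟩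

theorem segH_seg (c : Chart S) (hx : Function.Injective c.x) (H : Finset (Finset ι))
    (hH : H ⊆ S.L) (nx : ι × Finset ι → Finset ι) (hn : ∀ q ∈ idx c H, IsNxt c H q (nx q))
    (q : ι × Finset ι) (hq : q ∈ idx c H) :
    segSl (seg c nx q) = c.x q.1 ∧ ∀ X, segH (seg c nx q) X = c.x q.1 * X - c.y q.1 := by
  obtain ⟨h1, h2⟩ := hgd_mem c H q hq
  obtain ⟨h3, h4, h5, _⟩ := hn q hq
  have e1 := (mem_iff c hx q.2 (hH h1) q.1).1 h2
  have e2 := (mem_iff c hx (nx q) (hH h3) q.1).1 h4
  have h6 : (dv c (nx q)).1 - (dv c q.2).1 ≠ 0 := by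
    have : 0 < (dv c (nx q)).1 - (dv c q.2).1 := sub_pos.2 h5
    exact this.ne'
  have hs : segSl (seg c nx q) = c.x q.1 := by
    unfold segSl seg
    simp only
    rw [div_eq_iff h6, ← e1, ← e2]
    ring
  refine ⟨hs, fun X => ?_⟩
  unfold segH
  rw [hs]
  unfold seg
  simp only
  rw [← e1]
  ring

theorem seg_inj (c : Chart S) (hx : Function.Injective c.x) (H : Finset (Finset ι))
    (hH : H ⊆ S.L) (nx : ι × Finset ι → Finset ι) (hn : ∀ q ∈ idx c H, IsNxt c H q (nx q)) :
    Set.InjOn (seg c nx) (idx c H : Set (ι × Finset ι)) := by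
  intro q hq q' hq' h
  rw [mem_coe] at hq hq'
  have h1 := (segH_seg c hx H hH nx hn q hq).1
  have h2 := (segH_seg c hx H hH nx hn q' hq').1
  have h3 : q.1 = q'.1 := hx (by rw [← h1, ← h2, h])
  have h4 : q.2 = q'.2 := by
    have h5 : (seg c nx q).1 = (seg c nx q').1 := by rw [h]
    exact dv_inj c hx q.2 q'.2 (hH (hgd_mem c H q hq).1) (hH (hgd_mem c H q' hq').1) h5
  exact Prod.ext h3 h4

theorem draw (c : Chart S) (hx : Function.Injective c.x) (H : Finset (Finset ι))
    (hH : H ⊆ S.L) (nx : ι × Finset ι → Finset ι) (hn : ∀ q ∈ idx c H, IsNxt c H q (nx q)) :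
    Drawing (dvs c H) (segs c H nx) := by
  classical
  constructor
  · intro e he
    unfold segs at he
    rw [mem_image] at he
    obtain ⟨q, hq, rfl⟩ := he
    exact (hn q hq).2.2.1
  · intro e he
    unfold segs at he
    rw [mem_image] at he
    obtain ⟨q, hq, rfl⟩ := he
    unfold dvs seg
    exact mem_image_of_mem _ (hgd_mem c H q hq).1
  · intro e he
    unfold segs at he
    rw [mem_image] at he
    obtain ⟨q, hq, rfl⟩ := he
    unfold dvs seg
    exact mem_image_of_mem _ (hn q hq).1
  · intro e he v hv h1 h2 h3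
    unfold segs at he
    rw [mem_image] at he
    obtain ⟨q, hq, rfl⟩ := he
    unfold dvs at hv
    rw [mem_image] at hv
    obtain ⟨m, hm, rfl⟩ := hv
    rw [(segH_seg c hx H hH nx hn q hq).2] at h3
    have h4 : q.1 ∈ m := by
      rw [mem_iff c hx m (hH hm) q.1]
      linarith
    obtain ⟨_, _, _, h8⟩ := hn q hq
    have h9 := h8 m hm h4 h1
    have h10 : (dv c m).1 < (dv c (nx q)).1 := h2
    exact absurd h9 (not_le.2 h10)

theorem verts_card (c : Chart S) (hx : Function.Injective c.x) (H : Finset (Finset ι))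
    (hH : H ⊆ S.L) : (dvs c H).card = H.card := by
  classical
  unfold dvs
  refine card_image_of_injOn fun ℓ hℓ ℓ' hℓ' h => ?_
  exact dv_inj c hx ℓ ℓ' (hH (mem_coe.1 hℓ)) (hH (mem_coe.1 hℓ')) h

theorem edges_card (c : Chart S) (hx : Function.Injective c.x) (H : Finset (Finset ι))
    (hH : H ⊆ S.L) (nx : ι × Finset ι → Finset ι) (hn : ∀ q ∈ idx c H, IsNxt c H q (nx q)) :
    (segs c H nx).card = (idx c H).card := by
  classical
  unfold segs
  exact card_image_of_injOn (seg_inj c hx H hH nx hn)

end H64.BL
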