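import Pool.Agent.H64.BL.Defs
import Pool.Agent.H64.BL.GDefs

/-!
MODULE HgLine (90 lines): slope and intercept of the lines in a chart with injective `x`.

`sb c ℓ = (s, b)` with `y i = s * x i + b` for all `i ∈ ℓ` (chosen by `Classical.epsilon`),
`dv c ℓ = (s, -b)`: the dual vertex of the line `ℓ`; the dual line of the point `i` is
`X ↦ x i * X - y i`, it passes through `dv c ℓ` exactly if `i ∈ ℓ`.

Proofs. `sb_spec`: `ℓ` has two different points `i, j` (`S.two`), `x i ≠ x j`; take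
`s = (y j - y i) / (x j - x i)`, `b = y i - s x i` and use `Chart.col` for the third points; then
`Classical.epsilon_spec`. `mem_iff`: if `y k = s x k + b` then the identity in `Chart.col` holds
for two points `i ≠ j` of `ℓ` and `k`, so `k ∈ ℓ`. `dv_inj`: if `dv c ℓ = dv c ℓ'` then by
`mem_iff` the lines have the same points. `sl_unique`: two lines through the same point with the
same slope are equal (the intercept is `y i - s x i`), so `dv` is equal.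
`slope_eq`: for `i ≠ j` in `ℓ`: `(sb c ℓ).1 = c.sl i j`.
-/

set_option autoImplicit false

namespace H64.BL

open Finset

variable {ι : Type} [Fintype ι] [DecidableEq ι] {S : LinSp ι}

noncomputable def sb (c : Chart S) (ℓ : Finset ι) : ℝ × ℝ :=
  Classical.epsilon (fun q : ℝ × ℝ => ∀ i ∈ ℓ, c.y i = q.1 * c.x i + q.2)

noncomputable def dv (c : Chart S) (ℓ : Finset ι) : ℝ × ℝ := ((sb c ℓ).1, -(sb c ℓ).2)

private theorem hgl_ex (c : Chart S) (hx : Function.Injective c.x) (ℓ : Finset ι)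
    (hℓ : ℓ ∈ S.L) (i j : ι) (hij : i ≠ j) (hi : i ∈ ℓ) (hj : j ∈ ℓ) :
    ∀ k ∈ ℓ, c.y k = c.sl i j * c.x k + (c.y i - c.sl i j * c.x i) := by
  intro k hk
  have h1 := (c.col ℓ hℓ i hi j hj hij k).1 hk
  have h2 : c.x j - c.x i ≠ 0 := sub_ne_zero.2 (fun h => hij (hx h.symm))
  unfold Chart.sl
  field_simp
  linarith

theorem sb_spec (c : Chart S) (hx : Function.Injective c.x) (ℓ : Finset ι) (hℓ : ℓ ∈ S.L) :
    ∀ i ∈ ℓ, c.y i = (sb c ℓ).1 * c.x i + (sb c ℓ).2 := by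
  obtain ⟨i, hi, j, hj, hij⟩ := Finset.one_lt_card.1 (lt_of_lt_of_le one_lt_two (S.two ℓ hℓ))
  have h := Classical.epsilon_spec
    (p := fun q : ℝ × ℝ => ∀ i ∈ ℓ, c.y i = q.1 * c.x i + q.2)
    ⟨(c.sl i j, c.y i - c.sl i j * c.x i), hgl_ex c hx ℓ hℓ i j hij hi hj⟩
  exact h

theorem mem_iff (c : Chart S) (hx : Function.Injective c.x) (ℓ : Finset ι) (hℓ : ℓ ∈ S.L)
    (k : ι) : k ∈ ℓ ↔ c.x k * (dv c ℓ).1 - c.y k = (dv c ℓ).2 := by
  obtain ⟨i, hi, j, hj, hij⟩ := Finset.one_lt_card.1 (lt_of_lt_of_le one_lt_two (S.two ℓ hℓ))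
  have hs := sb_spec c hx ℓ hℓ
  have hi' := hs i hi
  have hj' := hs j hj
  unfold dv
  simp only
  constructor
  · intro hk
    have := hs k hk
    linarith
  · intro h
    have hk' : c.y k = (sb c ℓ).1 * c.x k + (sb c ℓ).2 := by linarith
    rw [c.col ℓ hℓ i hi j hj hij k, hi', hj', hk']
    ring

theorem dv_inj (c : Chart S) (hx : Function.Injective c.x) (ℓ ℓ' : Finset ι) (hℓ : ℓ ∈ S.L)
    (hℓ' : ℓ' ∈ S.L) (h : dv c ℓ = dv c ℓ') : ℓ = ℓ' := by
  ext k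
  rw [mem_iff c hx ℓ hℓ, mem_iff c hx ℓ' hℓ', h]

theorem sl_unique (c : Chart S) (hx : Function.Injective c.x) (ℓ ℓ' : Finset ι) (hℓ : ℓ ∈ S.L)
    (hℓ' : ℓ' ∈ S.L) (i : ι) (hi : i ∈ ℓ) (hi' : i ∈ ℓ') (h : (dv c ℓ).1 = (dv c ℓ').1) :
    ℓ = ℓ' := by
  refine dv_inj c hx ℓ ℓ' hℓ hℓ' (Prod.ext h ?_)
  rw [← (mem_iff c hx ℓ hℓ i).1 hi, ← (mem_iff c hx ℓ' hℓ' i).1 hi', h]

theorem slope_eq (c : Chart S) (hx : Function.Injective c.x) (ℓ : Finset ι) (hℓ : ℓ ∈ S.L)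
    (i j : ι) (hij : i ≠ j) (hi : i ∈ ℓ) (hj : j ∈ ℓ) : (dv c ℓ).1 = c.sl i j := by
  have hs := sb_spec c hx ℓ hℓ
  have hi' := hs i hi
  have hj' := hs j hj
  have h2 : c.x j - c.x i ≠ 0 := sub_ne_zero.2 (fun h => hij (hx h.symm))
  unfold dv Chart.sl
  simp only
  rw [eq_div_iff h2, hi', hj']
  ring

end H64.BL
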