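import Pool.Agent.H64.BL.HgLine

/-!
MODULE HgNxt (110 lines): the edges of the dual graph.

`H` is a set of lines. `idx c H` = pairs `(i, ℓ)` with `i ∈ ℓ ∈ H` such that some line of `H`
through `i` has a larger slope. `IsNxt c H q ℓ'`: `ℓ'` is the line of `H` through `q.1` with the
next larger slope.

`nxt_exists`: `Finset.exists_min_image`.
`idx_card`: `∑_{ℓ ∈ H} |ℓ| ≤ |idx| + n`. The number of all pairs `(i, ℓ)`, `i ∈ ℓ ∈ H`, is
`∑_{ℓ ∈ H} |ℓ|`; a pair not in `idx` is determined by `i`: if `(i, ℓ)` and `(i, ℓ')` are both not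
in `idx` then neither slope is larger than the other one, so the slopes are equal and `ℓ = ℓ'`
(`sl_unique`). So there are at most `n = Fintype.card ι` pairs that are not in `idx`.
-/

set_option autoImplicit false

namespace H64.BL

open Finset

variable {ι : Type} [Fintype ι] [DecidableEq ι] {S : LinSp ι}

open Classical in
noncomputable def idx (c : Chart S) (H : Finset (Finset ι)) : Finset (ι × Finset ι) :=
  ((univ : Finset ι) ×ˢ H).filter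
    (fun q => q.1 ∈ q.2 ∧ ∃ ℓ' ∈ H, q.1 ∈ ℓ' ∧ (dv c q.2).1 < (dv c ℓ').1)

def IsNxt (c : Chart S) (H : Finset (Finset ι)) (q : ι × Finset ι) (ℓ' : Finset ι) : Prop :=
  ℓ' ∈ H ∧ q.1 ∈ ℓ' ∧ (dv c q.2).1 < (dv c ℓ').1 ∧
    ∀ m ∈ H, q.1 ∈ m → (dv c q.2).1 < (dv c m).1 → (dv c ℓ').1 ≤ (dv c m).1

theorem nxt_exists (c : Chart S) (H : Finset (Finset ι)) (q : ι × Finset ι) (hq : q ∈ idx c H) :
    ∃ ℓ', IsNxt c H q ℓ' := by
  classical
  unfold idx at hq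
  rw [mem_filter] at hq
  obtain ⟨_, _, ℓ', hℓ', hq1, hlt⟩ := hq
  obtain ⟨m, hm, hmin⟩ := Finset.exists_min_image
    (H.filter (fun m => q.1 ∈ m ∧ (dv c q.2).1 < (dv c m).1)) (fun m => (dv c m).1)
    ⟨ℓ', by rw [mem_filter]; exact ⟨hℓ', hq1, hlt⟩⟩
  rw [mem_filter] at hm
  refine ⟨m, hm.1, hm.2.1, hm.2.2, fun m' hm' h1 h2 => hmin m' ?_⟩
  rw [mem_filter]
  exact ⟨hm', h1, h2⟩

theorem idx_card (c : Chart S) (hx : Function.Injective c.x) (H : Finset (Finset ι))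
    (hH : H ⊆ S.L) : ∑ ℓ ∈ H, ℓ.card ≤ (idx c H).card + Fintype.card ι := by
  classical
  have h1 : ∑ ℓ ∈ H, ℓ.card =
      (((univ : Finset ι) ×ˢ H).filter (fun q => q.1 ∈ q.2)).card := by
    rw [card_filter, Finset.sum_product_right]
    refine Finset.sum_congr rfl fun ℓ _ => ?_
    rw [← card_filter]
    congr 1
    ext i
    simp
  have h2 : (idx c H) = (((univ : Finset ι) ×ˢ H).filter (fun q => q.1 ∈ q.2)).filter
      (fun q => ∃ ℓ' ∈ H, q.1 ∈ ℓ' ∧ (dv c q.2).1 < (dv c ℓ').1) := by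
    unfold idx
    rw [filter_filter]
  rw [h1, h2, ← Finset.card_filter_add_card_filter_not
    (s := ((univ : Finset ι) ×ˢ H).filter (fun q => q.1 ∈ q.2))
    (fun q => ∃ ℓ' ∈ H, q.1 ∈ ℓ' ∧ (dv c q.2).1 < (dv c ℓ').1)]
  refine Nat.add_le_add_left ?_ _
  rw [← Finset.card_univ]
  refine Finset.card_le_card_of_injOn (fun q => q.1) (fun q _ => mem_coe.2 (mem_univ _)) ?_
  rintro ⟨i, ℓ⟩ hq ⟨j, ℓ'⟩ hq' hij
  simp only at hij
  subst hij
  rw [mem_coe, mem_filter, mem_filter, mem_product] at hq hq'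
  obtain ⟨⟨⟨_, hℓ⟩, hi⟩, hn⟩ := hq
  obtain ⟨⟨⟨_, hℓ'⟩, hi'⟩, hn'⟩ := hq'
  simp only at hℓ hi hn hℓ' hi' hn'
  push Not at hn hn'
  have h3 := hn ℓ' hℓ' hi'
  have h4 := hn' ℓ hℓ hi
  rw [sl_unique c hx ℓ ℓ' (hH hℓ) (hH hℓ') i hi hi' (le_antisymm h4 h3)]

end H64.BL
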