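import Pool.Agent.H64.BL.Defs

/-!
MODULE NumT (120 lines): the lines with at least 4000 points.

`inc_bound`: let `H = {ℓ ∈ L | K ≤ |ℓ|}`, `I = ∑_{ℓ ∈ H} |ℓ|`, `r = K / 6` (natural division), so
`1 ≤ r`, `6 r ≤ K ≤ 6 r + 5`. `K |H| ≤ I`, so `6 r³ |H| ≤ r² I` (`6 r ≤ K`). `hcl` for `H, r`:
`2 r² I ≤ 2 r² n + 6 r³ |H| + n (n - 1) ≤ 2 r² n + r² I + n²`, so `I ≤ 2 n + n² / r²` and
`r ≥ (K - 5) / 6`.

`tail`: for `b ≥ 4000`, `b ≤ D`: `b (b - 1) = 3999 b + ∑_{K ∈ Ioc 4000 D} (if K ≤ b then b else 0)`.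
Sum over the lines with `|ℓ| ≥ 4000`:
`∑ b (b - 1) = 3999 I_4000 + ∑_{K ∈ Ioc 4000 D} I_K`
 `≤ 3999 (36 n² / 3995² + 2 n) + ∑_{K ∈ Ioc 4000 D} (36 n² / (K - 5)² + 2 n)`
 `≤ 36 n² (3999 / 3995² + 1 / 3995) + 2 n (3999 + (D - 4000))` for `D ≥ 4000`
(telescoping `1 / (K - 5)² ≤ 1 / (K - 6) - 1 / (K - 5)`); for `D < 4000` there is no such line.
-/

set_option autoImplicit false

namespace H64.BL

open Finset

variable {ι : Type} [Fintype ι] [DecidableEq ι]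

theorem inc_bound (L : Finset (Finset ι)) (n : ℕ)
    (hP : ∑ ℓ ∈ L, ℓ.card * (ℓ.card - 1) = n * (n - 1))
    (hcl : ∀ H ⊆ L, ∀ r : ℕ, 1 ≤ r → 2 * r ^ 2 * ∑ ℓ ∈ H, ℓ.card ≤ 2 * r ^ 2 * n +
      6 * r ^ 3 * H.card + ∑ ℓ ∈ L \ H, ℓ.card * (ℓ.card - 1))
    (K : ℕ) (hK : 6 ≤ K) :
    ((∑ ℓ ∈ L.filter (fun ℓ => K ≤ ℓ.card), ℓ.card : ℕ) : ℝ) ≤
      36 * (n : ℝ) ^ 2 / ((K : ℝ) - 5) ^ 2 + 2 * n := by
  set H := L.filter (fun ℓ => K ≤ ℓ.card) with hH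
  set I := ∑ ℓ ∈ H, ℓ.card with hI
  obtain ⟨r, hr1, hr6, hr5⟩ : ∃ r : ℕ, 1 ≤ r ∧ 6 * r ≤ K ∧ K ≤ 6 * r + 5 :=
    ⟨K / 6, by omega, by omega, by omega⟩
  have h1 : H.card * K ≤ I := by
    have := Finset.card_nsmul_le_sum H (fun ℓ => ℓ.card) K (fun ℓ hℓ => (mem_filter.1 hℓ).2)
    simpa using this
  have h2 : 2 * r ^ 2 * I ≤ 2 * r ^ 2 * n + 6 * r ^ 3 * H.card +
      ∑ ℓ ∈ L \ H, ℓ.card * (ℓ.card - 1) := hcl H (filter_subset _ _) r hr1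
  have h3 : ∑ ℓ ∈ L \ H, ℓ.card * (ℓ.card - 1) ≤ n * n := by
    calc ∑ ℓ ∈ L \ H, ℓ.card * (ℓ.card - 1) ≤ ∑ ℓ ∈ L, ℓ.card * (ℓ.card - 1) :=
          sum_le_sum_of_subset sdiff_subset
      _ = n * (n - 1) := hP
      _ ≤ n * n := Nat.mul_le_mul_left _ (Nat.sub_le _ _)
  have h4 : 6 * r ^ 3 * H.card ≤ r ^ 2 * I := by
    calc 6 * r ^ 3 * H.card = r ^ 2 * (H.card * (6 * r)) := by ring
      _ ≤ r ^ 2 * (H.card * K) := by gcongr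
      _ ≤ r ^ 2 * I := by gcongr
  have h5 : r ^ 2 * I ≤ 2 * r ^ 2 * n + n * n := by
    have : 2 * r ^ 2 * I = r ^ 2 * I + r ^ 2 * I := by ring
    omega
  have h5' : (r : ℝ) ^ 2 * I ≤ 2 * (r : ℝ) ^ 2 * n + n * n := by exact_mod_cast h5
  have hrpos : (0 : ℝ) < (r : ℝ) := by exact_mod_cast hr1
  have h6 : (I : ℝ) ≤ 2 * n + (n : ℝ) ^ 2 / (r : ℝ) ^ 2 := by
    have hr2 : (0 : ℝ) < (r : ℝ) ^ 2 := by positivity
    rw [← sub_le_iff_le_add', le_div_iff₀ hr2]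
    nlinarith
  have hK5 : (0 : ℝ) < (K : ℝ) - 5 := by
    have : (6 : ℝ) ≤ K := by exact_mod_cast hK
    linarith
  have h7 : (n : ℝ) ^ 2 / (r : ℝ) ^ 2 ≤ 36 * (n : ℝ) ^ 2 / ((K : ℝ) - 5) ^ 2 := by
    rw [div_le_div_iff₀ (by positivity) (by positivity)]
    have : (K : ℝ) - 5 ≤ 6 * r := by
      have : (K : ℝ) ≤ 6 * r + 5 := by exact_mod_cast hr5
      linarith
    have h8 : ((K : ℝ) - 5) ^ 2 ≤ (6 * r) ^ 2 := pow_le_pow_left₀ hK5.le this 2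
    nlinarith [sq_nonneg (n : ℝ)]
  linarith

private theorem tele (D : ℕ) (hD : 4000 ≤ D) :
    ∑ K ∈ Ioc 4000 D, 1 / ((K : ℝ) - 5) ^ 2 ≤ 1 / 3995 - 1 / ((D : ℝ) - 5) := by
  induction D, hD using Nat.le_induction with
  | base => norm_num
  | succ D hD ih =>
    rw [Finset.sum_Ioc_succ_top hD]
    have hDr : (4000 : ℝ) ≤ D := by exact_mod_cast hD
    have e : ((D + 1 : ℕ) : ℝ) - 5 = (D : ℝ) - 4 := by push_cast; ring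
    rw [e]
    have h1 : 1 / ((D : ℝ) - 4) ^ 2 ≤ 1 / ((D : ℝ) - 5) - 1 / ((D : ℝ) - 4) := by
      have p4 : (0 : ℝ) < (D : ℝ) - 4 := by linarith
      have p5 : (0 : ℝ) < (D : ℝ) - 5 := by linarith
      rw [div_sub_div _ _ p5.ne' p4.ne', div_le_div_iff₀ (by positivity) (by positivity)]
      nlinarith
    linarith

theorem tail (L : Finset (Finset ι)) (n D : ℕ)
    (hP : ∑ ℓ ∈ L, ℓ.card * (ℓ.card - 1) = n * (n - 1))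
    (hcl : ∀ H ⊆ L, ∀ r : ℕ, 1 ≤ r → 2 * r ^ 2 * ∑ ℓ ∈ H, ℓ.card ≤ 2 * r ^ 2 * n +
      6 * r ^ 3 * H.card + ∑ ℓ ∈ L \ H, ℓ.card * (ℓ.card - 1))
    (hD : ∀ ℓ ∈ L, ℓ.card ≤ D) :
    ((∑ ℓ ∈ L.filter (fun ℓ => 4000 ≤ ℓ.card), ℓ.card * (ℓ.card - 1) : ℕ) : ℝ) ≤
      (451 / 25000 : ℝ) * (n : ℝ) ^ 2 + 2 * n * D := by
  rcases lt_or_ge D 4000 with hlt | hge
  · have : L.filter (fun ℓ => 4000 ≤ ℓ.card) = ∅ := by
      rw [filter_eq_empty_iff]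
      intro ℓ hℓ h
      have := hD ℓ hℓ
      omega
    rw [this]
    simp only [sum_empty, Nat.cast_zero]
    positivity
  · have e1 : ∑ ℓ ∈ L.filter (fun ℓ => 4000 ≤ ℓ.card), ℓ.card * (ℓ.card - 1) =
        3999 * ∑ ℓ ∈ L.filter (fun ℓ => 4000 ≤ ℓ.card), ℓ.card +
          ∑ K ∈ Ioc 4000 D, ∑ ℓ ∈ L.filter (fun ℓ => K ≤ ℓ.card), ℓ.card := by
      have e2 : ∀ K ∈ Ioc 4000 D, ∑ ℓ ∈ L.filter (fun ℓ => K ≤ ℓ.card), ℓ.card =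
          ∑ ℓ ∈ L.filter (fun ℓ => 4000 ≤ ℓ.card), (if K ≤ ℓ.card then ℓ.card else 0) := by
        intro K hK
        rw [← sum_filter, filter_filter]
        refine sum_congr ?_ fun _ _ => rfl
        ext ℓ
        simp only [mem_filter]
        have := (mem_Ioc.1 hK).1
        constructor
        · rintro ⟨a, b⟩; exact ⟨a, by omega, b⟩
        · rintro ⟨a, b, c⟩; exact ⟨a, c⟩
      rw [sum_congr rfl e2, sum_comm, mul_sum, ← sum_add_distrib]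
      refine sum_congr rfl fun ℓ hℓ => ?_
      obtain ⟨hℓ, h4⟩ := mem_filter.1 hℓ
      have hb := hD ℓ hℓ
      rw [← sum_filter, sum_const, smul_eq_mul]
      have : (Ioc 4000 D).filter (fun K => K ≤ ℓ.card) = Ioc 4000 ℓ.card := by
        ext K
        simp only [mem_filter, mem_Ioc]
        constructor
        · rintro ⟨⟨a, b⟩, c⟩; exact ⟨a, c⟩
        · rintro ⟨a, c⟩; exact ⟨⟨a, by omega⟩, c⟩
      rw [this, Nat.card_Ioc]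
      obtain ⟨d, hd⟩ : ∃ d, ℓ.card = 4000 + d := ⟨ℓ.card - 4000, by omega⟩
      rw [hd]
      have e3 : 4000 + d - 1 = 3999 + d := by omega
      have e4 : 4000 + d - 4000 = d := by omega
      rw [e3, e4]; ring
    have b1 := inc_bound L n hP hcl 4000 (by norm_num)
    have b2 : ∀ K ∈ Ioc 4000 D, ((∑ ℓ ∈ L.filter (fun ℓ => K ≤ ℓ.card), ℓ.card : ℕ) : ℝ) ≤
        36 * (n : ℝ) ^ 2 * (1 / ((K : ℝ) - 5) ^ 2) + 2 * n := by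
      intro K hK
      have := inc_bound L n hP hcl K (by have := (mem_Ioc.1 hK).1; omega)
      rw [mul_one_div]; exact this
    have b3 := sum_le_sum b2
    rw [sum_add_distrib, ← mul_sum, sum_const, Nat.card_Ioc, nsmul_eq_mul] at b3
    have b4 := tele D hge
    have hDr : (4000 : ℝ) ≤ D := by exact_mod_cast hge
    have b5 : ∑ K ∈ Ioc 4000 D, 1 / ((K : ℝ) - 5) ^ 2 ≤ 1 / 3995 := by
      have : 0 ≤ 1 / ((D : ℝ) - 5) := by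
        apply div_nonneg zero_le_one; linarith
      linarith
    rw [e1]
    push_cast at b1 b3 ⊢
    rw [Nat.cast_sub hge] at b3
    push_cast at b3
    have hn2 : 0 ≤ (n : ℝ) ^ 2 := sq_nonneg _
    have hn0 : 0 ≤ (n : ℝ) := Nat.cast_nonneg _
    have b6 : 36 * (n : ℝ) ^ 2 * ∑ K ∈ Ioc 4000 D, 1 / ((K : ℝ) - 5) ^ 2 ≤
        36 * (n : ℝ) ^ 2 * (1 / 3995) := mul_le_mul_of_nonneg_left b5 (by linarith)
    have b7 : (36 : ℝ) * (n : ℝ) ^ 2 / (4000 - 5) ^ 2 = (n : ℝ) ^ 2 * (36 / 3995 ^ 2) := by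
      norm_num; ring
    rw [b7] at b1
    nlinarith

end H64.BL
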