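import Pool.Agent.H64.BL.PlLin

/-!
MODULE PlAbove (110 lines): a vertex is the first vertex of at most one wedge in which it is not
on the upper segment.

Given wedges `(e₁, e₁')` and `(e₂, e₂')` of a plane drawing with the same first vertex `u`,
`u.2 < segH e₁' u.1` and `u.2 < segH e₂' u.1`. Claim `e₁ = e₂`. Suppose not.

Case A: the same left end `e₁.1 = e₂.1`. The slopes of `e₁`, `e₂` are different (`eq_of_sl`), by
symmetry `segSl e₁ < segSl e₂`. Then `segSl e₁' ≤ segSl e₂` by `IsSucc`, so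
`segH e₁' u.1 ≤ segH e₂ u.1 ≤ u.2` (common left end, `u.1` to the right of it), contradiction.

Case B: different left ends, by symmetry `e₁.1.1 ≤ e₂.1.1 =: X₀`. Let `p₂ = e₂.1`. Then
(i) `p₂.2 ≤ segH e₁' X₀`: otherwise `segH e₁' X₀ < segH e₂ X₀ = p₂.2` and
`segH e₂ u.1 ≤ u.2 < segH e₁' u.1`, so `e₁'` and `e₂` cross (`crs_of_lt` on `[X₀, u.1]`), and
they are different.
(ii) `segH e₁ X₀ ≤ p₂.2`: otherwise `segH e₂' X₀ = p₂.2 < segH e₁ X₀` and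
`segH e₁ u.1 ≤ u.2 < segH e₂' u.1`, so `e₁` and `e₂'` cross, and they are different.
If `e₁.1.1 < X₀`: `p₂` is a vertex in the region of `(e₁, e₁')` strictly left of `u`,
contradiction to `First`. If `e₁.1.1 = X₀`: (i) and (ii) give `p₂.2 = e₁.1.2` (both segments have
the height of their left end there), so `p₂ = e₁.1`, contradiction.
-/

set_option autoImplicit false

namespace H64.BL

open Finset

theorem above_unique (V : Finset (ℝ × ℝ)) (E : Finset Seg) (hD : Drawing V E) (hE : Plane E)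
    (e₁ e₁' e₂ e₂' : Seg) (u : ℝ × ℝ) (h₁ : e₁ ∈ E) (h₂ : e₂ ∈ E)
    (hs₁ : IsSucc E e₁ e₁') (hs₂ : IsSucc E e₂ e₂')
    (hf₁ : First V e₁ e₁' u) (hf₂ : First V e₂ e₂' u)
    (hu₁ : u.2 < segH e₁' u.1) (hu₂ : u.2 < segH e₂' u.1) : e₁ = e₂ := by
  have lefteq : ∀ e e' : Seg, e'.1 = e.1 → segH e e.1.1 = segH e' e.1.1 := by
    intro e e' hl
    have h := segH_left e'
    rw [hl] at h
    rw [h, segH_left]
  -- case A
  have keyA : ∀ (e₁ e₁' e₂ : Seg), e₂ ∈ E → IsSucc E e₁ e₁' → e₁.1 = e₂.1 →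
      e₁.1.1 < u.1 → u.2 < segH e₁' u.1 → segH e₂ u.1 ≤ u.2 → segSl e₁ < segSl e₂ → False := by
    intro e₁ e₁' e₂ h₂ hs hl hx hu hlo hss
    obtain ⟨hm, hl1, hsl, hmin⟩ := hs
    have h := hmin e₂ h₂ hl.symm hss
    have hle : segH e₁' u.1 ≤ segH e₂ u.1 := by
      have ha := segH_sub e₁' u.1 e₁.1.1
      have hb := segH_sub e₂ u.1 e₁.1.1
      have h1 : segH e₁' e₁.1.1 = segH e₂ e₁.1.1 := by
        have h3 := lefteq e₂ e₁ hl
        rw [← lefteq e₁ e₁' hl1, hl, h3]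
      have h2 : segSl e₁' * (u.1 - e₁.1.1) ≤ segSl e₂ * (u.1 - e₁.1.1) :=
        mul_le_mul_of_nonneg_right h (by linarith)
      linarith
    linarith
  -- case B
  have keyB : ∀ (e₁ e₁' e₂ e₂' : Seg), e₁ ∈ E → e₂ ∈ E → IsSucc E e₁ e₁' → IsSucc E e₂ e₂' →
      First V e₁ e₁' u → First V e₂ e₂' u → u.2 < segH e₁' u.1 → u.2 < segH e₂' u.1 →
      e₁.1.1 ≤ e₂.1.1 → e₁.1 ≠ e₂.1 → False := by
    intro e₁ e₁' e₂ e₂' h₁ h₂ hs₁ hs₂ hf₁ hf₂ hu₁ hu₂ hX hne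
    obtain ⟨hm1, hl1, hsl1, hsm1⟩ := hs₁
    obtain ⟨hm2, hl2, hsl2, hsm2⟩ := hs₂
    obtain ⟨hu, ⟨ha1, hb1, hc1, hd1, _⟩, hmin1⟩ := hf₁
    obtain ⟨_, ⟨ha2, hb2, hc2, hd2, _⟩, hmin2⟩ := hf₂
    have hl1x : e₁'.1.1 = e₁.1.1 := by rw [hl1]
    have hl2x : e₂'.1.1 = e₂.1.1 := by rw [hl2]
    have hleft2 : segH e₂' e₂.1.1 = e₂.1.2 := by
      rw [← lefteq e₂ e₂' hl2, segH_left]
    have hi : e₂.1.2 ≤ segH e₁' e₂.1.1 := by
      by_contra hcon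
      push Not at hcon
      have hne2 : e₁' ≠ e₂ := by
        intro h
        rw [h] at hu₁
        linarith
      refine hE e₁' hm1 e₂ h₂ hne2 ?_
      refine crs_of_lt e₁' e₂ e₂.1.1 u.1 ha2 (by rw [hl1x]; exact hX) le_rfl hc1 hb2 ?_ ?_
      · rw [segH_left]; exact hcon
      · linarith
    have hii : segH e₁ e₂.1.1 ≤ e₂.1.2 := by
      by_contra hcon
      push Not at hcon
      have hne2 : e₂' ≠ e₁ := by
        intro h
        rw [h] at hu₂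
        linarith
      refine hE e₂' hm2 e₁ h₁ hne2 ?_
      refine crs_of_lt e₂' e₁ e₂.1.1 u.1 ha2 (by rw [hl2x]) hX hc2 hb1 ?_ ?_
      · rw [hleft2]; exact hcon
      · linarith
    rcases lt_or_eq_of_le hX with h | h
    · have := hmin1 e₂.1 (hD.pm _ h₂) ⟨h, by linarith, by linarith, hii, hi⟩
      linarith
    · apply hne
      refine Prod.ext h ?_
      have h3 : segH e₁ e₂.1.1 = e₁.1.2 := by rw [← h, segH_left]
      have h4 : segH e₁' e₂.1.1 = e₁.1.2 := by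
        rw [← h, ← lefteq e₁ e₁' hl1, segH_left]
      rw [h3] at hii
      rw [h4] at hi
      exact le_antisymm hii hi
  have hfr1 := hf₁.2.1
  have hfr2 := hf₂.2.1
  by_cases hl : e₁.1 = e₂.1
  · rcases lt_trichotomy (segSl e₁) (segSl e₂) with h | h | h
    · exact (keyA e₁ e₁' e₂ h₂ hs₁ hl hfr1.1 hu₁ hfr2.2.2.2.1 h).elim
    · exact eq_of_sl E hE hD.lt e₁ e₂ h₁ h₂ hl h
    · exact (keyA e₂ e₂' e₁ h₁ hs₂ hl.symm hfr2.1 hu₂ hfr1.2.2.2.1 h).elim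
  · rcases le_total e₁.1.1 e₂.1.1 with h | h
    · exact (keyB e₁ e₁' e₂ e₂' h₁ h₂ hs₁ hs₂ hf₁ hf₂ hu₁ hu₂ h hl).elim
    · exact (keyB e₂ e₂' e₁ e₁' h₂ h₁ hs₂ hs₁ hf₂ hf₁ hu₂ hu₁ h (Ne.symm hl)).elim

end H64.BL
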