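import Pool.Agent.H64.BL.PlLin

/-!
MODULE PlBelow (110 lines): a vertex is the first vertex of at most one wedge that lies below it.

Given wedges `(e₁, e₁')` and `(e₂, e₂')` of a plane drawing with the same first vertex `u`, `u` on
both upper segments (`u.2 = segH e₁' u.1`, `u.2 = segH e₂' u.1`). Claim `e₁ = e₂`.

Step 1: `u = e₁'.2` and `u = e₂'.2`: `u.1 ≤ e₁'.2.1` by `InReg`, and `u.1 < e₁'.2.1` contradicts
`free`. (Then equality of the heights gives equality of the points, `segH_right`.)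

Step 2: `e₁' = e₂'`. If the slopes are equal: `eq_of_sl_right`. Otherwise let by symmetry
`segSl e₂' < segSl e₁'`. Then for `X < u.1`: `segH e₁' X < segH e₂' X` (`segH_lt_of_right`).
Also `segH e₂ u.1 < segH e₂' u.1 = u.2` (`segH_lt_of_left`, common left end of `e₂, e₂'`).
Let `X₀ = max e₁'.1.1 e₂.1.1 < u.1`. If `segH e₁' X₀ < segH e₂ X₀`, then `e₁'` and `e₂` cross
(`crs_of_lt` on `[X₀, u.1]`: at `u.1` the height of `e₁'` is `u.2`, larger), and `e₁' ≠ e₂`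
(heights differ at `u.1`), contradiction. So `segH e₂ X₀ ≤ segH e₁' X₀ < segH e₂' X₀`.
If `e₂.1.1 < e₁'.1.1 = X₀`: the vertex `e₁'.1` lies in the region of `(e₂, e₂')` and is strictly
left of `u`, contradiction to `First`. If `e₁'.1.1 ≤ e₂.1.1 = X₀`: at `X₀` both `e₂` and `e₂'`
have the height of their common left end, contradiction.

Step 3: `e₁' = e₂'` and the same left end; `segSl e₁ < segSl e₂` would contradict the minimality
in `IsSucc E e₁ e₁'` (`f := e₂`: `segSl e₁' ≤ segSl e₂ < segSl e₂' = segSl e₁'`), symmetric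
for `>`. So the slopes are equal and `eq_of_sl` gives `e₁ = e₂`.
-/

set_option autoImplicit false

namespace H64.BL

open Finset

theorem below_unique (V : Finset (ℝ × ℝ)) (E : Finset Seg) (hD : Drawing V E) (hE : Plane E)
    (e₁ e₁' e₂ e₂' : Seg) (u : ℝ × ℝ) (h₁ : e₁ ∈ E) (h₂ : e₂ ∈ E)
    (hs₁ : IsSucc E e₁ e₁') (hs₂ : IsSucc E e₂ e₂')
    (hf₁ : First V e₁ e₁' u) (hf₂ : First V e₂ e₂' u)
    (hu₁ : u.2 = segH e₁' u.1) (hu₂ : u.2 = segH e₂' u.1) : e₁ = e₂ := by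
  obtain ⟨hu, ⟨ha1, hb1, hc1, hd1, _⟩, hmin1⟩ := hf₁
  obtain ⟨_, ⟨ha2, hb2, hc2, hd2, _⟩, hmin2⟩ := hf₂
  obtain ⟨hm1, hl1, hsl1, hsm1⟩ := hs₁
  obtain ⟨hm2, hl2, hsl2, hsm2⟩ := hs₂
  -- Step 1
  have hl1x : e₁'.1.1 = e₁.1.1 := by rw [hl1]
  have hl2x : e₂'.1.1 = e₂.1.1 := by rw [hl2]
  have hx1 : e₁'.2.1 = u.1 := by
    rcases lt_or_eq_of_le hc1 with h | h
    · exact absurd hu₁ (hD.free e₁' hm1 u hu (by rw [hl1x]; exact ha1) h)
    · exact h.symm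
  have hx2 : e₂'.2.1 = u.1 := by
    rcases lt_or_eq_of_le hc2 with h | h
    · exact absurd hu₂ (hD.free e₂' hm2 u hu (by rw [hl2x]; exact ha2) h)
    · exact h.symm
  have hy1 : e₁'.2.2 = u.2 := by
    rw [hu₁, ← hx1, segH_right e₁' (hD.lt _ hm1)]
  have hy2 : e₂'.2.2 = u.2 := by
    rw [hu₂, ← hx2, segH_right e₂' (hD.lt _ hm2)]
  have hp1 : e₁'.2 = u := Prod.ext hx1 hy1
  have hp2 : e₂'.2 = u := Prod.ext hx2 hy2
  -- Step 2, the asymmetric part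
  have key : ∀ (e₁ e₁' e₂ e₂' : Seg), e₁ ∈ E → e₂ ∈ E → e₁' ∈ E → e₂' ∈ E →
      e₁'.1 = e₁.1 → e₂'.1 = e₂.1 → segSl e₁ < segSl e₁' → segSl e₂ < segSl e₂' →
      e₁'.2 = u → e₂'.2 = u → e₁.1.1 < u.1 → e₂.1.1 < u.1 → u.1 ≤ e₁.2.1 → u.1 ≤ e₂.2.1 →
      (∀ v ∈ V, InReg e₂ e₂' v → u.1 ≤ v.1) → segSl e₂' < segSl e₁' → False := by
    intro e₁ e₁' e₂ e₂' h₁ h₂ hm1 hm2 hl1 hl2 hsl1 hsl2 hp1 hp2 ha1 ha2 hb1 hb2 hmin2 hss
    have hu1 : segH e₁' u.1 = u.2 := by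
      have := segH_right e₁' (hD.lt _ hm1)
      rw [hp1] at this; exact this
    have hu2 : segH e₂' u.1 = u.2 := by
      have := segH_right e₂' (hD.lt _ hm2)
      rw [hp2] at this; exact this
    have hlt : ∀ X, X < u.1 → segH e₁' X < segH e₂' X := fun X hX =>
      segH_lt_of_right e₂' e₁' u.1 X (hu2.trans hu1.symm) hX hss
    have hleft2 : segH e₂ e₂.1.1 = segH e₂' e₂.1.1 := by
      have h := segH_left e₂'
      rw [hl2] at h
      rw [h, segH_left]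
    have hlo : segH e₂ u.1 < segH e₁' u.1 := by
      rw [hu1, ← hu2]
      exact segH_lt_of_left e₂ e₂' e₂.1.1 u.1 hleft2 ha2 hsl2
    have hl1x : e₁'.1.1 = e₁.1.1 := by rw [hl1]
    set X₀ := max e₁'.1.1 e₂.1.1 with hX₀
    have hX₀u : X₀ < u.1 := max_lt (by rw [hl1x]; exact ha1) ha2
    have hne : e₁' ≠ e₂ := by
      intro h
      rw [h] at hlo
      exact lt_irrefl _ hlo
    have hge : segH e₂ X₀ ≤ segH e₁' X₀ := by
      by_contra hcon
      push Not at hcon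
      refine hE e₁' hm1 e₂ h₂ hne ?_
      refine crs_of_lt e₁' e₂ X₀ u.1 hX₀u (le_max_left _ _) (le_max_right _ _) ?_ hb2 hcon hlo
      rw [hp1]
    rcases lt_or_ge e₂.1.1 e₁'.1.1 with h | h
    · have hX : X₀ = e₁'.1.1 := max_eq_left h.le
      have hreg : InReg e₂ e₂' e₁'.1 := by
        refine ⟨h, ?_, ?_, ?_, ?_⟩
        · rw [← hX]; exact hX₀u.le.trans hb2
        · rw [← hX, hp2]; exact hX₀u.le
        · rw [hX, segH_left] at hge; exact hge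
        · have := hlt e₁'.1.1 (by rw [← hX]; exact hX₀u)
          rw [segH_left] at this
          exact this.le
      have := hmin2 e₁'.1 (hD.pm _ hm1) hreg
      rw [← hX] at this
      exact absurd hX₀u (not_lt.mpr this)
    · have hX : X₀ = e₂.1.1 := max_eq_right h
      rw [hX] at hge hX₀u
      have h3 := hlt e₂.1.1 hX₀u
      rw [← hleft2] at h3
      exact absurd h3 (not_lt.mpr hge)
  have heq : e₁' = e₂' := by
    rcases lt_trichotomy (segSl e₁') (segSl e₂') with h | h | h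
    · exact (key e₂ e₂' e₁ e₁' h₂ h₁ hm2 hm1 hl2 hl1 hsl2 hsl1 hp2 hp1 ha2 ha1 hb2 hb1 hmin1 h).elim
    · exact eq_of_sl_right E hE hD.lt e₁' e₂' hm1 hm2 (hp1.trans hp2.symm) h
    · exact (key e₁ e₁' e₂ e₂' h₁ h₂ hm1 hm2 hl1 hl2 hsl1 hsl2 hp1 hp2 ha1 ha2 hb1 hb2 hmin2 h).elim
  -- Step 3
  subst heq
  have hl : e₁.1 = e₂.1 := hl1.symm.trans hl2
  rcases lt_trichotomy (segSl e₁) (segSl e₂) with h | h | h
  · exact absurd hsl2 (not_lt.mpr (hsm1 e₂ h₂ hl.symm h))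
  · exact eq_of_sl E hE hD.lt e₁ e₂ h₁ h₂ hl h
  · exact absurd hsl1 (not_lt.mpr (hsm2 e₁ h₁ hl h))

end H64.BL
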