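import Pool.Agent.H64.BL.PlFirst
import Pool.Agent.H64.BL.PlBelow
import Pool.Agent.H64.BL.PlAbove

/-!
MODULE PlCount (80 lines): a plane straight line drawing has at most `3 |V|` segments.

Split `E` into the segments `e` that have some `f ∈ E` with the same left end and a larger slope
(non top segments) and the others (top segments). The map `e ↦ e.1` is injective on the top
segments (two top segments with the same left end have the same slope, `eq_of_sl`), so there are
at most `|V|` of them. For a non top segment choose `e'` with `IsSucc E e e'` (`succ_exists`) and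
`u` with `First V e e' u` (`first_exists`); the map `e ↦ (u, decide (u.2 = segH e' u.1))` into
`V × Bool` is injective by `below_unique` and `above_unique` (in the second case
`u.2 ≤ segH e' u.1` by `InReg` and `≠`). So there are at most `2 |V|` non top segments.
-/

set_option autoImplicit false

namespace H64.BL

open Finset

theorem plane_card (V : Finset (ℝ × ℝ)) (E : Finset Seg) (hD : Drawing V E) (hE : Plane E) :
    E.card ≤ 3 * V.card := by
  classical
  have hsplit : (E.filter (fun e => ∃ f ∈ E, f.1 = e.1 ∧ segSl e < segSl f)).card
      + (E.filter (fun e => ¬ ∃ f ∈ E, f.1 = e.1 ∧ segSl e < segSl f)).card = E.card :=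
    Finset.card_filter_add_card_filter_not _
  have hTc : (E.filter (fun e => ¬ ∃ f ∈ E, f.1 = e.1 ∧ segSl e < segSl f)).card ≤ V.card := by
    apply Finset.card_le_card_of_injOn (fun e => e.1)
    · intro e he
      exact hD.pm e (Finset.mem_filter.1 he).1
    · intro e he f hf hef
      have he' := Finset.mem_filter.1 he
      have hf' := Finset.mem_filter.1 hf
      have hef1 : e.1 = f.1 := hef
      apply eq_of_sl E hE hD.lt e f he'.1 hf'.1 hef1
      by_contra hne
      rcases lt_or_gt_of_ne hne with h | h
      · exact he'.2 ⟨f, hf'.1, hef1.symm, h⟩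
      · exact hf'.2 ⟨e, he'.1, hef1, h⟩
  have hch : ∀ e : Seg, e ∈ E.filter (fun e => ∃ f ∈ E, f.1 = e.1 ∧ segSl e < segSl f) →
      ∃ e' : Seg, ∃ u : ℝ × ℝ, IsSucc E e e' ∧ First V e e' u := by
    intro e he
    obtain ⟨heE, hex⟩ := Finset.mem_filter.1 he
    obtain ⟨e', hs⟩ := succ_exists E e hex
    obtain ⟨u, hu⟩ := first_exists V E hD e e' heE hs
    exact ⟨e', u, hs, hu⟩
  choose! s u hs hu using hch
  have hNc : (E.filter (fun e => ∃ f ∈ E, f.1 = e.1 ∧ segSl e < segSl f)).card
      ≤ (V ×ˢ (Finset.univ : Finset Bool)).card := by
    apply Finset.card_le_card_of_injOn (fun e => (u e, decide ((u e).2 = segH (s e) (u e).1)))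
    · intro e he
      have h1 := (hu e he).1
      simp only [Finset.coe_product, Set.mem_prod, Finset.mem_coe, Finset.mem_univ, and_true]
      exact h1
    · intro e he f hf hef
      have heE : e ∈ E := (Finset.mem_filter.1 he).1
      have hfE : f ∈ E := (Finset.mem_filter.1 hf).1
      have h1 : u e = u f := congrArg Prod.fst hef
      have h2 : decide ((u e).2 = segH (s e) (u e).1) = decide ((u f).2 = segH (s f) (u f).1) :=
        congrArg Prod.snd hef
      have hfe := hu e he
      have hff := hu f hf
      rw [← h1] at hff h2
      by_cases hc : (u e).2 = segH (s e) (u e).1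
      · have hc2 : (u e).2 = segH (s f) (u e).1 := by
          rw [decide_eq_true hc] at h2
          exact of_decide_eq_true h2.symm
        exact below_unique V E hD hE e (s e) f (s f) (u e) heE hfE (hs e he) (hs f hf) hfe hff
          hc hc2
      · have hc2 : ¬ (u e).2 = segH (s f) (u e).1 := by
          rw [decide_eq_false hc] at h2
          exact of_decide_eq_false h2.symm
        have l1 : (u e).2 < segH (s e) (u e).1 := lt_of_le_of_ne hfe.2.1.2.2.2.2 hc
        have l2 : (u e).2 < segH (s f) (u e).1 := lt_of_le_of_ne hff.2.1.2.2.2.2 hc2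
        exact above_unique V E hD hE e (s e) f (s f) (u e) heE hfE (hs e he) (hs f hf) hfe hff
          l1 l2
  rw [Finset.card_product, Finset.card_univ, Fintype.card_bool] at hNc
  omega

end H64.BL
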