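import Pool.Agent.H64.BL.PlCount

/-!
MODULE PlDel (80 lines): `2 |E| ≤ 6 |V| + crO E` for every drawing.

Strong induction on `E.card`. If `Plane E`: `plane_card`. Otherwise there are `e ≠ f` in `E` with
`Crs e f`. Put `E' = E.erase e`: it is a drawing (subset), `E'.card + 1 = E.card`, and
`crO E' + 2 ≤ crO E`, because the filtered set for `E'` is contained in the filtered set for `E`
and misses the two different elements `(e, f)` and `(f, e)` (`Crs` is symmetric).
-/

set_option autoImplicit false

namespace H64.BL

open Finset

theorem Drawing.mono {V : Finset (ℝ × ℝ)} {E E' : Finset Seg} (hD : Drawing V E) (h : E' ⊆ E) :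
    Drawing V E' :=
  ⟨fun e he => hD.lt e (h he), fun e he => hD.pm e (h he), fun e he => hD.qm e (h he),
    fun e he => hD.free e (h he)⟩

theorem crs_symm {e f : Seg} (h : Crs e f) : Crs f e := by
  obtain ⟨X, h1, h2, h3, h4, h5⟩ := h
  exact ⟨X, h2, h1, h4, h3, h5.symm⟩

theorem two_card_le (V : Finset (ℝ × ℝ)) (E : Finset Seg) (hD : Drawing V E) :
    2 * E.card ≤ 6 * V.card + crO E := by
  classical
  induction hn : E.card using Nat.strong_induction_on generalizing E with
  | _ n ih =>
    by_cases hP : Plane E
    · have h := plane_card V E hD hP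
      omega
    · unfold Plane at hP
      push Not at hP
      obtain ⟨e, he, f, hf, hef, hc⟩ := hP
      have hcard : (E.erase e).card + 1 = E.card := Finset.card_erase_add_one he
      have hih := ih (E.erase e).card (by omega) (E.erase e)
        (hD.mono (Finset.erase_subset e E)) rfl
      have hcr : crO (E.erase e) + 2 ≤ crO E := by
        unfold crO
        have hsub : (((E.erase e) ×ˢ (E.erase e)).filter (fun q => q.1 ≠ q.2 ∧ Crs q.1 q.2))
            ∪ {(e, f), (f, e)} ⊆ (E ×ˢ E).filter (fun q => q.1 ≠ q.2 ∧ Crs q.1 q.2) := by
          intro q hq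
          rcases Finset.mem_union.1 hq with hq | hq
          · obtain ⟨hq1, hq2⟩ := Finset.mem_filter.1 hq
            obtain ⟨ha, hb⟩ := Finset.mem_product.1 hq1
            exact Finset.mem_filter.2 ⟨Finset.mem_product.2
              ⟨Finset.mem_of_mem_erase ha, Finset.mem_of_mem_erase hb⟩, hq2⟩
          · rcases Finset.mem_insert.1 hq with hq | hq
            · subst hq
              exact Finset.mem_filter.2 ⟨Finset.mem_product.2 ⟨he, hf⟩, hef, hc⟩
            · have hq' := Finset.mem_singleton.1 hq
              subst hq'
              exact Finset.mem_filter.2 ⟨Finset.mem_product.2 ⟨hf, he⟩, hef.symm, crs_symm hc⟩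
        have hdisj : Disjoint
            (((E.erase e) ×ˢ (E.erase e)).filter (fun q => q.1 ≠ q.2 ∧ Crs q.1 q.2))
            ({(e, f), (f, e)} : Finset (Seg × Seg)) := by
          rw [Finset.disjoint_left]
          intro q hq hq2
          obtain ⟨hq1, _⟩ := Finset.mem_filter.1 hq
          obtain ⟨ha, hb⟩ := Finset.mem_product.1 hq1
          rcases Finset.mem_insert.1 hq2 with hq2 | hq2
          · subst hq2
            exact (Finset.ne_of_mem_erase ha) rfl
          · have hq' := Finset.mem_singleton.1 hq2
            subst hq'
            exact (Finset.ne_of_mem_erase hb) rfl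
        have htwo : ({(e, f), (f, e)} : Finset (Seg × Seg)).card = 2 := by
          apply Finset.card_pair
          intro h
          exact hef (congrArg Prod.fst h)
        have h := Finset.card_le_card hsub
        rw [Finset.card_union_of_disjoint hdisj, htwo] at h
        exact h
      omega

end H64.BL
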