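import Pool.Agent.H64.BL.PlLin

/-!
MODULE PlFirst (60 lines): existence of the next segment and of the first vertex.

`succ_exists`: if some `f ∈ E` has the same left end and a larger slope, then the one with the
smallest slope among them exists (`Finset.exists_min_image`).
`first_exists`: for `IsSucc E e e'` in a drawing the set of the vertices in the region is nonempty:
if `e.2.1 ≤ e'.2.1` then `e.2` is in the region (height `segH e`, below `segH e'` because
of `segH_lt_of_left` at the common left end), otherwise `e'.2` is. Take one with the smallest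
abscissa (`Finset.exists_min_image`).
-/

set_option autoImplicit false

namespace H64.BL

open Finset

theorem succ_exists (E : Finset Seg) (e : Seg)
    (h : ∃ f ∈ E, f.1 = e.1 ∧ segSl e < segSl f) : ∃ e', IsSucc E e e' := by
  classical
  obtain ⟨f, hf, hf1, hf2⟩ := h
  obtain ⟨e', he', hmin⟩ := Finset.exists_min_image
    (E.filter (fun f => f.1 = e.1 ∧ segSl e < segSl f)) segSl
    ⟨f, Finset.mem_filter.mpr ⟨hf, hf1, hf2⟩⟩
  rw [Finset.mem_filter] at he'
  refine ⟨e', he'.1, he'.2.1, he'.2.2, fun g hg hg1 hg2 => ?_⟩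
  exact hmin g (Finset.mem_filter.mpr ⟨hg, hg1, hg2⟩)

theorem first_exists (V : Finset (ℝ × ℝ)) (E : Finset Seg) (hD : Drawing V E) (e e' : Seg)
    (he : e ∈ E) (hs : IsSucc E e e') : ∃ u, First V e e' u := by
  classical
  obtain ⟨he', hl, hsl, -⟩ := hs
  have hlt := hD.lt e he
  have hlt' := hD.lt e' he'
  have hlx : e'.1.1 = e.1.1 := by rw [hl]
  have hleft : segH e e.1.1 = segH e' e.1.1 := by
    have h := segH_left e'
    rw [hl] at h
    rw [h, segH_left]
  have hne : ∃ v ∈ V, InReg e e' v := by
    rcases le_total e.2.1 e'.2.1 with h | h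
    · refine ⟨e.2, hD.qm e he, hlt, le_rfl, h, (segH_right e hlt).le, ?_⟩
      have := segH_lt_of_left e e' e.1.1 e.2.1 hleft hlt hsl
      rw [segH_right e hlt] at this
      exact this.le
    · refine ⟨e'.2, hD.qm e' he', ?_, h, le_rfl, ?_, (segH_right e' hlt').ge⟩
      · rw [← hlx]; exact hlt'
      · have := segH_lt_of_left e e' e.1.1 e'.2.1 hleft (by rw [← hlx]; exact hlt') hsl
        rw [segH_right e' hlt'] at this
        exact this.le
  obtain ⟨v, hv, hr⟩ := hne
  obtain ⟨u, hu, hmin⟩ := Finset.exists_min_image (V.filter (fun v => InReg e e' v))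
    (fun v => v.1) ⟨v, Finset.mem_filter.mpr ⟨hv, hr⟩⟩
  rw [Finset.mem_filter] at hu
  exact ⟨u, hu.1, hu.2, fun w hw hwr => hmin w (Finset.mem_filter.mpr ⟨hw, hwr⟩)⟩

end H64.BL
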