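import Pool.Agent.H64.BL.GDefs

/-!
MODULE PlLin (60 lines): elementary facts about `segH`.

Proofs: `segH` is affine in `X`; `segH_left`: value at the left end; `segH_right`: value at the
right end (uses `e.1.1 < e.2.1`, field_simp).
`crs_of_lt`: the difference `D X = segH e X - segH f X` is affine, `D X₀ < 0 < D X₁` with
`X₀ < X₁`, so it vanishes at a point strictly between `X₀` and `X₁` (explicitly
`X = X₀ + (X₁ - X₀) * (-D X₀) / (D X₁ - D X₀)`, or by the intermediate value theorem).
`segH_lt_of_right`: two segments of different slopes meeting at `X = a`: to the left of `a` the one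
with the larger slope is strictly below. `segH_lt_of_left`: to the right of a common point the one
with the larger slope is strictly above.
`eq_of_sl`: two segments of a plane drawing with the same left end and the same slope are equal
(otherwise the two segments overlap and cross at any `X` just right of the left end:
`X = (e.1.1 + min e.2.1 f.2.1)/2`).
`eq_of_sl_right`: same for the right end.
-/

set_option autoImplicit false

namespace H64.BL

open Finset

theorem segH_left (e : Seg) : segH e e.1.1 = e.1.2 := by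
  unfold segH
  ring

theorem segH_right (e : Seg) (h : e.1.1 < e.2.1) : segH e e.2.1 = e.2.2 := by
  unfold segH segSl
  have h0 : e.2.1 - e.1.1 ≠ 0 := (sub_pos.mpr h).ne'
  field_simp
  ring

theorem segH_sub (e : Seg) (X Y : ℝ) : segH e X - segH e Y = segSl e * (X - Y) := by
  unfold segH
  ring

theorem crs_of_lt (e f : Seg) (X₀ X₁ : ℝ) (h01 : X₀ < X₁) (he : e.1.1 ≤ X₀) (hf : f.1.1 ≤ X₀)
    (he1 : X₁ ≤ e.2.1) (hf1 : X₁ ≤ f.2.1) (h0 : segH e X₀ < segH f X₀)
    (h1 : segH f X₁ < segH e X₁) : Crs e f := by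
  set a : ℝ := segH f X₀ - segH e X₀ with ha
  set b : ℝ := segH e X₁ - segH f X₁ with hb
  have hap : 0 < a := by rw [ha]; linarith
  have hbp : 0 < b := by rw [hb]; linarith
  have hab : 0 < a + b := by linarith
  have hd : 0 < X₁ - X₀ := by linarith
  have ht : 0 < (X₁ - X₀) * (a / (a + b)) := mul_pos hd (div_pos hap hab)
  have ht1 : (X₁ - X₀) * (a / (a + b)) < X₁ - X₀ := by
    have h2 : a / (a + b) < 1 := (div_lt_one hab).mpr (by linarith)
    have h3 := mul_lt_mul_of_pos_left h2 hd
    rwa [mul_one] at h3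
  have h4 : segH e X₁ - segH e X₀ = segSl e * (X₁ - X₀) := segH_sub e X₁ X₀
  have h5 : segH f X₁ - segH f X₀ = segSl f * (X₁ - X₀) := segH_sub f X₁ X₀
  refine ⟨X₀ + (X₁ - X₀) * (a / (a + b)), by linarith, by linarith, by linarith, by linarith, ?_⟩
  have h6 := segH_sub e (X₀ + (X₁ - X₀) * (a / (a + b))) X₀
  have h7 := segH_sub f (X₀ + (X₁ - X₀) * (a / (a + b))) X₀
  have h8 : (segSl e - segSl f) * (X₁ - X₀) = a + b := by
    rw [sub_mul, ← h4, ← h5, ha, hb]
    ring
  have h9 : (segSl e - segSl f) * ((X₁ - X₀) * (a / (a + b))) = a := by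
    rw [← mul_assoc, h8]
    field_simp
  have h10 : X₀ + (X₁ - X₀) * (a / (a + b)) - X₀ = (X₁ - X₀) * (a / (a + b)) := by ring
  rw [h10] at h6 h7
  rw [sub_mul] at h9
  linarith

theorem segH_lt_of_right (e f : Seg) (a X : ℝ) (ha : segH e a = segH f a) (hX : X < a)
    (hs : segSl e < segSl f) : segH f X < segH e X := by
  have h1 := segH_sub e a X
  have h2 := segH_sub f a X
  have h3 := mul_lt_mul_of_pos_right hs (sub_pos.mpr hX)
  linarith

theorem segH_lt_of_left (e f : Seg) (a X : ℝ) (ha : segH e a = segH f a) (hX : a < X)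
    (hs : segSl e < segSl f) : segH e X < segH f X := by
  have h1 := segH_sub e X a
  have h2 := segH_sub f X a
  have h3 := mul_lt_mul_of_pos_right hs (sub_pos.mpr hX)
  linarith

theorem eq_of_sl (E : Finset Seg) (hE : Plane E) (hlt : ∀ e ∈ E, e.1.1 < e.2.1) (e f : Seg)
    (he : e ∈ E) (hf : f ∈ E) (h1 : e.1 = f.1) (hs : segSl e = segSl f) : e = f := by
  by_contra hne
  apply hE e he f hf hne
  have h2 := hlt e he
  have h3 := hlt f hf
  have h4 : f.1.1 = e.1.1 := by rw [h1]
  have h5 : e.1.1 < min e.2.1 f.2.1 := lt_min h2 (by rw [← h4]; exact h3)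
  have h6 := min_le_left e.2.1 f.2.1
  have h7 := min_le_right e.2.1 f.2.1
  refine ⟨(e.1.1 + min e.2.1 f.2.1) / 2, by linarith, by linarith, by linarith, by linarith, ?_⟩
  unfold segH
  rw [h1, hs]

theorem eq_of_sl_right (E : Finset Seg) (hE : Plane E) (hlt : ∀ e ∈ E, e.1.1 < e.2.1) (e f : Seg)
    (he : e ∈ E) (hf : f ∈ E) (h1 : e.2 = f.2) (hs : segSl e = segSl f) : e = f := by
  by_contra hne
  apply hE e he f hf hne
  have h2 := hlt e he
  have h3 := hlt f hf
  have h4 : f.2.1 = e.2.1 := by rw [h1]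
  have h5 : max e.1.1 f.1.1 < e.2.1 := max_lt h2 (by rw [← h4]; exact h3)
  have h6 := le_max_left e.1.1 f.1.1
  have h7 := le_max_right e.1.1 f.1.1
  refine ⟨(max e.1.1 f.1.1 + e.2.1) / 2, by linarith, by linarith, by linarith, by linarith, ?_⟩
  have h8 := segH_right e h2
  have h9 := segH_right f h3
  have h10 := segH_sub e ((max e.1.1 f.1.1 + e.2.1) / 2) e.2.1
  have h11 := segH_sub f ((max e.1.1 f.1.1 + e.2.1) / 2) f.2.1
  rw [h8, hs] at h10
  rw [h9, ← h1] at h11
  linarith

end H64.BL
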