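import Pool.Agent.H64.BL.ZExt

/-!
MODULE SmA (110 lines): the system of the charts: elementary facts.

`A.vx`: for `g ∈ w ∈ A.S.L`: `h ∈ w ↔ (A.ch (A.r w)).x h = (A.ch (A.r w)).x g` (`vert_mem`, `vert`).
`A.rinj`: `w, w' ∈ L`, `g ∈ w`, `g ∈ w'`, `r w = r w'` give `w = w'` (both are the vertical line of
`g` in the same chart).
`sg_x`: `(c.sg ε).x = c.x` (`cases ε`).
`mid_count`: for `w ∈ L` and `ε`: exactly `|w| - 2` points `g ∈ w` are `Mid` in the chart
`(ch (r w)).sg ε`. Proof: by `vx` the points with the abscissa of `g` are the points of `w`; their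
`y` are different (`inj`); `Mid` fails exactly for the lowest and for the highest point of `w`
(different because `2 ≤ |w|`). Here only `|w| ≤ #Mid + 2` is needed.
`card_two`: `2 ≤ Fintype.card ι` if there is a line.
-/

set_option autoImplicit false

namespace H64.BL

open Finset

variable {ι κ : Type} [Fintype ι] [DecidableEq ι] [Fintype κ] [DecidableEq κ]

theorem sg_x {S : LinSp ι} (c : Chart S) (ε : Bool) : (c.sg ε).x = c.x := by
  cases ε <;> rfl

theorem Sys.vx (A : Sys ι κ) (w : Finset ι) (hw : w ∈ A.S.L) (g : ι) (hg : g ∈ w) (h : ι) :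
    h ∈ w ↔ (A.ch (A.r w)).x h = (A.ch (A.r w)).x g :=
  vert_mem (A.ch (A.r w)) w hw g hg (fun i hi => A.vert w hw i hi g hg) h

theorem Sys.rinj (A : Sys ι κ) (w w' : Finset ι) (hw : w ∈ A.S.L) (hw' : w' ∈ A.S.L) (g : ι)
    (hg : g ∈ w) (hg' : g ∈ w') (h : A.r w = A.r w') : w = w' := by
  ext k
  rw [A.vx w hw g hg k, A.vx w' hw' g hg' k, h]

open Classical in
theorem Sys.mid_count (A : Sys ι κ) (w : Finset ι) (hw : w ∈ A.S.L) (ε : Bool) :
    w.card ≤ (w.filter (fun g => Mid ((A.ch (A.r w)).sg ε) g)).card + 2 := by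
  have hne : w.Nonempty := by
    have := A.S.two w hw
    exact Finset.card_pos.1 (by omega)
  set c := (A.ch (A.r w)).sg ε with hc
  have hx : ∀ i ∈ w, ∀ j ∈ w, c.x i = c.x j := by
    intro i hi j hj
    rw [hc, sg_x]
    exact A.vert w hw i hi j hj
  obtain ⟨a, ha, hmin⟩ := Finset.exists_min_image w c.y hne
  obtain ⟨b, hb, hmax⟩ := Finset.exists_max_image w c.y hne
  have hsub : w ⊆ w.filter (fun g => Mid c g) ∪ {a, b} := by
    intro g hg
    rw [Finset.mem_union, Finset.mem_filter]
    by_cases hga : g = a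
    · right; simp [hga]
    by_cases hgb : g = b
    · right; simp [hgb]
    left
    refine ⟨hg, ⟨a, hx a ha g hg, ?_⟩, ⟨b, hx b hb g hg, ?_⟩⟩
    · rcases lt_or_eq_of_le (hmin g hg) with h | h
      · exact h
      · exact absurd (c.inj g a (hx g hg a ha) h.symm) hga
    · rcases lt_or_eq_of_le (hmax g hg) with h | h
      · exact h
      · exact absurd (c.inj g b (hx g hg b hb) h) hgb
  calc w.card ≤ (w.filter (fun g => Mid c g) ∪ {a, b}).card := Finset.card_le_card hsub
    _ ≤ (w.filter (fun g => Mid c g)).card + ({a, b} : Finset ι).card := Finset.card_union_le _ _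
    _ ≤ (w.filter (fun g => Mid c g)).card + 2 := by
        have := Finset.card_le_two (a := a) (b := b)
        omega

end H64.BL
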