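import Pool.Agent.H64.BL.SmA

/-!
MODULE SmB (130 lines): every pair `(ℓ, g)`, `g ∈ ℓ`, is hit exactly twice.

`e ρ ε g` is the extreme line at `g` in the chart `(ch ρ).sg ε`. Claim: for every `φ : ℕ → ℕ`
`∑_{w ∈ L} ∑_{g ∈ w} ∑_ε φ |e (r w) ε g| = ∑_{ℓ ∈ L} 2 |ℓ| φ |ℓ|`.

Proof. Fix `g`. Let `P = {w ∈ L | g ∈ w}` and `T = P × Bool` (`univ`), `F (w, ε) = e (r w) ε g`.
`F` maps `T` into `P`. Every `ℓ ∈ P` has at least two preimages: `A.nb ℓ g` gives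
`(w₁, ε₁) ≠ (w₂, ε₂)` with `Ext`, so `F = ℓ` there by `ext_unique`. Since
`|T| = 2 |P| = ∑_{ℓ ∈ P} |F⁻¹ ℓ|` (`card_eq_sum_card_fiberwise`), every fibre has exactly two
elements. So `∑_{(w, ε) ∈ T} φ |F (w, ε)| = ∑_{ℓ ∈ P} 2 φ |ℓ|` (`sum_fiberwise_of_maps_to`).
Sum over `g` and exchange the sums (`∑_g ∑_{w ∈ L, g ∈ w} = ∑_{w ∈ L} ∑_{g ∈ w}`,
`Finset.sum_comm'`).
-/

set_option autoImplicit false

namespace H64.BL

open Finset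

variable {ι κ : Type} [Fintype ι] [DecidableEq ι] [Fintype κ] [DecidableEq κ]

open Classical in
private theorem fibre_sum (A : Sys ι κ) (e : κ → Bool → ι → Finset ι)
    (he : ∀ ρ ε g, e ρ ε g ∈ A.S.L ∧ Ext ((A.ch ρ).sg ε) g (e ρ ε g)) (φ : ℕ → ℕ) (g : ι) :
    ∑ w ∈ A.S.L.filter (fun w => g ∈ w), ∑ ε : Bool, φ (e (A.r w) ε g).card =
      ∑ ℓ ∈ A.S.L.filter (fun w => g ∈ w), 2 * φ ℓ.card := by
  set P := A.S.L.filter (fun w => g ∈ w) with hP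
  set T := P ×ˢ (Finset.univ : Finset Bool) with hT
  let F : Finset ι × Bool → Finset ι := fun q => e (A.r q.1) q.2 g
  have hmaps : ∀ q ∈ T, F q ∈ P := by
    intro q hq
    rw [hP, Finset.mem_filter]
    exact ⟨(he (A.r q.1) q.2 g).1, (he (A.r q.1) q.2 g).2.1⟩
  have htwo : ∀ ℓ ∈ P, 2 ≤ (T.filter (fun q => F q = ℓ)).card := by
    intro ℓ hℓ
    rw [hP, Finset.mem_filter] at hℓ
    obtain ⟨w₁, hw₁, w₂, hw₂, ε₁, ε₂, hne, hg₁, hg₂, hE₁, hE₂⟩ := A.nb ℓ hℓ.1 g hℓ.2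
    have hF₁ : F (w₁, ε₁) = ℓ :=
      ext_unique _ g _ _ (he (A.r w₁) ε₁ g).1 hℓ.1 (he (A.r w₁) ε₁ g).2 hE₁
    have hF₂ : F (w₂, ε₂) = ℓ :=
      ext_unique _ g _ _ (he (A.r w₂) ε₂ g).1 hℓ.1 (he (A.r w₂) ε₂ g).2 hE₂
    have hm₁ : (w₁, ε₁) ∈ T.filter (fun q => F q = ℓ) := by
      rw [Finset.mem_filter, hT, Finset.mem_product, hP, Finset.mem_filter]
      exact ⟨⟨⟨hw₁, hg₁⟩, Finset.mem_univ _⟩, hF₁⟩
    have hm₂ : (w₂, ε₂) ∈ T.filter (fun q => F q = ℓ) := by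
      rw [Finset.mem_filter, hT, Finset.mem_product, hP, Finset.mem_filter]
      exact ⟨⟨⟨hw₂, hg₂⟩, Finset.mem_univ _⟩, hF₂⟩
    exact Finset.one_lt_card.2 ⟨_, hm₁, _, hm₂, hne⟩
  have hTc : T.card = ∑ ℓ ∈ P, 2 := by
    rw [hT, Finset.card_product, Finset.sum_const]
    simp
  have hcard : ∑ ℓ ∈ P, (T.filter (fun q => F q = ℓ)).card = ∑ ℓ ∈ P, 2 := by
    rw [← hTc]
    exact (Finset.card_eq_sum_card_fiberwise hmaps).symm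
  have heq : ∀ ℓ ∈ P, (T.filter (fun q => F q = ℓ)).card = 2 := by
    have := (Finset.sum_eq_sum_iff_of_le (f := fun _ : Finset ι => 2)
      (g := fun ℓ => (T.filter (fun q => F q = ℓ)).card) (s := P) htwo).1 hcard.symm
    intro ℓ hℓ
    exact (this ℓ hℓ).symm
  have h1 : ∑ w ∈ P, ∑ ε : Bool, φ (e (A.r w) ε g).card = ∑ q ∈ T, φ (F q).card := by
    rw [hT, Finset.sum_product]
  rw [h1, ← Finset.sum_fiberwise_of_maps_to hmaps]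
  refine Finset.sum_congr rfl fun ℓ hℓ => ?_
  rw [Finset.sum_congr rfl (g := fun _ => φ ℓ.card)]
  · rw [Finset.sum_const, heq ℓ hℓ, smul_eq_mul]
  · intro q hq
    rw [(Finset.mem_filter.1 hq).2]

theorem Sys.twice (A : Sys ι κ) (e : κ → Bool → ι → Finset ι)
    (he : ∀ ρ ε g, e ρ ε g ∈ A.S.L ∧ Ext ((A.ch ρ).sg ε) g (e ρ ε g)) (φ : ℕ → ℕ) :
    ∑ w ∈ A.S.L, ∑ g ∈ w, ∑ ε : Bool, φ (e (A.r w) ε g).card =
      ∑ ℓ ∈ A.S.L, 2 * ℓ.card * φ ℓ.card := by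
  classical
  have hL : ∑ w ∈ A.S.L, ∑ g ∈ w, ∑ ε : Bool, φ (e (A.r w) ε g).card =
      ∑ g : ι, ∑ w ∈ A.S.L.filter (fun w => g ∈ w), ∑ ε : Bool, φ (e (A.r w) ε g).card := by
    apply Finset.sum_comm'
    intro w g
    simp
  have hR : ∑ ℓ ∈ A.S.L, 2 * ℓ.card * φ ℓ.card =
      ∑ g : ι, ∑ ℓ ∈ A.S.L.filter (fun w => g ∈ w), 2 * φ ℓ.card := by
    have : ∑ ℓ ∈ A.S.L, 2 * ℓ.card * φ ℓ.card = ∑ ℓ ∈ A.S.L, ∑ _g ∈ ℓ, 2 * φ ℓ.card := by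
      refine Finset.sum_congr rfl fun ℓ _ => ?_
      rw [Finset.sum_const, smul_eq_mul]
      ring
    rw [this]
    apply Finset.sum_comm'
    intro w g
    simp
  rw [hL, hR]
  exact Finset.sum_congr rfl fun g _ => fibre_sum A e he φ g

end H64.BL
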