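import Pool.Agent.H64.BL.ZLine

/-!
MODULE ZCh (130 lines): the charges.

`e : ι → Finset ι` is the map `g ↦` the extreme line at `g`. `ChA c e g ℓ`: the line `ℓ ∋ g` is
charged to `(g, A)`: `ℓ` has a point strictly left of `g` and `e g₀ = ℓ` for a point `g₀ ∈ ℓ` with
`x g ≤ x g₀`. `ChB`: mirror image.

`chA_unique`: `ChA c e g ℓ` and `ChA c e g ℓ'` give `ℓ = ℓ'`: with `k ∈ ℓ`, `k' ∈ ℓ'` strictly left
of `g`, `left_sl` gives `sl g k ≤ sl g k'` and `sl g k' ≤ sl g k`, so `k' ∈ ℓ` (`mem_of_sl`) and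
`S.uniq` for `g, k'`. `chB_unique`: mirror image.

`ch_count`: if `e g₀ = ℓ` for some `g₀` then
`|ℓ| + |{g | e g = ℓ}| ≤ |{g ∈ ℓ | ChA g ℓ}| + |{g ∈ ℓ | ChB g ℓ}| + 2`.
 Proof: let `a` be the leftmost and `b` the rightmost point of `ℓ` (`exists_min_image`; the
 abscissas of the points of `ℓ` are different, `xne`). Note `e g = ℓ` implies `g ∈ ℓ`.
 For every `g ∈ ℓ`: `1 + [e g = ℓ] ≤ [ChA g ℓ] + [g = a] + [ChB g ℓ] + [g = b]`:
 if `e g = ℓ` then (taking `g₀ = g`) `ChA` holds unless `g = a` and `ChB` holds unless `g = b`;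
 if not, then `x g < x g₀` or `x g > x g₀` for the given `g₀`; in the first case `ChA` holds unless
 `g = a`, in the second `ChB` holds unless `g = b`. Sum over `g ∈ ℓ`.

`mid_card`: `Mid c g` and `|e g| = 2`: not both `∃ ℓ ∈ S.L, ChA c e g ℓ` and
`∃ ℓ ∈ S.L, ChB c e g ℓ`. Proof: `e g = {g, h}`. Case `x h < x g`: let `ChB c e g ℓ` with `g₀`,
`e g₀ = ℓ`, `x g₀ ≤ x g`. `ℓ ≠ e g` since `ℓ` has a point strictly right of `g` (`e g` has only the
points `g` and `h`). So `g₀ ≠ g`, and `x g₀ ≠ x g` (`xne`), so `x g₀ < x g`. The point `h'` with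
`x h' = x g`, `y h' < y g` (`Mid`) contradicts `right_pt`. Case `x h > x g`: `ChA` gives `g₀` with
`x g < x g₀` and the point above `g` contradicts `left_pt`. (`x h ≠ x g` by `Ext`.)
-/

set_option autoImplicit false

namespace H64.BL

open Finset

variable {ι : Type} [Fintype ι] [DecidableEq ι] {S : LinSp ι}

def ChA (c : Chart S) (e : ι → Finset ι) (g : ι) (ℓ : Finset ι) : Prop :=
  g ∈ ℓ ∧ (∃ h ∈ ℓ, c.x h < c.x g) ∧ ∃ g₀ ∈ ℓ, e g₀ = ℓ ∧ c.x g ≤ c.x g₀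

def ChB (c : Chart S) (e : ι → Finset ι) (g : ι) (ℓ : Finset ι) : Prop :=
  g ∈ ℓ ∧ (∃ h ∈ ℓ, c.x g < c.x h) ∧ ∃ g₀ ∈ ℓ, e g₀ = ℓ ∧ c.x g₀ ≤ c.x g

theorem chA_unique (c : Chart S) (e : ι → Finset ι) (he : ∀ g, e g ∈ S.L ∧ Ext c g (e g))
    (g : ι) (ℓ ℓ' : Finset ι) (h : ChA c e g ℓ) (h' : ChA c e g ℓ') : ℓ = ℓ' := by
  obtain ⟨hg, ⟨k, hk, hkx⟩, g₀, hg₀, he₀, hx₀⟩ := h
  obtain ⟨hg', ⟨k', hk', hkx'⟩, g₀', hg₀', he₀', hx₀'⟩ := h'
  have hℓ : ℓ ∈ S.L := he₀ ▸ (he g₀).1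
  have hℓ' : ℓ' ∈ S.L := he₀' ▸ (he g₀').1
  have E : Ext c g₀ ℓ := by have := (he g₀).2; rwa [he₀] at this
  have E' : Ext c g₀' ℓ' := by have := (he g₀').2; rwa [he₀'] at this
  have h1 := left_sl c ℓ hℓ g₀ g k k' E hg hx₀ hk hkx hkx'
  have h2 := left_sl c ℓ' hℓ' g₀' g k' k E' hg' hx₀' hk' hkx' hkx
  have hs : c.sl g k = c.sl g k' := le_antisymm h1 h2
  have hk2 : k' ∈ ℓ := mem_of_sl c ℓ hℓ g k k' hg hk (ne_of_lt hkx) (ne_of_lt hkx') hs
  exact S.uniq ℓ hℓ ℓ' hℓ' g k' (fun e => (ne_of_lt hkx') (by rw [e])) hg hk2 hg' hk'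

theorem chB_unique (c : Chart S) (e : ι → Finset ι) (he : ∀ g, e g ∈ S.L ∧ Ext c g (e g))
    (g : ι) (ℓ ℓ' : Finset ι) (h : ChB c e g ℓ) (h' : ChB c e g ℓ') : ℓ = ℓ' := by
  obtain ⟨hg, ⟨k, hk, hkx⟩, g₀, hg₀, he₀, hx₀⟩ := h
  obtain ⟨hg', ⟨k', hk', hkx'⟩, g₀', hg₀', he₀', hx₀'⟩ := h'
  have hℓ : ℓ ∈ S.L := he₀ ▸ (he g₀).1
  have hℓ' : ℓ' ∈ S.L := he₀' ▸ (he g₀').1
  have E : Ext c g₀ ℓ := by have := (he g₀).2; rwa [he₀] at this
  have E' : Ext c g₀' ℓ' := by have := (he g₀').2; rwa [he₀'] at this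
  have h1 := right_sl c ℓ hℓ g₀ g k k' E hg hx₀ hk hkx hkx'
  have h2 := right_sl c ℓ' hℓ' g₀' g k' k E' hg' hx₀' hk' hkx' hkx
  have hs : c.sl g k = c.sl g k' := le_antisymm h1 h2
  have hk2 : k' ∈ ℓ := mem_of_sl c ℓ hℓ g k k' hg hk (ne_of_gt hkx) (ne_of_gt hkx') hs
  exact S.uniq ℓ hℓ ℓ' hℓ' g k' (fun e => (ne_of_gt hkx') (by rw [e])) hg hk2 hg' hk'

open Classical in
theorem ch_count (c : Chart S) (e : ι → Finset ι) (he : ∀ g, e g ∈ S.L ∧ Ext c g (e g))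
    (ℓ : Finset ι) (hℓ : ∃ g₀, e g₀ = ℓ) :
    ℓ.card + (univ.filter (fun g => e g = ℓ)).card ≤
      (univ.filter (fun g => ChA c e g ℓ)).card + (univ.filter (fun g => ChB c e g ℓ)).card + 2 := by
  obtain ⟨g₀, he₀⟩ := hℓ
  have hL : ℓ ∈ S.L := he₀ ▸ (he g₀).1
  have E : Ext c g₀ ℓ := by have := (he g₀).2; rwa [he₀] at this
  obtain ⟨hg₀, ⟨k, hk, hkx⟩, -⟩ := E
  have xinj : ∀ a ∈ ℓ, ∀ b ∈ ℓ, c.x a = c.x b → a = b := by
    intro a ha b hb hab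
    by_contra hne
    exact xne c ℓ hL g₀ k a b hg₀ hk hkx ha hb hne hab
  have hne : ℓ.Nonempty := ⟨g₀, hg₀⟩
  obtain ⟨a, ha, hmin⟩ := Finset.exists_min_image ℓ c.x hne
  obtain ⟨b, hb, hmax⟩ := Finset.exists_max_image ℓ c.x hne
  have hA : (univ.filter (fun g => ChA c e g ℓ)).card =
      ∑ g ∈ ℓ, (if ChA c e g ℓ then 1 else 0) := by
    rw [Finset.card_eq_sum_ones, Finset.sum_filter]
    symm
    apply Finset.sum_subset (Finset.subset_univ _)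
    intro g _ hg
    rw [if_neg (fun h => hg h.1)]
  have hB : (univ.filter (fun g => ChB c e g ℓ)).card =
      ∑ g ∈ ℓ, (if ChB c e g ℓ then 1 else 0) := by
    rw [Finset.card_eq_sum_ones, Finset.sum_filter]
    symm
    apply Finset.sum_subset (Finset.subset_univ _)
    intro g _ hg
    rw [if_neg (fun h => hg h.1)]
  have hE : (univ.filter (fun g => e g = ℓ)).card = ∑ g ∈ ℓ, (if e g = ℓ then 1 else 0) := by
    rw [Finset.card_eq_sum_ones, Finset.sum_filter]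
    symm
    apply Finset.sum_subset (Finset.subset_univ _)
    intro g _ hg
    rw [if_neg]
    intro h
    apply hg
    have := (he g).2.1
    rwa [h] at this
  have ha1 : ∑ g ∈ ℓ, (if g = a then 1 else 0) = 1 := by
    rw [Finset.sum_ite_eq' ℓ a, if_pos ha]
  have hb1 : ∑ g ∈ ℓ, (if g = b then 1 else 0) = 1 := by
    rw [Finset.sum_ite_eq' ℓ b, if_pos hb]
  have hc : ℓ.card = ∑ g ∈ ℓ, 1 := Finset.card_eq_sum_ones ℓ
  have key : ∑ g ∈ ℓ, (1 + (if e g = ℓ then 1 else 0)) ≤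
      ∑ g ∈ ℓ, ((if ChA c e g ℓ then 1 else 0) + (if ChB c e g ℓ then 1 else 0) +
        (if g = a then 1 else 0) + (if g = b then 1 else 0)) := by
    apply Finset.sum_le_sum
    intro g hg
    have fa : ∀ g₁ ∈ ℓ, e g₁ = ℓ → c.x g ≤ c.x g₁ → g ≠ a → ChA c e g ℓ := by
      intro g₁ hg₁ he₁ hx₁ hga
      refine ⟨hg, ⟨a, ha, ?_⟩, g₁, hg₁, he₁, hx₁⟩
      rcases lt_or_eq_of_le (hmin g hg) with h | h
      · exact h
      · exact absurd (xinj a ha g hg h).symm hga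
    have fb : ∀ g₁ ∈ ℓ, e g₁ = ℓ → c.x g₁ ≤ c.x g → g ≠ b → ChB c e g ℓ := by
      intro g₁ hg₁ he₁ hx₁ hgb
      refine ⟨hg, ⟨b, hb, ?_⟩, g₁, hg₁, he₁, hx₁⟩
      rcases lt_or_eq_of_le (hmax g hg) with h | h
      · exact h
      · exact absurd (xinj b hb g hg h.symm).symm hgb
    have wa : ∀ g₁ ∈ ℓ, e g₁ = ℓ → c.x g ≤ c.x g₁ →
        1 ≤ (if ChA c e g ℓ then 1 else 0) + (if g = a then 1 else 0) := by
      intro g₁ hg₁ he₁ hx₁
      by_cases hga : g = a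
      · rw [if_pos hga]; omega
      · rw [if_pos (fa g₁ hg₁ he₁ hx₁ hga)]; omega
    have wb : ∀ g₁ ∈ ℓ, e g₁ = ℓ → c.x g₁ ≤ c.x g →
        1 ≤ (if ChB c e g ℓ then 1 else 0) + (if g = b then 1 else 0) := by
      intro g₁ hg₁ he₁ hx₁
      by_cases hgb : g = b
      · rw [if_pos hgb]; omega
      · rw [if_pos (fb g₁ hg₁ he₁ hx₁ hgb)]; omega
    by_cases heg : e g = ℓ
    · have h1 := wa g hg heg le_rfl
      have h2 := wb g hg heg le_rfl
      rw [if_pos heg]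
      omega
    · rw [if_neg heg]
      rcases le_total (c.x g) (c.x g₀) with h | h
      · have h1 := wa g₀ hg₀ he₀ h
        omega
      · have h2 := wb g₀ hg₀ he₀ h
        omega
  rw [hA, hB, hE, hc, ← Finset.sum_add_distrib]
  refine key.trans (le_of_eq ?_)
  rw [Finset.sum_add_distrib, Finset.sum_add_distrib, Finset.sum_add_distrib, ha1, hb1]

theorem mid_card (c : Chart S) (e : ι → Finset ι) (he : ∀ g, e g ∈ S.L ∧ Ext c g (e g))
    (g : ι) (hm : Mid c g) (h2 : (e g).card = 2) :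
    ¬ ((∃ ℓ, ChA c e g ℓ) ∧ (∃ ℓ, ChB c e g ℓ)) := by
  rintro ⟨⟨ℓ, hA⟩, ⟨ℓ', hB⟩⟩
  obtain ⟨hgm, ⟨h, hh, hhx⟩, -⟩ := (he g).2
  have hgh : g ≠ h := fun e => hhx (by rw [e])
  have hpair : ∀ k ∈ e g, k = g ∨ k = h := by
    have hsub : ({g, h} : Finset ι) ⊆ e g := by
      intro k hk
      rw [Finset.mem_insert, Finset.mem_singleton] at hk
      rcases hk with rfl | rfl
      · exact hgm
      · exact hh
    have heq : ({g, h} : Finset ι) = e g :=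
      Finset.eq_of_subset_of_card_le hsub (by rw [h2, Finset.card_pair hgh])
    intro k hk
    rw [← heq, Finset.mem_insert, Finset.mem_singleton] at hk
    exact hk
  rcases lt_or_gt_of_ne hhx with hlt | hgt
  · obtain ⟨hg', ⟨k, hk, hkx⟩, g₀, hg₀, he₀, hx₀⟩ := hB
    have hne : e g ≠ ℓ' := by
      intro heq
      have := hpair k (heq ▸ hk)
      rcases this with rfl | rfl
      · exact lt_irrefl _ hkx
      · exact lt_asymm hkx hlt
    have E : Ext c g₀ ℓ' := by have := (he g₀).2; rwa [he₀] at this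
    have hL : ℓ' ∈ S.L := he₀ ▸ (he g₀).1
    have hne2 : g₀ ≠ g := by
      intro h0
      rw [h0] at he₀
      exact hne he₀
    have hlt2 : c.x g₀ < c.x g := by
      rcases lt_or_eq_of_le hx₀ with h1 | h1
      · exact h1
      · exfalso
        exact xne c ℓ' hL g k g₀ g hg' hk (ne_of_gt hkx) hg₀ hg' hne2 h1
    obtain ⟨⟨h', hx', hy'⟩, -⟩ := hm
    have := right_pt c ℓ' hL g₀ g h' E hg' (by rw [hx']; exact hlt2) hx'
    exact absurd this (not_le.2 hy')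
  · obtain ⟨hg', ⟨k, hk, hkx⟩, g₀, hg₀, he₀, hx₀⟩ := hA
    have hne : e g ≠ ℓ := by
      intro heq
      have := hpair k (heq ▸ hk)
      rcases this with rfl | rfl
      · exact lt_irrefl _ hkx
      · exact lt_asymm hkx hgt
    have E : Ext c g₀ ℓ := by have := (he g₀).2; rwa [he₀] at this
    have hL : ℓ ∈ S.L := he₀ ▸ (he g₀).1
    have hne2 : g₀ ≠ g := by
      intro h0
      rw [h0] at he₀
      exact hne he₀
    have hlt2 : c.x g < c.x g₀ := by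
      rcases lt_or_eq_of_le hx₀ with h1 | h1
      · exact h1
      · exfalso
        exact xne c ℓ hL g k g g₀ hg' hk (ne_of_lt hkx) hg' hg₀ hne2.symm h1
    obtain ⟨-, ⟨h', hx', hy'⟩⟩ := hm
    have := left_pt c ℓ hL g₀ g h' E hg' (by rw [hx']; exact hlt2) hx'
    exact absurd this (not_le.2 hy')

end H64.BL
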