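import Pool.Agent.H64.BL.Defs

/-!
MODULE ZExt (110 lines): basic facts about a chart and about the extreme line at a point.

`mem_of_sl`: if `g, k ∈ ℓ`, `x k ≠ x g`, `x h ≠ x g` and `sl g k = sl g h` then `h ∈ ℓ`
(`Chart.col` with `i = g`, `j = k`; clear denominators).
`sl_eq`: conversely all non vertical points of `ℓ` have the same slope from `g`.
`xne`: if `g, k ∈ ℓ` with `x k ≠ x g`, then two different points of `ℓ` have different abscissas
(`col` for `g, k` and the two points; if `x a = x b` with `a, b ∈ ℓ` then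
`(x k - x g)(y a - y b) = 0`, so `a = b` by `inj`).
`ext_exists`: needs at least two points. Some `h` has `x h ≠ x g`: otherwise all `x` are equal,
for `i ≠ j` the line through `i, j` contains all points by `col` (both sides are `0`), contradiction
to `noncol`. Take `k` with `x k ≠ x g` and `sl g k` minimal (`Finset.exists_min_image`) and the line
through `g, k` (`S.ex`); the other points of that line have the same slope (`sl_eq`).
`ext_unique`: two extreme lines at `g` have the same slope, so by `mem_of_sl` they share a second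
point; `S.uniq`.
`vert_mem`: if all points of `w ∈ S.L` have the same abscissa as `g ∈ w`, then
`h ∈ w ↔ x h = x g` (`col` with `i = g`, another point `j ∈ w`, `y j ≠ y g` by `inj`).
-/

set_option autoImplicit false

namespace H64.BL

open Finset

variable {ι : Type} [Fintype ι] [DecidableEq ι] {S : LinSp ι}

theorem mem_of_sl (c : Chart S) (ℓ : Finset ι) (hℓ : ℓ ∈ S.L) (g k h : ι) (hg : g ∈ ℓ)
    (hk : k ∈ ℓ) (hkx : c.x k ≠ c.x g) (hhx : c.x h ≠ c.x g) (hs : c.sl g k = c.sl g h) :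
    h ∈ ℓ := by
  have hgk : g ≠ k := fun e => hkx (by rw [e])
  rw [c.col ℓ hℓ g hg k hk hgk h]
  unfold Chart.sl at hs
  rw [div_eq_div_iff (sub_ne_zero.2 hkx) (sub_ne_zero.2 hhx)] at hs
  linarith

theorem sl_eq (c : Chart S) (ℓ : Finset ι) (hℓ : ℓ ∈ S.L) (g k h : ι) (hg : g ∈ ℓ)
    (hk : k ∈ ℓ) (hh : h ∈ ℓ) (hkx : c.x k ≠ c.x g) (hhx : c.x h ≠ c.x g) :
    c.sl g k = c.sl g h := by
  have hgk : g ≠ k := fun e => hkx (by rw [e])
  rw [c.col ℓ hℓ g hg k hk hgk h] at hh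
  unfold Chart.sl
  rw [div_eq_div_iff (sub_ne_zero.2 hkx) (sub_ne_zero.2 hhx)]
  linarith

theorem xne (c : Chart S) (ℓ : Finset ι) (hℓ : ℓ ∈ S.L) (g k a b : ι) (hg : g ∈ ℓ)
    (hk : k ∈ ℓ) (hkx : c.x k ≠ c.x g) (ha : a ∈ ℓ) (hb : b ∈ ℓ) (hab : a ≠ b) :
    c.x a ≠ c.x b := by
  intro hx
  have hy : c.y b - c.y a ≠ 0 := by
    intro h
    exact hab (c.inj a b hx (by linarith))
  have h1 := (c.col ℓ hℓ a ha b hb hab g).1 hg
  have h2 := (c.col ℓ hℓ a ha b hb hab k).1 hk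
  rw [hx, sub_self, zero_mul] at h1 h2
  rcases mul_eq_zero.1 h1.symm with h3 | h3
  · rcases mul_eq_zero.1 h2.symm with h4 | h4
    · exact hkx (by linarith)
    · exact hy h4
  · exact hy h3

theorem ext_exists (c : Chart S) (hn : 2 ≤ Fintype.card ι) (g : ι) :
    ∃ ℓ ∈ S.L, Ext c g ℓ := by
  classical
  have hex : ∃ h, c.x h ≠ c.x g := by
    by_contra hcon
    push Not at hcon
    obtain ⟨i, j, hij⟩ : ∃ i j : ι, i ≠ j := by
      have := Fintype.one_lt_card_iff.1 (by omega : 1 < Fintype.card ι)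
      exact this
    obtain ⟨ℓ, hℓ, hi, hj⟩ := S.ex i j hij
    obtain ⟨k, hk⟩ := S.noncol ℓ hℓ
    apply hk
    rw [c.col ℓ hℓ i hi j hj hij k, hcon i, hcon j, hcon k]
    ring
  obtain ⟨k, hk, hmin⟩ := Finset.exists_min_image
    ((univ : Finset ι).filter (fun h => c.x h ≠ c.x g)) (fun h => c.sl g h)
    (by obtain ⟨h, hh⟩ := hex; exact ⟨h, Finset.mem_filter.2 ⟨Finset.mem_univ _, hh⟩⟩)
  have hkx : c.x k ≠ c.x g := (Finset.mem_filter.1 hk).2
  have hgk : g ≠ k := fun e => hkx (by rw [e])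
  obtain ⟨ℓ, hℓ, hg, hkℓ⟩ := S.ex g k hgk
  refine ⟨ℓ, hℓ, hg, ⟨k, hkℓ, hkx⟩, ?_⟩
  intro m hm hmx h hhx
  rw [sl_eq c ℓ hℓ g m k hg hm hkℓ hmx hkx]
  exact hmin h (Finset.mem_filter.2 ⟨Finset.mem_univ _, hhx⟩)

theorem ext_unique (c : Chart S) (g : ι) (ℓ ℓ' : Finset ι) (hℓ : ℓ ∈ S.L) (hℓ' : ℓ' ∈ S.L)
    (h : Ext c g ℓ) (h' : Ext c g ℓ') : ℓ = ℓ' := by
  obtain ⟨hg, ⟨k, hk, hkx⟩, hm⟩ := h
  obtain ⟨hg', ⟨k', hk', hkx'⟩, hm'⟩ := h'
  have hs : c.sl g k = c.sl g k' :=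
    le_antisymm (hm k hk hkx k' hkx') (hm' k' hk' hkx' k hkx)
  have hk2 : k' ∈ ℓ := mem_of_sl c ℓ hℓ g k k' hg hk hkx hkx' hs
  exact S.uniq ℓ hℓ ℓ' hℓ' g k' (fun e => hkx' (by rw [e])) hg hk2 hg' hk'

theorem vert_mem (c : Chart S) (w : Finset ι) (hw : w ∈ S.L) (g : ι) (hg : g ∈ w)
    (hv : ∀ i ∈ w, c.x i = c.x g) (h : ι) : h ∈ w ↔ c.x h = c.x g := by
  obtain ⟨j, hj, hjg⟩ := Finset.exists_mem_ne (by have := S.two w hw; omega : 1 < w.card) g
  have hxj : c.x j = c.x g := hv j hj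
  have hyj : c.y j - c.y g ≠ 0 := by
    intro h
    exact hjg (c.inj j g hxj (by linarith))
  rw [c.col w hw g hg j hj (Ne.symm hjg) h, hxj, sub_self, zero_mul]
  constructor
  · intro h0
    rcases mul_eq_zero.1 h0.symm with h1 | h1
    · linarith
    · exact absurd h1 hyj
  · intro h0
    rw [h0, sub_self, zero_mul]

end H64.BL
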