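import Pool.Agent.H64.BL.ZExt

/-!
MODULE ZLine (100 lines): all points left (right) of an extreme point of `ℓ` are on or below (on or
above) the line `ℓ`.

Let `Ext c g₀ ℓ`, `g ∈ ℓ`.
`left_sl`: if `x g ≤ x g₀`, `k ∈ ℓ`, `x k < x g` and `x h < x g` then `sl g k ≤ sl g h`.
 Proof: let `s` be the slope of `ℓ` (`s = sl g₀ k' ` for any `k' ∈ ℓ` off the vertical of `g₀`;
 here `x h < x g ≤ x g₀`, so `h` and `k` are off that vertical). `Ext` gives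
 `s ≤ sl g₀ h = (y h - y g₀) / (x h - x g₀)`, and `x h - x g₀ < 0`, so
 `y h - y g₀ ≤ s (x h - x g₀)`; with `y g - y g₀ = s (x g - x g₀)` this gives
 `y h - y g ≤ s (x h - x g)`, so `sl g h ≥ s = sl g k`.
`right_sl`: mirror image: if `x g₀ ≤ x g`, `k ∈ ℓ`, `x g < x k` and `x g < x h` then
 `sl g k ≤ sl g h`.
`left_pt`: if `x h < x g₀`, `g ∈ ℓ`, `x h = x g` then `y h ≤ y g` (a point of the vertical line
 through `g` strictly left of `g₀` is on or below `ℓ`); `right_pt`: if `x g₀ < x h`, `g ∈ ℓ`,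
 `x h = x g` then `y g ≤ y h`.
-/

set_option autoImplicit false

namespace H64.BL

open Finset

variable {ι : Type} [Fintype ι] [DecidableEq ι] {S : LinSp ι}

private theorem line_eq (c : Chart S) (ℓ : Finset ι) (hℓ : ℓ ∈ S.L) (g₀ : ι)
    (he : Ext c g₀ ℓ) : ∃ s : ℝ, (∀ g ∈ ℓ, c.y g - c.y g₀ = s * (c.x g - c.x g₀)) ∧
      (∀ h, c.x h < c.x g₀ → c.y h - c.y g₀ ≤ s * (c.x h - c.x g₀)) ∧
      (∀ h, c.x g₀ < c.x h → s * (c.x h - c.x g₀) ≤ c.y h - c.y g₀) := by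
  obtain ⟨hg₀, ⟨k, hk, hkx⟩, hmin⟩ := he
  have hne : c.x k - c.x g₀ ≠ 0 := sub_ne_zero.mpr hkx
  have hgk : g₀ ≠ k := fun h => hkx (by rw [h])
  refine ⟨c.sl g₀ k, ?_, ?_, ?_⟩
  · intro g hg
    have h := (c.col ℓ hℓ g₀ hg₀ k hk hgk g).mp hg
    unfold Chart.sl
    rw [div_mul_eq_mul_div, eq_div_iff hne]
    linarith
  · intro h hx
    have h1 := hmin k hk hkx h (ne_of_lt hx)
    have h2 : c.sl g₀ h * (c.x h - c.x g₀) = c.y h - c.y g₀ := by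
      unfold Chart.sl
      exact div_mul_cancel₀ _ (sub_ne_zero.mpr (ne_of_lt hx))
    rw [← h2]
    exact mul_le_mul_of_nonpos_right h1 (by linarith)
  · intro h hx
    have h1 := hmin k hk hkx h (ne_of_gt hx)
    have h2 : c.sl g₀ h * (c.x h - c.x g₀) = c.y h - c.y g₀ := by
      unfold Chart.sl
      exact div_mul_cancel₀ _ (sub_ne_zero.mpr (ne_of_gt hx))
    rw [← h2]
    exact mul_le_mul_of_nonneg_right h1 (by linarith)

theorem left_sl (c : Chart S) (ℓ : Finset ι) (hℓ : ℓ ∈ S.L) (g₀ g k h : ι) (he : Ext c g₀ ℓ)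
    (hg : g ∈ ℓ) (hle : c.x g ≤ c.x g₀) (hk : k ∈ ℓ) (hkx : c.x k < c.x g)
    (hhx : c.x h < c.x g) : c.sl g k ≤ c.sl g h := by
  obtain ⟨s, h1, h2, _⟩ := line_eq c ℓ hℓ g₀ he
  have e1 := h1 g hg
  have e2 := h1 k hk
  have e3 := h2 h (lt_of_lt_of_le hhx hle)
  have hs : c.sl g k = s := by
    unfold Chart.sl
    rw [div_eq_iff (sub_ne_zero.mpr (ne_of_lt hkx))]
    linarith
  rw [hs]
  unfold Chart.sl
  rw [le_div_iff_of_neg (by linarith)]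
  linarith

theorem right_sl (c : Chart S) (ℓ : Finset ι) (hℓ : ℓ ∈ S.L) (g₀ g k h : ι) (he : Ext c g₀ ℓ)
    (hg : g ∈ ℓ) (hle : c.x g₀ ≤ c.x g) (hk : k ∈ ℓ) (hkx : c.x g < c.x k)
    (hhx : c.x g < c.x h) : c.sl g k ≤ c.sl g h := by
  obtain ⟨s, h1, _, h2⟩ := line_eq c ℓ hℓ g₀ he
  have e1 := h1 g hg
  have e2 := h1 k hk
  have e3 := h2 h (lt_of_le_of_lt hle hhx)
  have hs : c.sl g k = s := by
    unfold Chart.sl
    rw [div_eq_iff (sub_ne_zero.mpr (ne_of_gt hkx))]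
    linarith
  rw [hs]
  unfold Chart.sl
  rw [le_div_iff₀ (by linarith)]
  linarith

theorem left_pt (c : Chart S) (ℓ : Finset ι) (hℓ : ℓ ∈ S.L) (g₀ g h : ι) (he : Ext c g₀ ℓ)
    (hg : g ∈ ℓ) (hlt : c.x h < c.x g₀) (hx : c.x h = c.x g) : c.y h ≤ c.y g := by
  obtain ⟨s, h1, h2, _⟩ := line_eq c ℓ hℓ g₀ he
  have e1 := h1 g hg
  have e3 := h2 h hlt
  rw [hx] at e3
  linarith

theorem right_pt (c : Chart S) (ℓ : Finset ι) (hℓ : ℓ ∈ S.L) (g₀ g h : ι) (he : Ext c g₀ ℓ)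
    (hg : g ∈ ℓ) (hlt : c.x g₀ < c.x h) (hx : c.x h = c.x g) : c.y g ≤ c.y h := by
  obtain ⟨s, h1, _, h2⟩ := line_eq c ℓ hℓ g₀ he
  have e1 := h1 g hg
  have e3 := h2 h hlt
  rw [hx] at e3
  linarith

end H64.BL
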